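import Mathlib

/-!
# A kernel on `k`-sets which reproduces the counts of small sets
-/

set_option autoImplicit false

open Finset

namespace Pool.Agent.LS3

open Classical in
private noncomputable def fku (k v : ℕ) (T : Finset (Fin v)) : EuclideanSpace ℝ (Finset (Fin v)) :=
  ∑ B ∈ (powersetCard k (univ : Finset (Fin v))).filter (fun B => T ⊆ B),
    EuclideanSpace.single B (1 : ℝ)

private noncomputable def fkV (t k v : ℕ) : Submodule ℝ (EuclideanSpace ℝ (Finset (Fin v))) :=
  Submodule.span ℝ (fku k v '' {T | T.card ≤ t})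

private noncomputable def fkU {v : ℕ} (σ : Equiv.Perm (Fin v)) :
    EuclideanSpace ℝ (Finset (Fin v)) ≃ₗᵢ[ℝ] EuclideanSpace ℝ (Finset (Fin v)) :=
  LinearIsometryEquiv.piLpCongrLeft 2 ℝ ℝ (Equiv.finsetCongr σ)

open Classical in
private theorem fkU_single {v : ℕ} (σ : Equiv.Perm (Fin v)) (B : Finset (Fin v)) :
    fkU σ (EuclideanSpace.single B (1 : ℝ)) =
      EuclideanSpace.single (B.map σ.toEmbedding) (1 : ℝ) := by
  have := LinearIsometryEquiv.piLpCongrLeft_single (p := 2) (𝕜 := ℝ) (E := ℝ)
    (Equiv.finsetCongr σ) B (1 : ℝ)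
  exact this

private theorem fkU_symm {v : ℕ} (σ : Equiv.Perm (Fin v)) : (fkU σ).symm = fkU σ.symm := by
  unfold fkU
  rw [LinearIsometryEquiv.piLpCongrLeft_symm, Equiv.finsetCongr_symm]

private theorem fkU_fku {v : ℕ} (k : ℕ) (σ : Equiv.Perm (Fin v)) (T : Finset (Fin v)) :
    fkU σ (fku k v T) = fku k v (T.map σ.toEmbedding) := by
  classical
  unfold fku
  rw [map_sum]
  refine Finset.sum_equiv (Equiv.finsetCongr σ) ?_ ?_
  · intro B
    simp [Finset.mem_filter, Finset.mem_powersetCard]
  · intro B _
    rw [fkU_single]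
    rfl

private theorem fkU_mem {v : ℕ} (t k : ℕ) (σ : Equiv.Perm (Fin v))
    {f : EuclideanSpace ℝ (Finset (Fin v))} (hf : f ∈ fkV t k v) : fkU σ f ∈ fkV t k v := by
  have h : fkV t k v ≤ (fkV t k v).comap (fkU σ).toLinearEquiv.toLinearMap := by
    unfold fkV
    rw [Submodule.span_le]
    rintro _ ⟨T, hT, rfl⟩
    show fkU σ (fku k v T) ∈ Submodule.span ℝ (fku k v '' {T | T.card ≤ t})
    rw [fkU_fku]
    apply Submodule.subset_span
    refine ⟨T.map σ.toEmbedding, ?_, rfl⟩
    show (T.map σ.toEmbedding).card ≤ t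
    rw [Finset.card_map]
    exact hT
  exact h hf

private theorem fk_perm {v : ℕ} {B B' : Finset (Fin v)} (h : B.card = B'.card) :
    ∃ σ : Equiv.Perm (Fin v), B.map σ.toEmbedding = B' := by
  classical
  refine ⟨(Finset.equivOfCardEq h).extendSubtype, ?_⟩
  apply Finset.eq_of_subset_of_card_le
  · intro x hx
    obtain ⟨y, hy, rfl⟩ := Finset.mem_map.mp hx
    exact Equiv.extendSubtype_mem (Finset.equivOfCardEq h) y hy
  · rw [Finset.card_map, h]

private theorem fk_finrank (t k v : ℕ) : Module.finrank ℝ (fkV t k v) ≤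
    ((univ : Finset (Finset (Fin v))).filter (fun T => T.card ≤ t)).card := by
  classical
  have h1 : fkV t k v = Submodule.span ℝ
      (((univ : Finset (Finset (Fin v))).filter (fun T => T.card ≤ t)).image (fku k v) :
        Finset (EuclideanSpace ℝ (Finset (Fin v)))) := by
    unfold fkV
    congr 1
    ext f
    simp
  rw [h1]
  exact (finrank_span_finset_le_card _).trans Finset.card_image_le

open Classical in
private theorem fk_trace (t k v : ℕ) : ∑ B : Finset (Fin v),
    ‖(fkV t k v).starProjection (EuclideanSpace.single B (1 : ℝ))‖ ^ 2 =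
      (Module.finrank ℝ (fkV t k v) : ℝ) := by
  have h1 : LinearMap.IsProj (fkV t k v) (fkV t k v).starProjection.toLinearMap := by
    refine ⟨fun x => Submodule.starProjection_apply_mem _ x, fun x hx => ?_⟩
    exact Submodule.starProjection_eq_self_iff.mpr hx
  have h2 := h1.trace
  rw [LinearMap.trace_eq_sum_inner _ (EuclideanSpace.basisFun (Finset (Fin v)) ℝ)] at h2
  rw [← h2]
  apply Finset.sum_congr rfl
  intro B _
  rw [EuclideanSpace.basisFun_apply, ← real_inner_self_eq_norm_sq,
    Submodule.inner_starProjection_left_eq_right]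
  congr 1
  exact Submodule.starProjection_eq_self_iff.mpr (Submodule.starProjection_apply_mem _ _)

open Classical in
private theorem fk_norm (t k v : ℕ) {B B' : Finset (Fin v)} (h : B.card = B'.card) :
    ‖(fkV t k v).starProjection (EuclideanSpace.single B (1 : ℝ))‖ =
      ‖(fkV t k v).starProjection (EuclideanSpace.single B' (1 : ℝ))‖ := by
  obtain ⟨σ, hσ⟩ := fk_perm h
  have h1 : (fkV t k v).starProjection (EuclideanSpace.single B' (1 : ℝ)) =
      fkU σ ((fkV t k v).starProjection (EuclideanSpace.single B (1 : ℝ))) := by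
    apply Submodule.eq_starProjection_of_mem_of_inner_eq_zero
    · exact fkU_mem t k σ (Submodule.starProjection_apply_mem _ _)
    · intro w hw
      have h2 : w = fkU σ ((fkU σ).symm w) := by simp
      have h3 : (fkU σ).symm w ∈ fkV t k v := by
        rw [fkU_symm]
        exact fkU_mem t k σ.symm hw
      rw [h2, ← hσ, ← fkU_single, ← map_sub, LinearIsometryEquiv.inner_map_map]
      exact Submodule.starProjection_inner_eq_zero _ _ h3
  rw [h1, LinearIsometryEquiv.norm_map]

theorem frac_kernel (t k v : ℕ) (hk : k ≤ v) :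
    ∃ Kf : Finset (Fin v) → Finset (Fin v) → ℝ,
      (∀ B' ∈ powersetCard k (univ : Finset (Fin v)), ∀ T : Finset (Fin v), T.card ≤ t →
        ∑ B ∈ (powersetCard k (univ : Finset (Fin v))).filter (fun B => T ⊆ B), Kf B B' =
          if T ⊆ B' then 1 else 0) ∧
      ∀ B ∈ powersetCard k (univ : Finset (Fin v)),
        ∀ B' ∈ powersetCard k (univ : Finset (Fin v)), |Kf B B'| ≤
          (((univ : Finset (Finset (Fin v))).filter (fun T => T.card ≤ t)).card : ℝ) /
            (v.choose k : ℝ) := by
  classical
  refine ⟨fun B B' => inner ℝ (EuclideanSpace.single B (1 : ℝ))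
    ((fkV t k v).starProjection (EuclideanSpace.single B' (1 : ℝ))), ?_, ?_⟩
  · intro B' hB' T hT
    have h1 : fku k v T ∈ fkV t k v := Submodule.subset_span ⟨T, hT, rfl⟩
    have h2 : ∑ B ∈ (powersetCard k (univ : Finset (Fin v))).filter (fun B => T ⊆ B),
        inner ℝ (EuclideanSpace.single B (1 : ℝ))
          ((fkV t k v).starProjection (EuclideanSpace.single B' (1 : ℝ))) =
        inner ℝ (fku k v T) (EuclideanSpace.single B' (1 : ℝ)) := by
      rw [← sum_inner]
      have h3 : ∑ B ∈ (powersetCard k (univ : Finset (Fin v))).filter (fun B => T ⊆ B),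
        EuclideanSpace.single B (1 : ℝ) = fku k v T := by
        unfold fku
        apply Finset.sum_congr _ (fun _ _ => rfl)
        ext B
        simp
      rw [h3, ← Submodule.inner_starProjection_left_eq_right,
        Submodule.starProjection_eq_self_iff.mpr h1]
    rw [h2]
    unfold fku
    rw [sum_inner]
    have h4 : ∀ B : Finset (Fin v), inner ℝ (EuclideanSpace.single B (1 : ℝ))
        (EuclideanSpace.single B' (1 : ℝ)) = if B = B' then (1 : ℝ) else 0 := by
      intro B
      rw [EuclideanSpace.inner_single_left]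
      by_cases h : B = B' <;> simp [h]
    simp only [h4]
    rw [Finset.sum_ite_eq' _ B' (fun _ => (1 : ℝ))]
    by_cases hTB : T ⊆ B'
    · rw [if_pos, if_pos hTB]
      exact Finset.mem_filter.mpr ⟨hB', hTB⟩
    · rw [if_neg, if_neg hTB]
      intro h
      exact hTB (Finset.mem_filter.mp h).2
  · intro B hB B' hB'
    have hBc := (Finset.mem_powersetCard.mp hB).2
    have hBc' := (Finset.mem_powersetCard.mp hB').2
    have e1 : inner ℝ (EuclideanSpace.single B (1 : ℝ))
        ((fkV t k v).starProjection (EuclideanSpace.single B' (1 : ℝ))) =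
        inner ℝ ((fkV t k v).starProjection (EuclideanSpace.single B (1 : ℝ)))
          ((fkV t k v).starProjection (EuclideanSpace.single B' (1 : ℝ))) := by
      rw [Submodule.inner_starProjection_left_eq_right,
        Submodule.starProjection_eq_self_iff.mpr (Submodule.starProjection_apply_mem _ _)]
    have e2 : |inner ℝ (EuclideanSpace.single B (1 : ℝ))
        ((fkV t k v).starProjection (EuclideanSpace.single B' (1 : ℝ)))| ≤
        ‖(fkV t k v).starProjection (EuclideanSpace.single B (1 : ℝ))‖ ^ 2 := by
      rw [e1, sq]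
      refine (abs_real_inner_le_norm _ _).trans (le_of_eq ?_)
      rw [fk_norm t k v (hBc'.trans hBc.symm)]
    have e3 : (v.choose k : ℝ) *
        ‖(fkV t k v).starProjection (EuclideanSpace.single B (1 : ℝ))‖ ^ 2 ≤
        (((univ : Finset (Finset (Fin v))).filter (fun T => T.card ≤ t)).card : ℝ) := by
      have h1 : ∑ C ∈ powersetCard k (univ : Finset (Fin v)),
          ‖(fkV t k v).starProjection (EuclideanSpace.single C (1 : ℝ))‖ ^ 2 =
          (v.choose k : ℝ) *
            ‖(fkV t k v).starProjection (EuclideanSpace.single B (1 : ℝ))‖ ^ 2 := by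
        rw [Finset.sum_congr rfl (fun C hC => by
          rw [fk_norm t k v ((Finset.mem_powersetCard.mp hC).2.trans hBc.symm)]),
          Finset.sum_const, Finset.card_powersetCard, Finset.card_univ, Fintype.card_fin,
          nsmul_eq_mul]
      have h2 : ∑ C ∈ powersetCard k (univ : Finset (Fin v)),
          ‖(fkV t k v).starProjection (EuclideanSpace.single C (1 : ℝ))‖ ^ 2 ≤
          ∑ C : Finset (Fin v),
          ‖(fkV t k v).starProjection (EuclideanSpace.single C (1 : ℝ))‖ ^ 2 :=
        Finset.sum_le_sum_of_subset_of_nonneg (Finset.subset_univ _) fun _ _ _ => by positivity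
      rw [fk_trace] at h2
      have h3 : (Module.finrank ℝ (fkV t k v) : ℝ) ≤
          (((univ : Finset (Finset (Fin v))).filter (fun T => T.card ≤ t)).card : ℝ) := by
        exact_mod_cast fk_finrank t k v
      linarith
    have hpos : (0 : ℝ) < (v.choose k : ℝ) := by exact_mod_cast Nat.choose_pos hk
    rw [le_div_iff₀ hpos]
    refine le_trans ?_ e3
    rw [mul_comm]
    exact mul_le_mul_of_nonneg_left e2 hpos.le

end Pool.Agent.LS3
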