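import Pool.Agent.Lib.MP_2c0b9b_co_NL.RoundRows

/-!
# Rounding of a fractional colouring with three colours
-/

set_option autoImplicit false

open Finset

namespace Pool.Agent.LS3

theorem rounding_gen {Ω ι : Type*} [DecidableEq Ω] (S : Finset Ω) (I : Finset ι)
    (a : Ω → ι → ℝ) (ha : ∀ B ∈ S, ∀ T ∈ I, |a B T| ≤ 1) (x : Ω → ZMod 3 → ℝ)
    (hx0 : ∀ B ∈ S, ∀ i, 0 ≤ x B i) (hx1 : ∀ B ∈ S, ∑ i, x B i = 1) :
    ∃ χ : Ω → ZMod 3, ∀ T ∈ I, ∀ i : ZMod 3,
      |∑ B ∈ S.filter (fun B => χ B = i), a B T - ∑ B ∈ S, x B i * a B T| ≤ 6 * I.card := by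
  classical
  obtain ⟨Y, hYS, hYc, hYT⟩ := rounding_rows (S ×ˢ (univ : Finset (ZMod 3))) Prod.fst
    (I ×ˢ (univ : Finset (ZMod 3))) (fun p q => if p.2 = q.2 then a p.1 q.1 else 0)
    (fun p hp q hq => by
      split_ifs
      · exact ha _ (mem_product.1 hp).1 _ (mem_product.1 hq).1
      · rw [abs_zero]
        exact zero_le_one) (fun p => x p.1 p.2)
    (fun p hp => by
      have hp1 := (mem_product.1 hp).1
      refine ⟨hx0 _ hp1 _, ?_⟩
      rw [← hx1 _ hp1]
      exact single_le_sum (f := fun i => x p.1 i) (fun i _ => hx0 _ hp1 i) (mem_univ p.2))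
    (fun B => if B ∈ S then 1 else 0)
    (fun q => by
      rw [sum_filter, sum_product]
      have h1 : ∀ B ∈ S, (∑ i, if (B, i).1 = q then x (B, i).1 (B, i).2 else 0) =
          if B = q then (1 : ℝ) else 0 := by
        intro B hB
        by_cases h : B = q
        · simp only [h, if_true]
          rw [← h]
          exact hx1 B hB
        · simp [h]
      rw [sum_congr rfl h1, sum_ite_eq']
      split_ifs <;> simp)
  have hex : ∀ B ∈ S, ∃ j, ∀ i, (B, i) ∈ Y ↔ i = j := by
    intro B hB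
    have h1 := hYc B
    rw [if_pos hB, card_eq_one] at h1
    obtain ⟨p, hp⟩ := h1
    have h2 : p ∈ Y.filter (fun p => p.1 = B) := by
      rw [hp]
      exact mem_singleton_self p
    obtain ⟨h3, h4⟩ := mem_filter.1 h2
    refine ⟨p.2, fun i => ⟨fun hi => ?_, fun hi => ?_⟩⟩
    · have h5 : (B, i) ∈ Y.filter (fun p => p.1 = B) := mem_filter.2 ⟨hi, rfl⟩
      rw [hp, mem_singleton] at h5
      rw [← h5]
    · rw [hi, ← h4]
      exact h3
  choose! χ hχ using hex
  refine ⟨χ, fun T hT i => ?_⟩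
  have h0 := hYT (T, i) (mem_product.2 ⟨hT, mem_univ i⟩)
  have h1 : ∑ p ∈ Y, (if p.2 = (T, i).2 then a p.1 (T, i).1 else 0) =
      ∑ B ∈ S.filter (fun B => χ B = i), a B T := by
    have h2 : ∑ p ∈ Y, (if p.2 = i then a p.1 T else 0) =
        ∑ p ∈ S ×ˢ (univ : Finset (ZMod 3)),
          if p ∈ Y then (if p.2 = i then a p.1 T else 0) else 0 := by
      have h5 : (S ×ˢ (univ : Finset (ZMod 3))).filter (fun p => p ∈ Y) = Y := by
        ext p
        rw [mem_filter]
        exact ⟨fun h => h.2, fun h => ⟨hYS h, h⟩⟩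
      conv_lhs => rw [← h5]
      exact sum_filter _ _
    refine h2.trans ?_
    rw [sum_product, sum_filter]
    refine sum_congr rfl fun B hB => ?_
    have h3 : ∀ j, (if (B, j) ∈ Y then (if (B, j).2 = i then a (B, j).1 T else 0) else 0) =
        if j = χ B then (if χ B = i then a B T else 0) else 0 := by
      intro j
      by_cases h : j = χ B
      · rw [if_pos ((hχ B hB j).2 h), if_pos h, h]
      · rw [if_neg fun h' => h ((hχ B hB j).1 h'), if_neg h]
    rw [sum_congr rfl fun j _ => h3 j, sum_ite_eq', if_pos (mem_univ _)]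
  have h2 : ∑ p ∈ S ×ˢ (univ : Finset (ZMod 3)),
      x p.1 p.2 * (if p.2 = (T, i).2 then a p.1 (T, i).1 else 0) = ∑ B ∈ S, x B i * a B T := by
    rw [sum_product]
    refine sum_congr rfl fun B _ => ?_
    rw [sum_eq_single i]
    · simp
    · intro j _ hj
      simp [hj]
    · intro h
      exact absurd (mem_univ i) h
  rw [h1, h2, card_product, card_univ, ZMod.card] at h0
  refine h0.trans (le_of_eq ?_)
  push_cast
  ring

end Pool.Agent.LS3
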