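import Pool.Agent.Lib.MP_2c0b9b_co_LB.CorrL
import Pool.Agent.Lib.MP_2c0b9b_co_LB.FracK
import Pool.Agent.Lib.MP_2c0b9b_co_LB.RoundG

/-!
# The absorption theorem, linear version
-/

set_option autoImplicit false

open Finset

namespace Pool.Agent.LS3

/-- Effect of the moves on the counts, in one star. -/
theorem star_flip {s v : ℕ} (A B S T : Finset (Fin v)) (a i : ZMod 3)
    (W : Finset ((Fin s → Fin v) × (Fin s → Fin v)))
    (hW : ∀ p ∈ W, Oct p ∧ sideA p = A ∧ sideB p = B) (hW1 : W.card ≤ 1) :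
    (∑ U ∈ powersetCard s (A ∪ B), if T ⊆ S ∪ U ∧
        (if ∃ p ∈ W, ∃ J, tr p J = U then a + 1 - parB B U else a + parB B U) = i
        then (1 : ℤ) else 0) =
      (∑ U ∈ powersetCard s (A ∪ B), if T ⊆ S ∪ U ∧ a + parB B U = i then (1 : ℤ) else 0) +
        ∑ p ∈ W, sg i a * effS p S T := by
  rcases Nat.lt_or_ge W.card 1 with h0 | h0
  · have : W = ∅ := card_eq_zero.1 (by omega)
    subst this
    simp
  · obtain ⟨p, rfl⟩ := card_eq_one.1 (le_antisymm hW1 h0)
    obtain ⟨hp, rfl, rfl⟩ := hW p (mem_singleton_self p)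
    rw [sum_singleton]
    have hsub : (univ : Finset (Finset (Fin s))).image (tr p) ⊆
        powersetCard s (sideA p ∪ sideB p) := by
      intro U hU
      obtain ⟨J, -, rfl⟩ := mem_image.1 hU
      exact tr_mem_star hp J
    rw [← sum_sdiff hsub, ← sum_sdiff (f := fun U => if T ⊆ S ∪ U ∧ a + parB (sideB p) U = i
      then (1 : ℤ) else 0) hsub, add_assoc]
    congr 1
    · refine sum_congr rfl fun U hU => ?_
      have h1 : ¬ ∃ q ∈ ({p} : Finset ((Fin s → Fin v) × (Fin s → Fin v))), ∃ J, tr q J = U := by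
        rintro ⟨q, hq, J, hJ⟩
        rw [mem_singleton] at hq
        subst hq
        exact (mem_sdiff.1 hU).2 (mem_image.2 ⟨J, mem_univ _, hJ⟩)
      simp only [if_neg h1]
    · rw [sum_image (fun x _ y _ h => tr_injective hp h),
        sum_image (fun x _ y _ h => tr_injective hp h)]
      have h3 : (∑ J : Finset (Fin s), if T ⊆ S ∪ tr p J ∧ a + parB (sideB p) (tr p J) = i
          then (1 : ℤ) else 0) =
          ∑ J : Finset (Fin s), if T ⊆ S ∪ tr p J ∧ a + par J = i then (1 : ℤ) else 0 :=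
        sum_congr rfl fun J _ => by rw [parB_tr hp]
      rw [h3, ← swap2 p S T a i]
      refine sum_congr rfl fun J _ => ?_
      have h1 : ∃ q ∈ ({p} : Finset ((Fin s → Fin v) × (Fin s → Fin v))),
          ∃ J', tr q J' = tr p J := ⟨p, mem_singleton_self p, J, rfl⟩
      simp only [if_pos h1, parB_tr hp]

/-- The index type of the blocks of all pools. -/
abbrev BIdx3 (v : ℕ) : Type := (_ : Idx3 v) × (Finset (Fin v) × Finset (Fin v))

theorem sum_blocks3 {M : Type*} [AddCommMonoid M] {v : ℕ} (I : Finset (Idx3 v))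
    (Y Z : Idx3 v → Finset (Finset (Fin v))) (f : BIdx3 v → M) :
    ∑ y ∈ (I.sigma (fun x => Y x ×ˢ Z x) : Finset (BIdx3 v)), f y =
      ∑ x ∈ I, ∑ S ∈ Y x, ∑ U ∈ Z x, f ⟨x, (S, U)⟩ := by
  rw [sum_sigma]
  refine sum_congr rfl fun x _ => ?_
  rw [sum_product]

/-- The changes of all the moves. -/
theorem sum_chg3 (t v : ℕ)
    (Y : ℕ → Finset (Fin v) → Finset (Fin v) → ZMod 3 → Finset (Finset (Fin v)))
    (F : (s : ℕ) → (Fin s → Fin v) × (Fin s → Fin v) → ZMod 3 → Finset (Finset (Fin v)))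
    (hF : ∀ s p a, F s p a ⊆ Y s (sideA p) (sideB p) a) (hF0 : ∀ s p a, ¬ Oct p → F s p a = ∅)
    (i : ZMod 3) (T : Finset (Fin v)) :
    ∑ x ∈ gM t v, ∑ S ∈ Y x.1 x.2.1.1 x.2.1.2 x.2.2,
      ∑ p ∈ (univ : Finset ((Fin x.1 → Fin v) × (Fin x.1 → Fin v))).filter
        (fun p => (sideA p = x.2.1.1 ∧ sideB p = x.2.1.2) ∧ S ∈ F x.1 p x.2.2),
        sg i x.2.2 * effS p S T =
      ∑ s ∈ range (t + 1), chg2 (fun p S T => effS p S T) (F s) i T := by
  rw [sum_gM]
  refine sum_congr rfl fun s _ => ?_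
  simp only
  unfold chg2
  have h1 : ∀ q : Finset (Fin v) × Finset (Fin v), ∀ a : ZMod 3,
      ∑ S ∈ Y s q.1 q.2 a,
        ∑ p ∈ (univ : Finset ((Fin s → Fin v) × (Fin s → Fin v))).filter
          (fun p => (sideA p = q.1 ∧ sideB p = q.2) ∧ S ∈ F s p a), sg i a * effS p S T =
      ∑ p ∈ (univ : Finset ((Fin s → Fin v) × (Fin s → Fin v))).filter
          (fun p => (sideA p, sideB p) = q), ∑ S ∈ F s p a, sg i a * effS p S T := by
    intro q a
    simp only [sum_filter]
    rw [sum_comm]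
    refine sum_congr rfl fun p _ => ?_
    by_cases hpq : (sideA p, sideB p) = q
    · subst hpq
      simp only [true_and, if_true, and_self]
      rw [← sum_filter]
      congr 1
      ext S
      rw [mem_filter]
      exact ⟨fun h => h.2, fun h => ⟨hF s p a h, h⟩⟩
    · have h2 : ¬ (sideA p = q.1 ∧ sideB p = q.2) := by
        rintro ⟨h3, h4⟩
        exact hpq (by rw [h3, h4])
      simp only [h2, false_and, if_false, hpq]
      exact sum_const_zero
  simp only [h1]
  have h2 : ∀ p : (Fin s → Fin v) × (Fin s → Fin v), (sideA p, sideB p) ∉ sides v s →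
      ∑ a : ZMod 3, ∑ S ∈ F s p a, sg i a * effS p S T = 0 := by
    intro p hp
    have h3 : ¬ Oct p := by
      intro h4
      exact hp (mem_sides.2 (side_card h4))
    refine sum_eq_zero fun a _ => ?_
    rw [hF0 s p a h3, sum_empty]
  have h3 : ∀ q ∈ sides v s, ∑ a : ZMod 3,
      ∑ p ∈ (univ : Finset ((Fin s → Fin v) × (Fin s → Fin v))).filter
          (fun p => (sideA p, sideB p) = q), ∑ S ∈ F s p a, sg i a * effS p S T =
      ∑ p ∈ (univ : Finset ((Fin s → Fin v) × (Fin s → Fin v))).filter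
          (fun p => (sideA p, sideB p) = q),
          ∑ a : ZMod 3, ∑ S ∈ F s p a, sg i a * effS p S T := fun q _ => sum_comm
  rw [sum_congr rfl h3]
  have h4 : ∑ q ∈ sides v s, ∑ p ∈ (univ : Finset ((Fin s → Fin v) × (Fin s → Fin v))).filter
          (fun p => (sideA p, sideB p) = q),
          ∑ a : ZMod 3, ∑ S ∈ F s p a, sg i a * effS p S T =
      ∑ p ∈ (univ : Finset ((Fin s → Fin v) × (Fin s → Fin v))).filter
          (fun p => (sideA p, sideB p) ∈ sides v s),
          ∑ a : ZMod 3, ∑ S ∈ F s p a, sg i a * effS p S T := by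
    rw [← sum_fiberwise_of_maps_to (s := (univ : Finset ((Fin s → Fin v) ×
      (Fin s → Fin v))).filter (fun p => (sideA p, sideB p) ∈ sides v s)) (t := sides v s)
      (g := fun p => (sideA p, sideB p)) (fun p hp => (mem_filter.1 hp).2)]
    refine sum_congr rfl fun q hq => ?_
    rw [filter_filter]
    refine sum_congr ?_ fun _ _ => rfl
    ext p
    simp only [mem_filter, mem_univ, true_and]
    constructor
    · intro h
      exact ⟨h ▸ hq, h⟩
    · exact fun h => h.2
  rw [h4, sum_filter]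
  refine sum_congr rfl fun p _ => ?_
  split_ifs with hp
  · rfl
  · exact (h2 p hp).symm

/-- The absorption theorem, linear version. -/
theorem absorb_lin (t k v : ℕ) (hv : 1 ≤ v) (hk : 2 * t ≤ k) (hkv : k ≤ v)
    (hdiv : ∀ i ≤ t, 3 ∣ (v - i).choose (k - i))
    (hbig : ∀ s ≤ t, lN t v * lK t v ≤ lI t v * (v - 2 * s).choose (k - s))
    (hK : lK t v * lK t v ≤ v.choose k) :
    G (t + 1) k v := by
  classical
  obtain ⟨Y, hY1, hY2, hY3, hY4⟩ := choose_pools_l t k v hv hk hbig
  have hN : 1 ≤ lN t v := lN_pos t v hv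
  have hI1 : 1 ≤ lI t v := lI_pos t v
  have hIK : 6 * lI t v ≤ lK t v := six_lI_le t v
  have hCpos : ∀ s ≤ t, 0 < (v - 2 * s).choose (k - s) := by
    intro s hs
    have h1 : 0 < lN t v * lK t v := Nat.mul_pos hN (by omega)
    have h2 := lt_of_lt_of_le h1 (hbig s hs)
    rcases Nat.eq_zero_or_pos ((v - 2 * s).choose (k - s)) with h0 | h0
    · rw [h0, mul_zero] at h2
      exact absurd h2 (lt_irrefl 0)
    · exact h0
  set P : Finset (Finset (Fin v)) := powersetCard k univ with hP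
  set Yx : Idx3 v → Finset (Finset (Fin v)) := fun x => Y x.1 x.2.1.1 x.2.1.2 x.2.2 with hYx
  set Zx : Idx3 v → Finset (Finset (Fin v)) :=
    fun x => powersetCard x.1 (x.2.1.1 ∪ x.2.1.2) with hZx
  set J : Finset (BIdx3 v) := (gM t v).sigma (fun x => Yx x ×ˢ Zx x) with hJ
  set F : BIdx3 v → Finset (Fin v) := fun y => y.2.1 ∪ y.2.2 with hF
  set col : BIdx3 v → ZMod 3 := fun y => y.1.2.2 + parB y.1.2.1.2 y.2.2 with hcol
  have hJmem : ∀ y : BIdx3 v, y ∈ J → y.1 ∈ gM t v ∧
      y.2.1 ∈ Y y.1.1 y.1.2.1.1 y.1.2.1.2 y.1.2.2 ∧ y.2.2 ∈ Zx y.1 := by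
    intro y hy
    rw [hJ, mem_sigma, mem_product] at hy
    exact ⟨hy.1, hy.2.1, hy.2.2⟩
  have hxS : ∀ x ∈ gM t v, ∀ S ∈ Y x.1 x.2.1.1 x.2.1.2 x.2.2, S.card = k - x.1 ∧
      Disjoint S (x.2.1.1 ∪ x.2.1.2) := by
    intro x hx S hS
    have hx' := mem_gM.1 hx
    have hx2 := mem_sides.1 hx'.2
    exact hY1 _ hx'.1 _ _ hx2.1 hx2.2.1 hx2.2.2 _ S hS
  have hFP : ∀ y ∈ J, F y ∈ P := by
    intro y hy
    obtain ⟨hx, hS, hU⟩ := hJmem y hy
    obtain ⟨h1, h2⟩ := hxS _ hx _ hS
    have hU' := mem_powersetCard.1 hU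
    rw [hP, mem_powersetCard]
    refine ⟨subset_univ _, ?_⟩
    simp only [hF]
    rw [card_union_of_disjoint (disjoint_of_subset_right hU'.1 h2), h1, hU'.2]
    have := (mem_gM.1 hx).1
    omega
  have hFinj : Set.InjOn F J := by
    rintro ⟨x, q⟩ hy ⟨x', q'⟩ hy' h
    obtain ⟨hx, hS, hU⟩ := hJmem _ (mem_coe.1 hy)
    obtain ⟨hx', hS', hU'⟩ := hJmem _ (mem_coe.1 hy')
    by_cases hxx : x = x'
    · subst hxx
      obtain ⟨-, h2⟩ := hxS _ hx _ hS
      obtain ⟨-, h2'⟩ := hxS _ hx _ hS'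
      obtain ⟨q1, q2⟩ := q
      obtain ⟨q1', q2'⟩ := q'
      simp only at hS hS' hU hU' h2 h2'
      have hU1 := (mem_powersetCard.1 hU).1
      have hU1' := (mem_powersetCard.1 hU').1
      have h3 : q1 ∪ q2 = q1' ∪ q2' := h
      have h4 : q1 = q1' := by
        ext y
        constructor
        · intro hy1
          have h5 : y ∈ q1' ∪ q2' := h3 ▸ mem_union_left _ hy1
          rcases mem_union.1 h5 with h6 | h6
          · exact h6
          · exact absurd (hU1' h6) (disjoint_left.1 h2 hy1)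
        · intro hy1
          have h5 : y ∈ q1 ∪ q2 := h3.symm ▸ mem_union_left _ hy1
          rcases mem_union.1 h5 with h6 | h6
          · exact h6
          · exact absurd (hU1 h6) (disjoint_left.1 h2' hy1)
      have h7 : q2 = q2' := by
        ext y
        constructor
        · intro hy1
          have h5 : y ∈ q1' ∪ q2' := h3 ▸ mem_union_right _ hy1
          rcases mem_union.1 h5 with h6 | h6
          · exact absurd (hU1 hy1) (disjoint_left.1 h2' h6)
          · exact h6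
        · intro hy1
          have h5 : y ∈ q1 ∪ q2 := h3.symm ▸ mem_union_right _ hy1
          rcases mem_union.1 h5 with h6 | h6
          · exact absurd (hU1' hy1) (disjoint_left.1 h2 h6)
          · exact h6
      rw [h4, h7]
    · exact absurd h (hY3 x hx x' hx' hxx _ hS _ hS' _ hU _ hU')
  have hJcard : J.card ≤ lK t v := by
    refine le_trans ?_ hY4
    rw [hJ, card_sigma]
    refine sum_le_sum fun x hx => ?_
    rw [card_product]
    simp only [hYx, hZx]
    have h1 := mem_sides.1 (mem_gM.1 hx).2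
    rw [card_powersetCard, card_union_of_disjoint h1.2.2, h1.1, h1.2.1, ← two_mul]
  -- fractional compensation
  set IT : Finset (Finset (Fin v)) := univ.filter (fun T => T.card ≤ t) with hIT
  have hITc : IT.card = lI t v := small_card t v
  obtain ⟨Kf, hKf1, hKf2⟩ := frac_kernel t k v hkv
  have hC : 0 < v.choose k := Nat.choose_pos hkv
  have hCR : (0 : ℝ) < (v.choose k : ℝ) := by exact_mod_cast hC
  set w : Finset (Fin v) → ZMod 3 → ℝ := fun B i =>
    ∑ y ∈ J, Kf B (F y) * ((if col y = i then 1 else 0) - 1 / 3) with hw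
  have hwsum : ∀ B, ∑ i, w B i = 0 := by
    intro B
    simp only [hw]
    rw [sum_comm]
    refine sum_eq_zero fun y _ => ?_
    rw [← mul_sum, sum_sub_distrib]
    have h1 : ∑ i : ZMod 3, (if col y = i then (1 : ℝ) else 0) = 1 := by
      rw [sum_ite_eq]
      simp
    have h2 : ∑ i : ZMod 3, (1 / 3 : ℝ) = 1 := by
      rw [sum_const, card_univ, ZMod.card]
      norm_num
    rw [h1, h2]
    ring
  set δ : ℝ := (lK t v : ℝ) * (lI t v : ℝ) / (v.choose k : ℝ) with hδ
  have hδ0 : 0 ≤ δ := by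
    rw [hδ]
    positivity
  have hwb : ∀ B ∈ P, ∀ i, |w B i| ≤ δ := by
    intro B hB i
    simp only [hw]
    refine (abs_sum_le_sum_abs _ _).trans ?_
    have h1 : ∀ y ∈ J, |Kf B (F y) * ((if col y = i then 1 else 0) - 1 / 3)| ≤
        (lI t v : ℝ) / (v.choose k : ℝ) := by
      intro y hy
      rw [abs_mul]
      have h2 := hKf2 B hB (F y) (hFP y hy)
      rw [← hIT, hITc] at h2
      have h3 : |(if col y = i then (1 : ℝ) else 0) - 1 / 3| ≤ 1 := by
        split_ifs
        · rw [abs_le]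
          constructor <;> norm_num
        · rw [abs_le]
          constructor <;> norm_num
      calc _ ≤ (lI t v : ℝ) / (v.choose k : ℝ) * 1 :=
            mul_le_mul h2 h3 (abs_nonneg _) (by positivity)
        _ = _ := mul_one _
    refine (sum_le_sum h1).trans ?_
    rw [sum_const, nsmul_eq_mul, hδ, mul_div_assoc]
    refine mul_le_mul_of_nonneg_right ?_ (by positivity)
    exact_mod_cast hJcard
  have hKR : (lK t v : ℝ) * (lK t v : ℝ) ≤ (v.choose k : ℝ) := by exact_mod_cast hK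
  have hIKR : 6 * (lI t v : ℝ) ≤ (lK t v : ℝ) := by exact_mod_cast hIK
  have hI0 : (0 : ℝ) ≤ (lI t v : ℝ) := Nat.cast_nonneg _
  have hK0 : (0 : ℝ) ≤ (lK t v : ℝ) := Nat.cast_nonneg _
  have hδ1 : δ ≤ 1 / 3 := by
    rw [hδ, div_le_iff₀ hCR]
    have : (lK t v : ℝ) * (6 * (lI t v : ℝ)) ≤ (lK t v : ℝ) * (lK t v : ℝ) :=
      mul_le_mul_of_nonneg_left hIKR hK0
    nlinarith
  have hδ2 : (lK t v : ℝ) * δ ≤ (lI t v : ℝ) := by
    rw [hδ, ← mul_div_assoc, div_le_iff₀ hCR]
    have : (lK t v : ℝ) * (lK t v : ℝ) * (lI t v : ℝ) ≤ (v.choose k : ℝ) * (lI t v : ℝ) :=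
      mul_le_mul_of_nonneg_right hKR hI0
    nlinarith
  have hwT : ∀ T : Finset (Fin v), T.card ≤ t → ∀ i,
      ∑ B ∈ P.filter (fun B => T ⊆ B), w B i =
        ((J.filter (fun y => T ⊆ F y ∧ col y = i)).card : ℝ) -
          ((J.filter (fun y => T ⊆ F y)).card : ℝ) / 3 := by
    intro T hT i
    simp only [hw]
    rw [sum_comm]
    have h1 : ∀ y ∈ J, ∑ B ∈ P.filter (fun B => T ⊆ B),
        Kf B (F y) * ((if col y = i then 1 else 0) - 1 / 3) =
        (if T ⊆ F y ∧ col y = i then (1 : ℝ) else 0) - (if T ⊆ F y then (1 : ℝ) else 0) / 3 := by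
      intro y hy
      rw [← sum_mul, hKf1 (F y) (hFP y hy) T hT]
      by_cases h2 : T ⊆ F y
      · by_cases h3 : col y = i
        · simp [h2, h3]
        · simp [h2, h3]
      · simp [h2]
    rw [sum_congr rfl h1, sum_sub_distrib, ← sum_div, sum_boole, sum_boole]
  -- rounding
  set S₀ : Finset (Finset (Fin v)) := P \ J.image F with hS₀
  have hS₀P : S₀ ⊆ P := sdiff_subset
  obtain ⟨χ₁, hχ₁⟩ := rounding_gen S₀ IT (fun B T => if T ⊆ B then (1 : ℝ) else 0) (by
    intro B _ T _
    split_ifs <;> simp) (fun B i => 1 / 3 - w B i)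
    (by
      intro B hB i
      have h1 := (abs_le.1 (hwb B (hS₀P hB) i)).2
      linarith)
    (by
      intro B _
      rw [sum_sub_distrib, hwsum B, sum_const, card_univ, ZMod.card]
      norm_num)
  -- base colouring
  obtain ⟨χ₀, hχ₀⟩ := ab_split P J F hFP hFinj χ₁ col
  have hPT : ∀ T : Finset (Fin v), T.card ≤ t →
      (P.filter (fun B => T ⊆ B)).card = (v - T.card).choose (k - T.card) := by
    intro T hT
    rw [hP, card_filter_powersetCard_subset T univ k (subset_univ _) (by omega), card_univ,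
      Fintype.card_fin]
  set d : ZMod 3 → Finset (Fin v) → ℤ := fun i T =>
    (((P.filter (fun B => χ₀ B = i)).filter (fun B => T ⊆ B)).card : ℤ) -
      (((v - T.card).choose (k - T.card) / 3 : ℕ) : ℤ) with hd
  have hrel : ∀ i, Rel t k (d i) := by
    intro i
    apply ab_rel_sub
    · apply ab_rel_count
      intro B hB
      exact (mem_powersetCard.1 (mem_filter.1 hB).1).2
    · exact ab_rel_tau t k v (Fintype.card_fin v) (by omega) hdiv
  have hff : ∀ (i : ZMod 3) (T : Finset (Fin v)),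
      (P.filter (fun B => χ₀ B = i)).filter (fun B => T ⊆ B) =
        P.filter (fun B => T ⊆ B ∧ χ₀ B = i) := by
    intro i T
    rw [filter_filter]
    apply filter_congr
    intro B _
    exact and_comm
  have hfib : ∀ (T : Finset (Fin v)),
      ∑ i, (P.filter (fun B => T ⊆ B ∧ χ₀ B = i)).card = (P.filter (fun B => T ⊆ B)).card := by
    intro T
    rw [card_eq_sum_card_fiberwise (f := χ₀) (t := univ) (fun _ _ => mem_coe.2 (mem_univ _))]
    refine sum_congr rfl fun i _ => ?_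
    rw [filter_filter]
  have hsum : ∀ T : Finset (Fin v), T.card ≤ t → ∑ i, d i T = 0 := by
    intro T hT
    simp only [hd, sum_sub_distrib, hff]
    rw [← Nat.cast_sum, hfib T, hPT T hT, sum_const, card_univ, ZMod.card, nsmul_eq_mul]
    have := Nat.mul_div_cancel' (hdiv T.card hT)
    omega
  have hbd : ∀ i, ∀ T : Finset (Fin v), T.card ≤ t → |(d i T : ℝ)| ≤ 7 * (lI t v : ℕ) := by
    intro i T hT
    have hGs : ∑ i : ZMod 3, (J.filter (fun y => T ⊆ F y ∧ col y = i)).card =
        (J.filter (fun y => T ⊆ F y)).card := by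
      rw [card_eq_sum_card_fiberwise (f := col)
        (t := univ) (fun _ _ => mem_coe.2 (mem_univ _))]
      refine sum_congr rfl fun i _ => ?_
      rw [filter_filter]
    have hSs : ∑ i : ZMod 3, (S₀.filter (fun B => T ⊆ B ∧ χ₁ B = i)).card =
        (S₀.filter (fun B => T ⊆ B)).card := by
      rw [card_eq_sum_card_fiberwise (f := χ₁) (t := univ) (fun _ _ => mem_coe.2 (mem_univ _))]
      refine sum_congr rfl fun i _ => ?_
      rw [filter_filter]
    have hNT : (P.filter (fun B => T ⊆ B)).card =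
        (S₀.filter (fun B => T ⊆ B)).card + (J.filter (fun y => T ⊆ F y)).card := by
      rw [← hfib T, ← hSs, ← hGs, ← sum_add_distrib]
      exact sum_congr rfl fun i _ => hχ₀ _ i
    have h1 := hχ₀ (fun B => T ⊆ B) i
    rw [← hS₀] at h1
    have h2 := hχ₁ T (mem_filter.2 ⟨mem_univ _, hT⟩) i
    rw [sum_boole, filter_filter] at h2
    have h3 : (S₀.filter (fun B => χ₁ B = i ∧ T ⊆ B)) = S₀.filter (fun B => T ⊆ B ∧ χ₁ B = i) := by
      apply filter_congr
      intro B _
      exact and_comm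
    rw [h3, hITc] at h2
    -- the fractional sum
    have h4 : ∑ B ∈ S₀, (1 / 3 - w B i) * (if T ⊆ B then (1 : ℝ) else 0) =
        ((S₀.filter (fun B => T ⊆ B)).card : ℝ) / 3 -
          ∑ B ∈ S₀.filter (fun B => T ⊆ B), w B i := by
      have h5 : ∀ B ∈ S₀, (1 / 3 - w B i) * (if T ⊆ B then (1 : ℝ) else 0) =
          if T ⊆ B then 1 / 3 - w B i else 0 := by
        intro B _
        split_ifs <;> ring
      rw [sum_congr rfl h5, ← sum_filter, sum_sub_distrib, sum_const, nsmul_eq_mul]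
      ring
    have h6 : ∑ B ∈ P.filter (fun B => T ⊆ B), w B i =
        ∑ B ∈ S₀.filter (fun B => T ⊆ B), w B i +
          ∑ B ∈ (J.image F).filter (fun B => T ⊆ B), w B i := by
      have hsub : J.image F ⊆ P := by
        intro B hB
        obtain ⟨x, hx, rfl⟩ := mem_image.1 hB
        exact hFP x hx
      have e0 : P.filter (fun B => T ⊆ B) =
          S₀.filter (fun B => T ⊆ B) ∪ (J.image F).filter (fun B => T ⊆ B) := by
        rw [← filter_union, hS₀, sdiff_union_of_subset hsub]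
      rw [e0, sum_union (disjoint_filter_filter sdiff_disjoint)]
    have h7 : |∑ B ∈ (J.image F).filter (fun B => T ⊆ B), w B i| ≤ (lI t v : ℝ) := by
      refine (abs_sum_le_sum_abs _ _).trans ?_
      have h8 : ∀ B ∈ (J.image F).filter (fun B => T ⊆ B), |w B i| ≤ δ := by
        intro B hB
        obtain ⟨x, hx, rfl⟩ := mem_image.1 (mem_filter.1 hB).1
        exact hwb _ (hFP x hx) i
      refine (sum_le_sum h8).trans ?_
      rw [sum_const, nsmul_eq_mul]
      have h9 : (((J.image F).filter (fun B => T ⊆ B)).card : ℝ) ≤ (lK t v : ℝ) := by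
        exact_mod_cast ((card_filter_le _ _).trans card_image_le).trans hJcard
      exact (mul_le_mul_of_nonneg_right h9 hδ0).trans hδ2
    have h10 := hwT T hT i
    have h11 : (d i T : ℝ) = ((S₀.filter (fun B => T ⊆ B ∧ χ₁ B = i)).card : ℝ) +
        ((J.filter (fun y => T ⊆ F y ∧ col y = i)).card : ℝ) -
        ((S₀.filter (fun B => T ⊆ B)).card + (J.filter (fun y => T ⊆ F y)).card : ℝ) / 3 := by
      have h12 : 3 * d i T = 3 * ((S₀.filter (fun B => T ⊆ B ∧ χ₁ B = i)).card : ℤ) +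
          3 * ((J.filter (fun y => T ⊆ F y ∧ col y = i)).card : ℤ) -
          (((S₀.filter (fun B => T ⊆ B)).card : ℤ) + (J.filter (fun y => T ⊆ F y)).card) := by
        simp only [hd, hff]
        have h5 := Nat.mul_div_cancel' (hdiv T.card hT)
        have h6 := hPT T hT
        omega
      have h13 : 3 * (d i T : ℝ) = 3 * ((S₀.filter (fun B => T ⊆ B ∧ χ₁ B = i)).card : ℝ) +
          3 * ((J.filter (fun y => T ⊆ F y ∧ col y = i)).card : ℝ) -
          (((S₀.filter (fun B => T ⊆ B)).card : ℝ) + (J.filter (fun y => T ⊆ F y)).card) := by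
        exact_mod_cast h12
      linarith
    have h14 : (d i T : ℝ) = (((S₀.filter (fun B => T ⊆ B ∧ χ₁ B = i)).card : ℝ) -
        ∑ B ∈ S₀, (1 / 3 - w B i) * (if T ⊆ B then (1 : ℝ) else 0)) +
        ∑ B ∈ (J.image F).filter (fun B => T ⊆ B), w B i := by
      rw [h4, h11]
      linarith
    rw [h14]
    refine (abs_add_le _ _).trans ?_
    linarith
  obtain ⟨f, hf1, hf2, hf4, hf3⟩ := correct_lin t k v hk hCpos d hsum hrel hbd Y hY1 hY2
  -- the final colouring
  set Wf : (x : Idx3 v) → Finset (Fin v) →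
      Finset ((Fin x.1 → Fin v) × (Fin x.1 → Fin v)) := fun x S =>
    (univ : Finset ((Fin x.1 → Fin v) × (Fin x.1 → Fin v))).filter
        (fun p => (sideA p = x.2.1.1 ∧ sideB p = x.2.1.2) ∧ S ∈ f x.1 p x.2.2) with hWf
  have hWf1 : ∀ x S, ∀ p ∈ Wf x S, Oct p ∧ sideA p = x.2.1.1 ∧ sideB p = x.2.1.2 := by
    intro x S p hp
    have h1 := (mem_filter.1 hp).2
    refine ⟨?_, h1.1.1, h1.1.2⟩
    by_contra h2
    have h3 := h1.2
    rw [hf2 _ p x.2.2 h2] at h3
    exact absurd h3 (notMem_empty _)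
  have hWf2 : ∀ x S, (Wf x S).card ≤ 1 := by
    intro x S
    rw [card_le_one]
    intro p hp p' hp'
    have h1 := (mem_filter.1 hp).2
    have h1' := (mem_filter.1 hp').2
    by_contra hne
    have h2 := hf4 x.1 p p' x.2.2 hne (h1.1.1.trans h1'.1.1.symm) (h1.1.2.trans h1'.1.2.symm)
    exact disjoint_left.1 h2 h1.2 h1'.2
  set col' : BIdx3 v → ZMod 3 := fun y =>
    if ∃ p ∈ Wf y.1 y.2.1, ∃ J, tr p J = y.2.2 then y.1.2.2 + 1 - parB y.1.2.1.2 y.2.2
      else y.1.2.2 + parB y.1.2.1.2 y.2.2 with hcol'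
  obtain ⟨χ, hχ⟩ := ab_split P J F hFP hFinj χ₁ col'
  have hmain : ∀ (T : Finset (Fin v)), T.card ≤ t → ∀ i : ZMod 3,
      3 * (P.filter (fun B => T ⊆ B ∧ χ B = i)).card = (P.filter (fun B => T ⊆ B)).card := by
    intro T hT i
    have h1 := hχ (fun B => T ⊆ B) i
    have h2 := hχ₀ (fun B => T ⊆ B) i
    have h3 : ((J.filter (fun y => T ⊆ F y ∧ col' y = i)).card : ℤ) =
        (J.filter (fun y => T ⊆ F y ∧ col y = i)).card +
        ∑ s ∈ range (t + 1), chg2 (fun p S T => effS p S T) (f s) i T := by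
      rw [← sum_chg3 t v Y f hf1 hf2 i T, card_filter, card_filter, Nat.cast_sum, Nat.cast_sum,
        hJ, sum_blocks3, sum_blocks3, ← sum_add_distrib]
      refine sum_congr rfl fun x hx => ?_
      rw [← sum_add_distrib]
      refine sum_congr rfl fun S hS => ?_
      have h4 := star_flip x.2.1.1 x.2.1.2 S T x.2.2 i (Wf x S) (hWf1 x S) (hWf2 x S)
      have h5 : ∑ U ∈ Zx x, (((if T ⊆ F ⟨x, (S, U)⟩ ∧ col' ⟨x, (S, U)⟩ = i then 1 else 0 : ℕ)) :
          ℤ) = ∑ U ∈ powersetCard x.1 (x.2.1.1 ∪ x.2.1.2), if T ⊆ S ∪ U ∧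
          (if ∃ p ∈ Wf x S, ∃ J, tr p J = U then x.2.2 + 1 - parB x.2.1.2 U
            else x.2.2 + parB x.2.1.2 U) = i then (1 : ℤ) else 0 := by
        refine sum_congr rfl fun U _ => ?_
        rw [Nat.cast_ite, Nat.cast_one, Nat.cast_zero]
      have h6 : ∑ U ∈ Zx x, (((if T ⊆ F ⟨x, (S, U)⟩ ∧ col ⟨x, (S, U)⟩ = i then 1 else 0 : ℕ)) :
          ℤ) = ∑ U ∈ powersetCard x.1 (x.2.1.1 ∪ x.2.1.2), if T ⊆ S ∪ U ∧
            x.2.2 + parB x.2.1.2 U = i then (1 : ℤ) else 0 := by
        refine sum_congr rfl fun U _ => ?_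
        rw [Nat.cast_ite, Nat.cast_one, Nat.cast_zero]
      rw [h5, h6]
      convert h4 using 3
    have h4 := hf3 i T hT
    have h5 := Nat.mul_div_cancel' (hdiv T.card hT)
    have h6 := hPT T hT
    simp only [hd, hff] at h4
    omega
  have hgood : Good (t + 1) P := ⟨χ, fun T hT i => hmain T (by omega) i⟩
  have := (good_powersetCard_iff (univ : Finset (Fin v))).1 hgood
  rwa [card_univ, Fintype.card_fin] at this

end Pool.Agent.LS3
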