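import Mathlib

/-!
# Exact compensation
-/

set_option autoImplicit false

open Finset

namespace Pool.Agent.LS3

section
variable {β : Type*}

theorem compE_bound (R : Finset β) (K : β → β → ℝ) (δ : ℝ)
    (hK : ∀ B ∈ R, ∀ B' ∈ R, |K B B'| ≤ δ) (hR : (R.card : ℝ) * δ ≤ 1 / 2)
    (g : β → ℝ) (a : ℝ) (hg : ∀ B ∈ R, |g B - ∑ B' ∈ R, K B B' * g B'| ≤ a) :
    ∀ B ∈ R, |g B| ≤ 2 * a := by
  intro B hB
  obtain ⟨B0, hB0, hmax⟩ := exists_max_image R (fun B => |g B|) ⟨B, hB⟩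
  have h1 := hg B0 hB0
  have h2 : |∑ B' ∈ R, K B0 B' * g B'| ≤ 1 / 2 * |g B0| := by
    refine (abs_sum_le_sum_abs _ _).trans ?_
    have h3 : ∀ B' ∈ R, |K B0 B' * g B'| ≤ δ * |g B0| := by
      intro B' hB'
      rw [abs_mul]
      exact mul_le_mul (hK B0 hB0 B' hB') (hmax B' hB') (abs_nonneg _)
        ((abs_nonneg _).trans (hK B0 hB0 B' hB'))
    refine (sum_le_sum h3).trans ?_
    rw [sum_const, nsmul_eq_mul, ← mul_assoc]
    exact mul_le_mul_of_nonneg_right hR (abs_nonneg _)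
  have h4 : |g B0| ≤ a + 1 / 2 * |g B0| := by
    calc |g B0| = |(g B0 - ∑ B' ∈ R, K B0 B' * g B') + ∑ B' ∈ R, K B0 B' * g B'| := by
          rw [sub_add_cancel]
      _ ≤ |g B0 - ∑ B' ∈ R, K B0 B' * g B'| + |∑ B' ∈ R, K B0 B' * g B'| := abs_add_le _ _
      _ ≤ a + 1 / 2 * |g B0| := add_le_add h1 h2
  have h5 := hmax B hB
  linarith

theorem compE_exists (R : Finset β) (K : β → β → ℝ) (δ : ℝ)
    (hK : ∀ B ∈ R, ∀ B' ∈ R, |K B B'| ≤ δ) (hR : (R.card : ℝ) * δ ≤ 1 / 2)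
    (ε : β → ℝ) :
    ∃ g : β → ℝ, ∀ B ∈ R, g B - ∑ B' ∈ R, K B B' * g B' = ε B := by
  classical
  let L : ({x // x ∈ R} → ℝ) →ₗ[ℝ] ({x // x ∈ R} → ℝ) :=
    { toFun := fun g B => g B - ∑ B' : {x // x ∈ R}, K B B' * g B'
      map_add' := by
        intro x y
        funext B
        simp only [Pi.add_apply, mul_add, sum_add_distrib]
        ring
      map_smul' := by
        intro c x
        funext B
        simp only [Pi.smul_apply, smul_eq_mul, RingHom.id_apply]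
        rw [mul_sub, mul_sum]
        congr 1
        refine sum_congr rfl fun B' _ => ?_
        ring }
  have ext : ∀ g : {x // x ∈ R} → ℝ, ∃ g' : β → ℝ, ∀ B : {x // x ∈ R}, g' B = g B := by
    intro g
    refine ⟨fun B => if h : B ∈ R then g ⟨B, h⟩ else 0, fun B => ?_⟩
    simp [B.2]
  have hL : ∀ (g : {x // x ∈ R} → ℝ) (g' : β → ℝ), (∀ B : {x // x ∈ R}, g' B = g B) →
      ∀ B : {x // x ∈ R}, L g B = g' B - ∑ B' ∈ R, K B B' * g' B' := by
    intro g g' h B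
    change g B - ∑ B' : {x // x ∈ R}, K B B' * g B' = _
    rw [← sum_coe_sort R, h B]
    congr 1
    refine sum_congr rfl fun B' _ => ?_
    rw [h B']
  have hinj : Function.Injective L := by
    rw [← LinearMap.ker_eq_bot, LinearMap.ker_eq_bot']
    intro g hg
    obtain ⟨g', hg'⟩ := ext g
    have h1 := compE_bound R K δ hK hR g' 0 (by
      intro B hB
      have h2 := hL g g' hg' ⟨B, hB⟩
      rw [hg] at h2
      simp only [Pi.zero_apply] at h2
      rw [← h2, abs_zero])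
    funext B
    have h3 := h1 B B.2
    rw [mul_zero] at h3
    rw [← hg' B]
    exact abs_eq_zero.1 (le_antisymm h3 (abs_nonneg _))
  have hsurj : Function.Surjective L := LinearMap.injective_iff_surjective.1 hinj
  obtain ⟨g, hg⟩ := hsurj (fun B => ε B)
  obtain ⟨g', hg'⟩ := ext g
  refine ⟨g', fun B hB => ?_⟩
  have h1 := hL g g' hg' ⟨B, hB⟩
  rw [hg] at h1
  exact h1.symm

theorem exact_comp (R : Finset β) (K : β → β → ℝ) (δ : ℝ)
    (hK : ∀ B ∈ R, ∀ B' ∈ R, |K B B'| ≤ δ) (hR : (R.card : ℝ) * δ ≤ 1 / 2)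
    (ε : β → ZMod 3 → ℝ) (hε : ∀ B ∈ R, ∀ i, |ε B i| ≤ 1) (hsum : ∀ B ∈ R, ∑ i, ε B i = 0) :
    ∃ g : β → ZMod 3 → ℝ, (∀ B ∈ R, ∀ i, |g B i| ≤ 2) ∧ (∀ B ∈ R, ∑ i, g B i = 0) ∧
      ∀ B ∈ R, ∀ i, ∑ B' ∈ R, K B B' * g B' i = g B i - ε B i := by
  choose g hg using fun i : ZMod 3 => compE_exists R K δ hK hR (fun B => ε B i)
  refine ⟨fun B i => g i B, ?_, ?_, ?_⟩
  · intro B hB i
    have h1 := compE_bound R K δ hK hR (g i) 1 (by
      intro B hB
      rw [hg i B hB]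
      exact hε B hB i) B hB
    linarith
  · intro B hB
    have h1 := compE_bound R K δ hK hR (fun B => ∑ i, g i B) 0 (by
      intro B hB
      have h2 : (∑ i, g i B) - ∑ B' ∈ R, K B B' * ∑ i, g i B' =
          ∑ i, (g i B - ∑ B' ∈ R, K B B' * g i B') := by
        rw [sum_sub_distrib]
        congr 1
        rw [sum_comm]
        refine sum_congr rfl fun B' _ => ?_
        rw [mul_sum]
      rw [h2]
      have h3 : ∑ i, (g i B - ∑ B' ∈ R, K B B' * g i B') = ∑ i, ε B i :=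
        sum_congr rfl fun i _ => hg i B hB
      rw [h3, hsum B hB, abs_zero]) B hB
    rw [mul_zero] at h1
    exact abs_eq_zero.1 (le_antisymm h1 (abs_nonneg _))
  · intro B hB i
    have h1 := hg i B hB
    simp only at h1 ⊢
    linarith

end

end Pool.Agent.LS3
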