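import Pool.Agent.Lib.MP_2c0b9b_co_LB.AbsL
import Pool.Agent.Lib.MP_2c0b9b_co_LB.CompE

/-!
# The absorption theorem with exact compensation
-/

set_option autoImplicit false

open Finset

namespace Pool.Agent.LS3

theorem lI_le_lM (t v : ℕ) : lI t v ≤ lM t v := by
  unfold lM lC
  have h1 : v.choose 0 * (7 * (t + 1) * lI t v) + 6 * 2 ^ 0 * (v + 1).choose (0 + 1) ≤
      ∑ s ∈ range (t + 1),
        (v.choose s * (7 * (t + 1) * lI t v) + 6 * 2 ^ s * (v + 1).choose (s + 1)) :=
    single_le_sum (f := fun s => v.choose s * (7 * (t + 1) * lI t v) +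
      6 * 2 ^ s * (v + 1).choose (s + 1)) (fun _ _ => Nat.zero_le _)
      (mem_range.2 (show 0 < t + 1 by omega))
  rw [Nat.choose_zero_right, one_mul] at h1
  have h2 : 1 * lI t v ≤ 7 * (t + 1) * lI t v := Nat.mul_le_mul_right _ (by omega)
  omega

theorem twelve_le (t k v : ℕ)
    (h : lN t v * lK t v ≤ lI t v * (v - 2 * 0).choose (k - 0)) :
    12 * (lK t v * lI t v) ≤ v.choose k := by
  rw [mul_zero, Nat.sub_zero, Nat.sub_zero] at h
  have h1 := lI_le_lM t v
  have h0 := lI_pos t v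
  have h2 : 12 * (lI t v * lI t v) ≤ lN t v := by
    unfold lN ln
    calc 12 * (lI t v * lI t v) ≤ 12 * (lM t v * lM t v) :=
          Nat.mul_le_mul_left _ (Nat.mul_le_mul h1 h1)
      _ = 3 * lM t v * (4 * lM t v) := by ring
      _ ≤ 3 * lM t v * (4 * lM t v + 2 * lI t v) := Nat.mul_le_mul_left _ (Nat.le_add_right _ _)
  have h3 : lI t v * (12 * (lK t v * lI t v)) ≤ lI t v * v.choose k := by
    calc lI t v * (12 * (lK t v * lI t v)) = 12 * (lI t v * lI t v) * lK t v := by ring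
      _ ≤ lN t v * lK t v := Nat.mul_le_mul_right _ h2
      _ ≤ _ := h
  exact Nat.le_of_mul_le_mul_left h3 (by omega)

/-- The absorption theorem, linear version with exact compensation. -/
theorem absorb_lin2 (t k v : ℕ) (hv : 1 ≤ v) (hk : 2 * t ≤ k) (hkv : k ≤ v)
    (hdiv : ∀ i ≤ t, 3 ∣ (v - i).choose (k - i))
    (hbig : ∀ s ≤ t, lN t v * lK t v ≤ lI t v * (v - 2 * s).choose (k - s)) :
    G (t + 1) k v := by
  classical
  obtain ⟨Y, hY1, hY2, hY3, hY4⟩ := choose_pools_l t k v hv hk hbig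
  have hN : 1 ≤ lN t v := lN_pos t v hv
  have hI1 : 1 ≤ lI t v := lI_pos t v
  have hIK : 6 * lI t v ≤ lK t v := six_lI_le t v
  have hCpos : ∀ s ≤ t, 0 < (v - 2 * s).choose (k - s) := by
    intro s hs
    have h1 : 0 < lN t v * lK t v := Nat.mul_pos hN (by omega)
    have h2 := lt_of_lt_of_le h1 (hbig s hs)
    rcases Nat.eq_zero_or_pos ((v - 2 * s).choose (k - s)) with h0 | h0
    · rw [h0, mul_zero] at h2
      exact absurd h2 (lt_irrefl 0)
    · exact h0
  set P : Finset (Finset (Fin v)) := powersetCard k univ with hP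
  set Yx : Idx3 v → Finset (Finset (Fin v)) := fun x => Y x.1 x.2.1.1 x.2.1.2 x.2.2 with hYx
  set Zx : Idx3 v → Finset (Finset (Fin v)) :=
    fun x => powersetCard x.1 (x.2.1.1 ∪ x.2.1.2) with hZx
  set J : Finset (BIdx3 v) := (gM t v).sigma (fun x => Yx x ×ˢ Zx x) with hJ
  set F : BIdx3 v → Finset (Fin v) := fun y => y.2.1 ∪ y.2.2 with hF
  set col : BIdx3 v → ZMod 3 := fun y => y.1.2.2 + parB y.1.2.1.2 y.2.2 with hcol
  have hJmem : ∀ y : BIdx3 v, y ∈ J → y.1 ∈ gM t v ∧
      y.2.1 ∈ Y y.1.1 y.1.2.1.1 y.1.2.1.2 y.1.2.2 ∧ y.2.2 ∈ Zx y.1 := by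
    intro y hy
    rw [hJ, mem_sigma, mem_product] at hy
    exact ⟨hy.1, hy.2.1, hy.2.2⟩
  have hxS : ∀ x ∈ gM t v, ∀ S ∈ Y x.1 x.2.1.1 x.2.1.2 x.2.2, S.card = k - x.1 ∧
      Disjoint S (x.2.1.1 ∪ x.2.1.2) := by
    intro x hx S hS
    have hx' := mem_gM.1 hx
    have hx2 := mem_sides.1 hx'.2
    exact hY1 _ hx'.1 _ _ hx2.1 hx2.2.1 hx2.2.2 _ S hS
  have hFP : ∀ y ∈ J, F y ∈ P := by
    intro y hy
    obtain ⟨hx, hS, hU⟩ := hJmem y hy
    obtain ⟨h1, h2⟩ := hxS _ hx _ hS
    have hU' := mem_powersetCard.1 hU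
    rw [hP, mem_powersetCard]
    refine ⟨subset_univ _, ?_⟩
    simp only [hF]
    rw [card_union_of_disjoint (disjoint_of_subset_right hU'.1 h2), h1, hU'.2]
    have := (mem_gM.1 hx).1
    omega
  have hFinj : Set.InjOn F J := by
    rintro ⟨x, q⟩ hy ⟨x', q'⟩ hy' h
    obtain ⟨hx, hS, hU⟩ := hJmem _ (mem_coe.1 hy)
    obtain ⟨hx', hS', hU'⟩ := hJmem _ (mem_coe.1 hy')
    by_cases hxx : x = x'
    · subst hxx
      obtain ⟨-, h2⟩ := hxS _ hx _ hS
      obtain ⟨-, h2'⟩ := hxS _ hx _ hS'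
      obtain ⟨q1, q2⟩ := q
      obtain ⟨q1', q2'⟩ := q'
      simp only at hS hS' hU hU' h2 h2'
      have hU1 := (mem_powersetCard.1 hU).1
      have hU1' := (mem_powersetCard.1 hU').1
      have h3 : q1 ∪ q2 = q1' ∪ q2' := h
      have h4 : q1 = q1' := by
        ext y
        constructor
        · intro hy1
          have h5 : y ∈ q1' ∪ q2' := h3 ▸ mem_union_left _ hy1
          rcases mem_union.1 h5 with h6 | h6
          · exact h6
          · exact absurd (hU1' h6) (disjoint_left.1 h2 hy1)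
        · intro hy1
          have h5 : y ∈ q1 ∪ q2 := h3.symm ▸ mem_union_left _ hy1
          rcases mem_union.1 h5 with h6 | h6
          · exact h6
          · exact absurd (hU1 h6) (disjoint_left.1 h2' hy1)
      have h7 : q2 = q2' := by
        ext y
        constructor
        · intro hy1
          have h5 : y ∈ q1' ∪ q2' := h3 ▸ mem_union_right _ hy1
          rcases mem_union.1 h5 with h6 | h6
          · exact absurd (hU1 hy1) (disjoint_left.1 h2' h6)
          · exact h6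
        · intro hy1
          have h5 : y ∈ q1 ∪ q2 := h3.symm ▸ mem_union_right _ hy1
          rcases mem_union.1 h5 with h6 | h6
          · exact absurd (hU1' hy1) (disjoint_left.1 h2 h6)
          · exact h6
      rw [h4, h7]
    · exact absurd h (hY3 x hx x' hx' hxx _ hS _ hS' _ hU _ hU')
  have hJcard : J.card ≤ lK t v := by
    refine le_trans ?_ hY4
    rw [hJ, card_sigma]
    refine sum_le_sum fun x hx => ?_
    rw [card_product]
    simp only [hYx, hZx]
    have h1 := mem_sides.1 (mem_gM.1 hx).2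
    rw [card_powersetCard, card_union_of_disjoint h1.2.2, h1.1, h1.2.1, ← two_mul]
  -- fractional compensation
  set IT : Finset (Finset (Fin v)) := univ.filter (fun T => T.card ≤ t) with hIT
  have hITc : IT.card = lI t v := small_card t v
  obtain ⟨Kf, hKf1, hKf2⟩ := frac_kernel t k v hkv
  have hC : 0 < v.choose k := Nat.choose_pos hkv
  have hCR : (0 : ℝ) < (v.choose k : ℝ) := by exact_mod_cast hC
  have hIK12 : 12 * (lK t v * lI t v) ≤ v.choose k := twelve_le t k v (hbig 0 (Nat.zero_le t))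
  have hIKR : 12 * ((lK t v : ℝ) * (lI t v : ℝ)) ≤ (v.choose k : ℝ) := by exact_mod_cast hIK12
  have hI0 : (0 : ℝ) ≤ (lI t v : ℝ) := Nat.cast_nonneg _
  have hK0 : (0 : ℝ) ≤ (lK t v : ℝ) := Nat.cast_nonneg _
  set δ : ℝ := (lI t v : ℝ) / (v.choose k : ℝ) with hδ
  have hδ0 : 0 ≤ δ := by
    rw [hδ]
    positivity
  have hJδ : (J.card : ℝ) * δ ≤ 1 / 12 := by
    have h1 : (J.card : ℝ) ≤ (lK t v : ℝ) := by exact_mod_cast hJcard
    refine (mul_le_mul_of_nonneg_right h1 hδ0).trans ?_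
    rw [hδ, ← mul_div_assoc, div_le_iff₀ hCR]
    linarith
  have hKb : ∀ B ∈ P, ∀ y ∈ J, |Kf B (F y)| ≤ δ := by
    intro B hB y hy
    have h2 := hKf2 B hB (F y) (hFP y hy)
    rw [← hIT, hITc] at h2
    exact h2
  set ε : BIdx3 v → ZMod 3 → ℝ := fun y i => (if col y = i then 1 else 0) - 1 / 3 with hε
  obtain ⟨g, hg1, hg2, hg3⟩ := exact_comp J (fun y y' => Kf (F y) (F y')) δ
    (fun y hy y' hy' => hKb (F y) (hFP y hy) y' hy') (by linarith) ε
    (by
      intro y _ i
      simp only [hε]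
      split_ifs
      · rw [abs_le]
        constructor <;> norm_num
      · rw [abs_le]
        constructor <;> norm_num)
    (by
      intro y _
      simp only [hε]
      rw [sum_sub_distrib]
      have h1 : ∑ i : ZMod 3, (if col y = i then (1 : ℝ) else 0) = 1 := by
        rw [sum_ite_eq]
        simp
      have h2 : ∑ i : ZMod 3, (1 / 3 : ℝ) = 1 := by
        rw [sum_const, card_univ, ZMod.card]
        norm_num
      rw [h1, h2]
      ring)
  set w : Finset (Fin v) → ZMod 3 → ℝ := fun B i => ∑ y ∈ J, Kf B (F y) * g y i with hw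
  have hwsum : ∀ B, ∑ i, w B i = 0 := by
    intro B
    simp only [hw]
    rw [sum_comm]
    refine sum_eq_zero fun y hy => ?_
    rw [← mul_sum, hg2 y hy, mul_zero]
  have hwb : ∀ B ∈ P, ∀ i, |w B i| ≤ 1 / 3 := by
    intro B hB i
    simp only [hw]
    refine (abs_sum_le_sum_abs _ _).trans ?_
    have h1 : ∀ y ∈ J, |Kf B (F y) * g y i| ≤ δ * 2 := by
      intro y hy
      rw [abs_mul]
      exact mul_le_mul (hKb B hB y hy) (hg1 y hy i) (abs_nonneg _) hδ0
    refine (sum_le_sum h1).trans ?_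
    rw [sum_const, nsmul_eq_mul]
    linarith
  have hwT : ∀ T : Finset (Fin v), T.card ≤ t → ∀ i,
      ∑ B ∈ P.filter (fun B => T ⊆ B), w B i = ∑ y ∈ J.filter (fun y => T ⊆ F y), g y i := by
    intro T hT i
    simp only [hw]
    rw [sum_comm, sum_filter]
    refine sum_congr rfl fun y hy => ?_
    rw [← sum_mul, hKf1 (F y) (hFP y hy) T hT]
    split_ifs <;> simp
  have hεT : ∀ T : Finset (Fin v), ∀ i, ∑ y ∈ J.filter (fun y => T ⊆ F y), ε y i =
      ((J.filter (fun y => T ⊆ F y ∧ col y = i)).card : ℝ) -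
        ((J.filter (fun y => T ⊆ F y)).card : ℝ) / 3 := by
    intro T i
    simp only [hε]
    rw [sum_sub_distrib, sum_boole, filter_filter, sum_const, nsmul_eq_mul]
    ring
  -- rounding
  set S₀ : Finset (Finset (Fin v)) := P \ J.image F with hS₀
  have hS₀P : S₀ ⊆ P := sdiff_subset
  obtain ⟨χ₁, hχ₁⟩ := rounding_gen S₀ IT (fun B T => if T ⊆ B then (1 : ℝ) else 0) (by
    intro B _ T _
    split_ifs <;> simp) (fun B i => 1 / 3 - w B i)
    (by
      intro B hB i
      have h1 := (abs_le.1 (hwb B (hS₀P hB) i)).2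
      linarith)
    (by
      intro B _
      rw [sum_sub_distrib, hwsum B, sum_const, card_univ, ZMod.card]
      norm_num)
  -- base colouring
  obtain ⟨χ₀, hχ₀⟩ := ab_split P J F hFP hFinj χ₁ col
  have hPT : ∀ T : Finset (Fin v), T.card ≤ t →
      (P.filter (fun B => T ⊆ B)).card = (v - T.card).choose (k - T.card) := by
    intro T hT
    rw [hP, card_filter_powersetCard_subset T univ k (subset_univ _) (by omega), card_univ,
      Fintype.card_fin]
  set d : ZMod 3 → Finset (Fin v) → ℤ := fun i T =>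
    (((P.filter (fun B => χ₀ B = i)).filter (fun B => T ⊆ B)).card : ℤ) -
      (((v - T.card).choose (k - T.card) / 3 : ℕ) : ℤ) with hd
  have hrel : ∀ i, Rel t k (d i) := by
    intro i
    apply ab_rel_sub
    · apply ab_rel_count
      intro B hB
      exact (mem_powersetCard.1 (mem_filter.1 hB).1).2
    · exact ab_rel_tau t k v (Fintype.card_fin v) (by omega) hdiv
  have hff : ∀ (i : ZMod 3) (T : Finset (Fin v)),
      (P.filter (fun B => χ₀ B = i)).filter (fun B => T ⊆ B) =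
        P.filter (fun B => T ⊆ B ∧ χ₀ B = i) := by
    intro i T
    rw [filter_filter]
    apply filter_congr
    intro B _
    exact and_comm
  have hfib : ∀ (T : Finset (Fin v)),
      ∑ i, (P.filter (fun B => T ⊆ B ∧ χ₀ B = i)).card = (P.filter (fun B => T ⊆ B)).card := by
    intro T
    rw [card_eq_sum_card_fiberwise (f := χ₀) (t := univ) (fun _ _ => mem_coe.2 (mem_univ _))]
    refine sum_congr rfl fun i _ => ?_
    rw [filter_filter]
  have hsum : ∀ T : Finset (Fin v), T.card ≤ t → ∑ i, d i T = 0 := by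
    intro T hT
    simp only [hd, sum_sub_distrib, hff]
    rw [← Nat.cast_sum, hfib T, hPT T hT, sum_const, card_univ, ZMod.card, nsmul_eq_mul]
    have := Nat.mul_div_cancel' (hdiv T.card hT)
    omega
  have hbd : ∀ i, ∀ T : Finset (Fin v), T.card ≤ t → |(d i T : ℝ)| ≤ 7 * (lI t v : ℕ) := by
    intro i T hT
    have hGs : ∑ i : ZMod 3, (J.filter (fun y => T ⊆ F y ∧ col y = i)).card =
        (J.filter (fun y => T ⊆ F y)).card := by
      rw [card_eq_sum_card_fiberwise (f := col)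
        (t := univ) (fun _ _ => mem_coe.2 (mem_univ _))]
      refine sum_congr rfl fun i _ => ?_
      rw [filter_filter]
    have hSs : ∑ i : ZMod 3, (S₀.filter (fun B => T ⊆ B ∧ χ₁ B = i)).card =
        (S₀.filter (fun B => T ⊆ B)).card := by
      rw [card_eq_sum_card_fiberwise (f := χ₁) (t := univ) (fun _ _ => mem_coe.2 (mem_univ _))]
      refine sum_congr rfl fun i _ => ?_
      rw [filter_filter]
    have hNT : (P.filter (fun B => T ⊆ B)).card =
        (S₀.filter (fun B => T ⊆ B)).card + (J.filter (fun y => T ⊆ F y)).card := by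
      rw [← hfib T, ← hSs, ← hGs, ← sum_add_distrib]
      exact sum_congr rfl fun i _ => hχ₀ _ i
    have h1 := hχ₀ (fun B => T ⊆ B) i
    rw [← hS₀] at h1
    have h2 := hχ₁ T (mem_filter.2 ⟨mem_univ _, hT⟩) i
    rw [sum_boole, filter_filter] at h2
    have h3 : (S₀.filter (fun B => χ₁ B = i ∧ T ⊆ B)) = S₀.filter (fun B => T ⊆ B ∧ χ₁ B = i) := by
      apply filter_congr
      intro B _
      exact and_comm
    rw [h3, hITc] at h2
    -- the fractional sum
    have h4 : ∑ B ∈ S₀, (1 / 3 - w B i) * (if T ⊆ B then (1 : ℝ) else 0) =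
        ((S₀.filter (fun B => T ⊆ B)).card : ℝ) / 3 -
          ∑ B ∈ S₀.filter (fun B => T ⊆ B), w B i := by
      have h5 : ∀ B ∈ S₀, (1 / 3 - w B i) * (if T ⊆ B then (1 : ℝ) else 0) =
          if T ⊆ B then 1 / 3 - w B i else 0 := by
        intro B _
        split_ifs <;> ring
      rw [sum_congr rfl h5, ← sum_filter, sum_sub_distrib, sum_const, nsmul_eq_mul]
      ring
    have h6 : ∑ B ∈ P.filter (fun B => T ⊆ B), w B i =
        ∑ B ∈ S₀.filter (fun B => T ⊆ B), w B i +
          ∑ B ∈ (J.image F).filter (fun B => T ⊆ B), w B i := by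
      have hsub : J.image F ⊆ P := by
        intro B hB
        obtain ⟨x, hx, rfl⟩ := mem_image.1 hB
        exact hFP x hx
      have e0 : P.filter (fun B => T ⊆ B) =
          S₀.filter (fun B => T ⊆ B) ∪ (J.image F).filter (fun B => T ⊆ B) := by
        rw [← filter_union, hS₀, sdiff_union_of_subset hsub]
      rw [e0, sum_union (disjoint_filter_filter sdiff_disjoint)]
    have h7 : ∑ B ∈ (J.image F).filter (fun B => T ⊆ B), w B i =
        ∑ y ∈ J.filter (fun y => T ⊆ F y), g y i -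
          ∑ y ∈ J.filter (fun y => T ⊆ F y), ε y i := by
      rw [filter_image, sum_image (fun x hx y hy hxy => hFinj
        (mem_coe.2 (mem_filter.1 hx).1) (mem_coe.2 (mem_filter.1 hy).1) hxy), ← sum_sub_distrib]
      refine sum_congr rfl fun y hy => ?_
      exact hg3 y (mem_filter.1 hy).1 i
    have h10 := hwT T hT i
    have h15 := hεT T i
    have h11 : (d i T : ℝ) = ((S₀.filter (fun B => T ⊆ B ∧ χ₁ B = i)).card : ℝ) +
        ((J.filter (fun y => T ⊆ F y ∧ col y = i)).card : ℝ) -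
        ((S₀.filter (fun B => T ⊆ B)).card + (J.filter (fun y => T ⊆ F y)).card : ℝ) / 3 := by
      have h12 : 3 * d i T = 3 * ((S₀.filter (fun B => T ⊆ B ∧ χ₁ B = i)).card : ℤ) +
          3 * ((J.filter (fun y => T ⊆ F y ∧ col y = i)).card : ℤ) -
          (((S₀.filter (fun B => T ⊆ B)).card : ℤ) + (J.filter (fun y => T ⊆ F y)).card) := by
        simp only [hd, hff]
        have h5 := Nat.mul_div_cancel' (hdiv T.card hT)
        have h6 := hPT T hT
        omega
      have h13 : 3 * (d i T : ℝ) = 3 * ((S₀.filter (fun B => T ⊆ B ∧ χ₁ B = i)).card : ℝ) +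
          3 * ((J.filter (fun y => T ⊆ F y ∧ col y = i)).card : ℝ) -
          (((S₀.filter (fun B => T ⊆ B)).card : ℝ) + (J.filter (fun y => T ⊆ F y)).card) := by
        exact_mod_cast h12
      linarith
    have h14 : (d i T : ℝ) = (((S₀.filter (fun B => T ⊆ B ∧ χ₁ B = i)).card : ℝ) -
        ∑ B ∈ S₀, (1 / 3 - w B i) * (if T ⊆ B then (1 : ℝ) else 0)) := by
      rw [h4, h11]
      linarith
    rw [h14]
    refine h2.trans ?_
    linarith
  obtain ⟨f, hf1, hf2, hf4, hf3⟩ := correct_lin t k v hk hCpos d hsum hrel hbd Y hY1 hY2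
  -- the final colouring
  set Wf : (x : Idx3 v) → Finset (Fin v) →
      Finset ((Fin x.1 → Fin v) × (Fin x.1 → Fin v)) := fun x S =>
    (univ : Finset ((Fin x.1 → Fin v) × (Fin x.1 → Fin v))).filter
        (fun p => (sideA p = x.2.1.1 ∧ sideB p = x.2.1.2) ∧ S ∈ f x.1 p x.2.2) with hWf
  have hWf1 : ∀ x S, ∀ p ∈ Wf x S, Oct p ∧ sideA p = x.2.1.1 ∧ sideB p = x.2.1.2 := by
    intro x S p hp
    have h1 := (mem_filter.1 hp).2
    refine ⟨?_, h1.1.1, h1.1.2⟩
    by_contra h2
    have h3 := h1.2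
    rw [hf2 _ p x.2.2 h2] at h3
    exact absurd h3 (notMem_empty _)
  have hWf2 : ∀ x S, (Wf x S).card ≤ 1 := by
    intro x S
    rw [card_le_one]
    intro p hp p' hp'
    have h1 := (mem_filter.1 hp).2
    have h1' := (mem_filter.1 hp').2
    by_contra hne
    have h2 := hf4 x.1 p p' x.2.2 hne (h1.1.1.trans h1'.1.1.symm) (h1.1.2.trans h1'.1.2.symm)
    exact disjoint_left.1 h2 h1.2 h1'.2
  set col' : BIdx3 v → ZMod 3 := fun y =>
    if ∃ p ∈ Wf y.1 y.2.1, ∃ J, tr p J = y.2.2 then y.1.2.2 + 1 - parB y.1.2.1.2 y.2.2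
      else y.1.2.2 + parB y.1.2.1.2 y.2.2 with hcol'
  obtain ⟨χ, hχ⟩ := ab_split P J F hFP hFinj χ₁ col'
  have hmain : ∀ (T : Finset (Fin v)), T.card ≤ t → ∀ i : ZMod 3,
      3 * (P.filter (fun B => T ⊆ B ∧ χ B = i)).card = (P.filter (fun B => T ⊆ B)).card := by
    intro T hT i
    have h1 := hχ (fun B => T ⊆ B) i
    have h2 := hχ₀ (fun B => T ⊆ B) i
    have h3 : ((J.filter (fun y => T ⊆ F y ∧ col' y = i)).card : ℤ) =
        (J.filter (fun y => T ⊆ F y ∧ col y = i)).card +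
        ∑ s ∈ range (t + 1), chg2 (fun p S T => effS p S T) (f s) i T := by
      rw [← sum_chg3 t v Y f hf1 hf2 i T, card_filter, card_filter, Nat.cast_sum, Nat.cast_sum,
        hJ, sum_blocks3, sum_blocks3, ← sum_add_distrib]
      refine sum_congr rfl fun x hx => ?_
      rw [← sum_add_distrib]
      refine sum_congr rfl fun S hS => ?_
      have h4 := star_flip x.2.1.1 x.2.1.2 S T x.2.2 i (Wf x S) (hWf1 x S) (hWf2 x S)
      have h5 : ∑ U ∈ Zx x, (((if T ⊆ F ⟨x, (S, U)⟩ ∧ col' ⟨x, (S, U)⟩ = i then 1 else 0 : ℕ)) :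
          ℤ) = ∑ U ∈ powersetCard x.1 (x.2.1.1 ∪ x.2.1.2), if T ⊆ S ∪ U ∧
          (if ∃ p ∈ Wf x S, ∃ J, tr p J = U then x.2.2 + 1 - parB x.2.1.2 U
            else x.2.2 + parB x.2.1.2 U) = i then (1 : ℤ) else 0 := by
        refine sum_congr rfl fun U _ => ?_
        rw [Nat.cast_ite, Nat.cast_one, Nat.cast_zero]
      have h6 : ∑ U ∈ Zx x, (((if T ⊆ F ⟨x, (S, U)⟩ ∧ col ⟨x, (S, U)⟩ = i then 1 else 0 : ℕ)) :
          ℤ) = ∑ U ∈ powersetCard x.1 (x.2.1.1 ∪ x.2.1.2), if T ⊆ S ∪ U ∧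
            x.2.2 + parB x.2.1.2 U = i then (1 : ℤ) else 0 := by
        refine sum_congr rfl fun U _ => ?_
        rw [Nat.cast_ite, Nat.cast_one, Nat.cast_zero]
      rw [h5, h6]
      convert h4 using 3
    have h4 := hf3 i T hT
    have h5 := Nat.mul_div_cancel' (hdiv T.card hT)
    have h6 := hPT T hT
    simp only [hd, hff] at h4
    omega
  have hgood : Good (t + 1) P := ⟨χ, fun T hT i => hmain T (by omega) i⟩
  have := (good_powersetCard_iff (univ : Finset (Fin v))).1 hgood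
  rwa [card_univ, Fintype.card_fin] at this

end Pool.Agent.LS3
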