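import Pool.Agent.Lib.MP_2c0b9b_co_NL.Level2

/-!
# Correction of one level, for a given decomposition into octahedra
-/

set_option autoImplicit false

open Finset

namespace Pool.Agent.LS3

private theorem levelC_sum3 (F : ZMod 3 → ℤ) : ∑ a, F a = F 0 + F 1 + F 2 :=
  Fin.sum_univ_three F

private theorem levelC_cases3 : ∀ i : ZMod 3, i = 0 ∨ i = 1 ∨ i = 2 := by decide

private theorem levelC_sum_sg (a : ZMod 3) : ∑ i, sg i a = 0 := by
  unfold sg
  rw [Finset.sum_sub_distrib]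
  simp

private theorem levelC_abs_sg (i a : ZMod 3) : |sg i a| ≤ 1 := by
  unfold sg
  split_ifs <;> simp

private theorem levelC_rel_mul {v t k : ℕ} (c : ℤ) {d : Finset (Fin v) → ℤ} (h : Rel t k d) :
    Rel t k (fun T => c * d T) := by
  intro s hs R hR
  rw [← Finset.mul_sum, h s hs R hR]
  ring

private theorem levelC_rel_sum {v t k : ℕ} {ι : Type*} (S : Finset ι)
    {f : ι → Finset (Fin v) → ℤ}
    (h : ∀ i ∈ S, Rel t k (f i)) : Rel t k (fun T => ∑ i ∈ S, f i T) := by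
  intro s hs R hR
  rw [Finset.sum_comm, Finset.mul_sum]
  exact Finset.sum_congr rfl fun i hi => h i hi s hs R hR

/-- the numbers of moves -/
private theorem levelC_weights (s v t M : ℕ) (hs : s ≤ t)
    (d : ZMod 3 → Finset (Fin v) → ℤ)
    (hsum : ∀ T : Finset (Fin v), T.card ≤ t → ∑ i, d i T = 0)
    (Q : Finset ((Fin s → Fin v) × (Fin s → Fin v)))
    (c0 c1 : (Fin s → Fin v) × (Fin s → Fin v) → ℤ)
    (h01 : ∀ p, c0 p ≠ 0 → p ∈ Q) (h11 : ∀ p, c1 p ≠ 0 → p ∈ Q)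
    (h02 : ∀ U : Finset (Fin v), U.card = s → d 0 U = ∑ p, c0 p * pod p U)
    (h12 : ∀ U : Finset (Fin v), U.card = s → d 1 U = ∑ p, c1 p * pod p U)
    (hM : 5 * (∑ p, |c0 p|) + 5 * (∑ p, |c1 p|) ≤ M) :
    ∃ f : (Fin s → Fin v) × (Fin s → Fin v) → ZMod 3 → ℕ,
      (∀ p a, p ∉ Q → f p a = 0) ∧ (∑ p, ∑ a, f p a ≤ M) ∧
      ∀ i, ∀ T : Finset (Fin v), T.card = s →
        ∑ p, (∑ a, (f p a : ℤ) * sg i a) * pod p T = - d i T := by
  -- numbers of gadgets
  let W : (Fin s → Fin v) × (Fin s → Fin v) → ZMod 3 → ℤ := fun p a =>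
    if a = 2 then |c0 p| + |c1 p| else if a = 0 then |c0 p| + |c1 p| + c0 p
    else |c0 p| + |c1 p| + c0 p + c1 p
  have W0 : ∀ p, W p 0 = |c0 p| + |c1 p| + c0 p := fun p => by
    simp only [W]
    rw [if_neg (by decide)]
    exact if_pos trivial
  have W1 : ∀ p, W p 1 = |c0 p| + |c1 p| + c0 p + c1 p := fun p => by
    simp only [W]
    rw [if_neg (by decide), if_neg (by decide)]
  have W2 : ∀ p, W p 2 = |c0 p| + |c1 p| := fun p => by
    simp only [W]
    exact if_pos trivial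
  have hWnn : ∀ p a, 0 ≤ W p a := by
    intro p a
    have h1 := neg_abs_le (c0 p)
    have h2 := neg_abs_le (c1 p)
    have h3 := abs_nonneg (c0 p)
    have h4 := abs_nonneg (c1 p)
    rcases levelC_cases3 a with rfl | rfl | rfl
    · rw [W0]; omega
    · rw [W1]; omega
    · rw [W2]; omega
  have hWoct : ∀ p a, p ∉ Q → W p a = 0 := by
    intro p a hp
    have h1 : c0 p = 0 := by
      by_contra h
      exact hp (h01 p h)
    have h2 : c1 p = 0 := by
      by_contra h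
      exact hp (h11 p h)
    rcases levelC_cases3 a with rfl | rfl | rfl
    · rw [W0, h1, h2]; simp
    · rw [W1, h1, h2]; simp
    · rw [W2, h1, h2]; simp
  let f : (Fin s → Fin v) × (Fin s → Fin v) → ZMod 3 → ℕ := fun p a => (W p a).toNat
  have hf : ∀ p a, (f p a : ℤ) = W p a := fun p a => Int.toNat_of_nonneg (hWnn p a)
  refine ⟨f, ?_, ?_, ?_⟩
  · intro p a hp
    have := hf p a
    rw [hWoct p a hp] at this
    exact_mod_cast this
  · have h2 : ∑ p, ∑ a, (f p a : ℤ) ≤ 5 * (∑ p, |c0 p|) + 5 * ∑ p, |c1 p| := by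
      rw [Finset.mul_sum, Finset.mul_sum, ← Finset.sum_add_distrib]
      refine Finset.sum_le_sum fun p _ => ?_
      rw [levelC_sum3, hf, hf, hf, W0, W1, W2]
      have h1 := le_abs_self (c0 p)
      have h2 := le_abs_self (c1 p)
      have h3 := abs_nonneg (c0 p)
      have h4 := abs_nonneg (c1 p)
      omega
    have h3 : ∑ p, ∑ a, (f p a : ℤ) ≤ M := h2.trans hM
    exact_mod_cast h3
  · intro i T h1
    have e0 := h02 T h1
    have e1 := h12 T h1
    have e2 := hsum T (by omega)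
    rw [levelC_sum3] at e2
    have s00 : sg 0 0 = -1 := by decide
    have s01 : sg 0 1 = 0 := by decide
    have s02 : sg 0 2 = 1 := by decide
    have s10 : sg 1 0 = 1 := by decide
    have s11 : sg 1 1 = -1 := by decide
    have s12 : sg 1 2 = 0 := by decide
    have s20 : sg 2 0 = 0 := by decide
    have s21 : sg 2 1 = 1 := by decide
    have s22 : sg 2 2 = -1 := by decide
    rcases levelC_cases3 i with rfl | rfl | rfl
    · have h2 : ∀ p, (∑ a, (f p a : ℤ) * sg 0 a) * pod p T = -(c0 p * pod p T) := by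
        intro p
        rw [levelC_sum3, hf, hf, hf, W0, W1, W2, s00, s01, s02]
        ring
      rw [Finset.sum_congr rfl fun p _ => h2 p, Finset.sum_neg_distrib, ← e0]
    · have h2 : ∀ p, (∑ a, (f p a : ℤ) * sg 1 a) * pod p T = -(c1 p * pod p T) := by
        intro p
        rw [levelC_sum3, hf, hf, hf, W0, W1, W2, s10, s11, s12]
        ring
      rw [Finset.sum_congr rfl fun p _ => h2 p, Finset.sum_neg_distrib, ← e1]
    · have h2 : ∀ p, (∑ a, (f p a : ℤ) * sg 2 a) * pod p T =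
          c0 p * pod p T + c1 p * pod p T := by
        intro p
        rw [levelC_sum3, hf, hf, hf, W0, W1, W2, s20, s21, s22]
        ring
      rw [Finset.sum_congr rfl fun p _ => h2 p, Finset.sum_add_distrib, ← e0, ← e1]
      linarith

/-- one term of the comparison -/
private theorem levelC_term (f M I n y : ℕ) (σ S κσ : ℝ) (hσ : |σ| ≤ 1) (hκ : |κσ| ≤ 1)
    (hf : f ≤ M) (hS : |S - n * κσ| ≤ 2 * I) (hy : |(y : ℝ) - n| ≤ 2 * I)
    (hn : 4 * M + 2 * I ≤ n) :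
    |(f / y : ℝ) * (σ * S) - σ * f * κσ| * M ≤ f * I := by
  have hyr : (4 * M : ℝ) ≤ y := by
    have h1 : (4 * M + 2 * I : ℝ) ≤ n := by exact_mod_cast hn
    have h2 := (abs_le.1 hy).1
    linarith
  have hM0 : (0 : ℝ) ≤ M := Nat.cast_nonneg M
  have hf0 : (0 : ℝ) ≤ f := Nat.cast_nonneg f
  have hI0 : (0 : ℝ) ≤ I := Nat.cast_nonneg I
  rcases Nat.eq_zero_or_pos M with h0 | h0
  · have h1 : f = 0 := by omega
    subst h1
    simp
  · have hMp : (1 : ℝ) ≤ M := by exact_mod_cast h0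
    have hyp : (0 : ℝ) < y := by linarith
    have e1 : (f / y : ℝ) * (σ * S) - σ * f * κσ = σ * (f / y) * (S - y * κσ) := by
      field_simp
    have e2 : |S - y * κσ| ≤ 4 * I := by
      have e3 : S - y * κσ = (S - n * κσ) - (y - n) * κσ := by ring
      rw [e3]
      refine (abs_sub _ _).trans ?_
      have e4 : |((y : ℝ) - n) * κσ| ≤ 2 * I * 1 := by
        rw [abs_mul]
        exact mul_le_mul hy hκ (abs_nonneg _) (by positivity)
      linarith
    rw [e1, abs_mul, abs_mul, abs_of_nonneg (div_nonneg hf0 hyp.le)]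
    have e5 : |σ| * (f / y : ℝ) * |S - y * κσ| * M ≤ 1 * (f / y : ℝ) * (4 * I) * M := by
      have hfy : (0 : ℝ) ≤ f / y := div_nonneg hf0 hyp.le
      refine mul_le_mul_of_nonneg_right ?_ hM0
      exact mul_le_mul (mul_le_mul_of_nonneg_right hσ hfy) e2 (abs_nonneg _) (by positivity)
    refine e5.trans ?_
    have e6 : 1 * (f / y : ℝ) * (4 * I) * M = f * I * (4 * M / y) := by
      field_simp
    rw [e6]
    have e7 : (4 * M / y : ℝ) ≤ 1 := (div_le_one hyp).2 hyr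
    exact mul_le_of_le_one_right (mul_nonneg hf0 hI0) e7

/-- the small sets together with a colour -/
private theorem levelC_card_I (t v I : ℕ)
    (hI : ((univ : Finset (Finset (Fin v))).filter (fun T => T.card ≤ t)).card ≤ I) :
    2 * ((((univ : Finset (ZMod 3)) ×ˢ
      ((univ : Finset (Finset (Fin v))).filter (fun T => T.card ≤ t))).card : ℕ) : ℝ) ≤
      6 * I := by
  have h2 : ((univ : Finset (ZMod 3)) ×ˢ
      ((univ : Finset (Finset (Fin v))).filter (fun T => T.card ≤ t))).card ≤ 3 * I := by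
    rw [card_product]
    have h3 : (univ : Finset (ZMod 3)).card = 3 := rfl
    rw [h3]
    exact Nat.mul_le_mul_left 3 hI
  have h3 : ((((univ : Finset (ZMod 3)) ×ˢ
      ((univ : Finset (Finset (Fin v))).filter (fun T => T.card ≤ t))).card : ℕ) : ℝ) ≤
      3 * I := by exact_mod_cast h2
  linarith

/-- rounding -/
private theorem levelC_round {γ : Type*} [DecidableEq γ] (t v s I : ℕ)
    (hI : ((univ : Finset (Finset (Fin v))).filter (fun T => T.card ≤ t)).card ≤ I)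
    (Q : Finset ((Fin s → Fin v) × (Fin s → Fin v)))
    (f : (Fin s → Fin v) × (Fin s → Fin v) → ZMod 3 → ℕ)
    (Y : (Fin s → Fin v) × (Fin s → Fin v) → ZMod 3 → Finset γ)
    (hf0 : ∀ p a, p ∉ Q → f p a = 0)
    (hfY : ∀ p ∈ Q, ∀ a, f p a ≤ (Y p a).card)
    (e : (Fin s → Fin v) × (Fin s → Fin v) → γ → Finset (Fin v) → ℤ)
    (he2 : ∀ p ∈ Q, ∀ a, ∀ g ∈ Y p a, ∀ T, |e p g T| ≤ 1) :
    ∃ F : (Fin s → Fin v) × (Fin s → Fin v) → ZMod 3 → Finset γ,
      (∀ p a, F p a ⊆ Y p a) ∧ (∀ p a, p ∉ Q → F p a = ∅) ∧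
      (∀ p a, (F p a).card = f p a) ∧
      ∀ i, ∀ T : Finset (Fin v), T.card ≤ t →
        |(chg2 e F i T : ℝ) - ∑ p, ∑ a, ((f p a : ℝ) / (Y p a).card) *
          ((sg i a : ℝ) * ∑ g ∈ Y p a, (e p g T : ℝ))| ≤ 6 * I := by
  classical
  obtain ⟨S, hS⟩ : ∃ S : Finset (Σ _ : ((Fin s → Fin v) × (Fin s → Fin v)) × ZMod 3, γ),
      S = (univ.filter (fun q : ((Fin s → Fin v) × (Fin s → Fin v)) × ZMod 3 =>
        q.1 ∈ Q)).sigma (fun q => Y q.1 q.2) := ⟨_, rfl⟩
  have hSmem : ∀ B, B ∈ S ↔ B.1.1 ∈ Q ∧ B.2 ∈ Y B.1.1 B.1.2 := by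
    intro B
    rw [hS, mem_sigma, mem_filter]
    simp
  obtain ⟨Z, hZS, hZ1, hZ2⟩ := rounding_rows S (fun B => B.1)
    ((univ : Finset (ZMod 3)) ×ˢ
      ((univ : Finset (Finset (Fin v))).filter (fun T => T.card ≤ t)))
    (fun B q => (sg q.1 B.1.2 : ℝ) * (e B.1.1 B.2 q.2 : ℝ))
    (by
      intro B hB q _
      obtain ⟨h1, h2⟩ := (hSmem B).1 hB
      have h3 : |(sg q.1 B.1.2 : ℝ)| ≤ 1 := by
        exact_mod_cast levelC_abs_sg q.1 B.1.2
      have h4 : |(e B.1.1 B.2 q.2 : ℝ)| ≤ 1 := by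
        exact_mod_cast he2 B.1.1 h1 B.1.2 B.2 h2 q.2
      rw [abs_mul]
      exact mul_le_one₀ h3 (abs_nonneg _) h4)
    (fun B => (f B.1.1 B.1.2 : ℝ) / (Y B.1.1 B.1.2).card)
    (by
      intro B hB
      obtain ⟨h1, h2⟩ := (hSmem B).1 hB
      refine ⟨by positivity, div_le_one_of_le₀ ?_ (by positivity)⟩
      exact_mod_cast hfY B.1.1 h1 B.1.2)
    (fun q => f q.1 q.2)
    (by
      intro q
      rw [Finset.sum_filter, hS, Finset.sum_sigma]
      by_cases hq : q.1 ∈ Q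
      · rw [Finset.sum_eq_single q]
        · have h1 : ∀ g ∈ Y q.1 q.2, (if (⟨q, g⟩ : Σ _ : ((Fin s → Fin v) ×
              (Fin s → Fin v)) × ZMod 3, γ).1 = q then
              (f q.1 q.2 : ℝ) / (Y q.1 q.2).card else 0) =
              (f q.1 q.2 : ℝ) / (Y q.1 q.2).card := fun g _ => if_pos rfl
          rw [Finset.sum_congr rfl h1, Finset.sum_const, nsmul_eq_mul]
          rcases Nat.eq_zero_or_pos (Y q.1 q.2).card with h2 | h2
          · have h3 := hfY q.1 hq q.2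
            have h4 : f q.1 q.2 = 0 := by omega
            rw [h2, h4]
            simp
          · have h3 : ((Y q.1 q.2).card : ℝ) ≠ 0 := by positivity
            field_simp
        · intro q' _ hne
          refine Finset.sum_eq_zero fun g _ => if_neg hne
        · intro hnot
          exact (hnot (Finset.mem_filter.2 ⟨mem_univ q, hq⟩)).elim
      · have h1 : f q.1 q.2 = 0 := hf0 q.1 q.2 hq
        rw [h1, Nat.cast_zero]
        refine Finset.sum_eq_zero fun q' hq' => Finset.sum_eq_zero fun g _ => if_neg ?_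
        intro h2
        have h3 : q' = q := h2
        rw [h3] at hq'
        exact hq (mem_filter.1 hq').2)
  obtain ⟨F, hF⟩ : ∃ F : (Fin s → Fin v) × (Fin s → Fin v) → ZMod 3 → Finset γ,
      ∀ p a g, g ∈ F p a ↔ (⟨(p, a), g⟩ : Σ _ : ((Fin s → Fin v) ×
        (Fin s → Fin v)) × ZMod 3, γ) ∈ Z := by
    refine ⟨fun p a => (Y p a).filter (fun g => (⟨(p, a), g⟩ : Σ _ : ((Fin s → Fin v) ×
        (Fin s → Fin v)) × ZMod 3, γ) ∈ Z), fun p a g => ?_⟩
    rw [mem_filter]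
    exact ⟨fun h => h.2, fun h => ⟨((hSmem _).1 (hZS h)).2, h⟩⟩
  have hZF : Z = (univ : Finset (((Fin s → Fin v) × (Fin s → Fin v)) × ZMod 3)).sigma
      (fun q => F q.1 q.2) := by
    ext B
    rw [mem_sigma]
    exact ⟨fun h => ⟨mem_univ _, (hF B.1.1 B.1.2 B.2).2 h⟩,
      fun h => (hF B.1.1 B.1.2 B.2).1 h.2⟩
  refine ⟨F, ?_, ?_, ?_, ?_⟩
  · intro p a g hg
    exact ((hSmem _).1 (hZS ((hF p a g).1 hg))).2
  · intro p a hp
    refine Finset.eq_empty_of_forall_notMem fun g hg => ?_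
    exact hp ((hSmem _).1 (hZS ((hF p a g).1 hg))).1
  · intro p a
    have h1 := hZ1 (p, a)
    rw [← h1]
    refine Finset.card_bij (fun g _ => (⟨(p, a), g⟩ : Σ _ : ((Fin s → Fin v) ×
        (Fin s → Fin v)) × ZMod 3, γ)) ?_ ?_ ?_
    · intro g hg
      exact mem_filter.2 ⟨(hF p a g).1 hg, rfl⟩
    · intro g _ g' _ h
      simpa using h
    · rintro ⟨q, g⟩ hB
      obtain ⟨h2, h3⟩ := mem_filter.1 hB
      have h4 : q = (p, a) := h3
      subst h4
      exact ⟨g, (hF p a g).2 h2, rfl⟩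
  · intro i T hT
    have h1 := hZ2 (i, T) (by
      rw [mem_product, mem_filter]
      exact ⟨mem_univ _, mem_univ _, hT⟩)
    have h2 : ∑ B ∈ Z, (sg i B.1.2 : ℝ) * (e B.1.1 B.2 T : ℝ) = (chg2 e F i T : ℝ) := by
      rw [hZF, Finset.sum_sigma, Fintype.sum_prod_type]
      unfold chg2
      push_cast
      rfl
    have h3 : ∑ B ∈ S, ((f B.1.1 B.1.2 : ℝ) / (Y B.1.1 B.1.2).card) *
        ((sg i B.1.2 : ℝ) * (e B.1.1 B.2 T : ℝ)) =
        ∑ p, ∑ a, ((f p a : ℝ) / (Y p a).card) *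
          ((sg i a : ℝ) * ∑ g ∈ Y p a, (e p g T : ℝ)) := by
      rw [hS, Finset.sum_sigma, Finset.sum_filter, Fintype.sum_prod_type]
      refine Finset.sum_congr rfl fun p _ => Finset.sum_congr rfl fun a _ => ?_
      by_cases hp : p ∈ Q
      · rw [if_pos hp, Finset.mul_sum, Finset.mul_sum]
      · rw [if_neg hp, hf0 p a hp]
        simp
    have h4 := levelC_card_I t v I hI
    rw [← h2, ← h3]
    exact h1.trans h4

/-- the comparison of the fractional sum -/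
private theorem levelC_frac {γ : Type*} (t v s : ℕ) (I n M : ℕ)
    (Q : Finset ((Fin s → Fin v) × (Fin s → Fin v)))
    (f : (Fin s → Fin v) × (Fin s → Fin v) → ZMod 3 → ℕ)
    (Y : (Fin s → Fin v) × (Fin s → Fin v) → ZMod 3 → Finset γ)
    (hf0 : ∀ p a, p ∉ Q → f p a = 0) (hfM : ∑ p, ∑ a, f p a ≤ M)
    (e : (Fin s → Fin v) × (Fin s → Fin v) → γ → Finset (Fin v) → ℤ)
    (κ : ℕ → ℝ)
    (hκ : ∀ p ∈ Q, ∀ T : Finset (Fin v), T.card ≤ t →
      |κ T.card * ∑ U ∈ powersetCard s T, (pod p U : ℝ)| ≤ 1)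
    (hmean : ∀ p ∈ Q, ∀ a, ∀ T : Finset (Fin v), T.card ≤ t →
      |∑ g ∈ Y p a, (e p g T : ℝ) - n * (κ T.card * ∑ U ∈ powersetCard s T, (pod p U : ℝ))| ≤
        2 * I)
    (hcard : ∀ p ∈ Q, ∀ a, |((Y p a).card : ℝ) - n| ≤ 2 * I)
    (hn : 4 * M + 2 * I ≤ n) (i : ZMod 3) (T : Finset (Fin v))
    (hT : T.card ≤ t) :
    |∑ p, ∑ a, ((f p a : ℝ) / (Y p a).card) * ((sg i a : ℝ) * ∑ g ∈ Y p a, (e p g T : ℝ)) -
      ∑ p, ∑ a, (sg i a : ℝ) * f p a * (κ T.card * ∑ U ∈ powersetCard s T, (pod p U : ℝ))| ≤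
      I := by
  have hfle : ∀ p a, f p a ≤ M := by
    intro p a
    have h1 : f p a ≤ ∑ a, f p a :=
      Finset.single_le_sum (f := fun a => f p a) (fun _ _ => Nat.zero_le _) (mem_univ a)
    have h2 : ∑ a, f p a ≤ ∑ p, ∑ a, f p a :=
      Finset.single_le_sum (f := fun p => ∑ a, f p a) (fun _ _ => Nat.zero_le _) (mem_univ p)
    omega
  obtain ⟨D, hD⟩ : ∃ D : (Fin s → Fin v) × (Fin s → Fin v) → ZMod 3 → ℝ, ∀ p a,
      D p a = ((f p a : ℝ) / (Y p a).card) * ((sg i a : ℝ) * ∑ g ∈ Y p a, (e p g T : ℝ)) -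
        (sg i a : ℝ) * f p a * (κ T.card * ∑ U ∈ powersetCard s T, (pod p U : ℝ)) :=
    ⟨_, fun _ _ => rfl⟩
  have h1 : ∑ p, ∑ a, ((f p a : ℝ) / (Y p a).card) *
      ((sg i a : ℝ) * ∑ g ∈ Y p a, (e p g T : ℝ)) -
      ∑ p, ∑ a, (sg i a : ℝ) * f p a * (κ T.card * ∑ U ∈ powersetCard s T, (pod p U : ℝ)) =
      ∑ p, ∑ a, D p a := by
    rw [← Finset.sum_sub_distrib]
    refine Finset.sum_congr rfl fun p _ => ?_
    rw [← Finset.sum_sub_distrib]
    exact Finset.sum_congr rfl fun a _ => (hD p a).symm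
  have hDM : ∀ p a, |D p a| * M ≤ f p a * I := by
    intro p a
    by_cases hp : p ∈ Q
    · rw [hD]
      refine levelC_term (f p a) M I n (Y p a).card _ _ _ ?_ (hκ p hp T hT) (hfle p a)
        (hmean p hp a T hT) (hcard p hp a) hn
      exact_mod_cast levelC_abs_sg i a
    · rw [hD, hf0 p a hp]
      simp
  have hD0 : ∀ p a, f p a = 0 → D p a = 0 := by
    intro p a h
    rw [hD, h]
    simp
  rw [h1]
  have h2 : |∑ p, ∑ a, D p a| ≤ ∑ p, ∑ a, |D p a| :=
    (Finset.abs_sum_le_sum_abs _ _).trans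
      (Finset.sum_le_sum fun p _ => Finset.abs_sum_le_sum_abs _ _)
  refine h2.trans ?_
  rcases Nat.eq_zero_or_pos M with h0 | h0
  · have h3 : ∑ p, ∑ a, |D p a| = 0 := by
      refine Finset.sum_eq_zero fun p _ => Finset.sum_eq_zero fun a _ => ?_
      have h4 := hfle p a
      rw [hD0 p a (by omega), abs_zero]
    rw [h3]
    exact Nat.cast_nonneg I
  · have hMp : (0 : ℝ) < M := by exact_mod_cast h0
    have h3 : (∑ p, ∑ a, |D p a|) * M ≤ I * M := by
      rw [Finset.sum_mul]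
      have h4 : ∑ p, (∑ a, |D p a|) * M ≤ (∑ p, ∑ a, (f p a : ℝ)) * I := by
        rw [Finset.sum_mul]
        refine Finset.sum_le_sum fun p _ => ?_
        rw [Finset.sum_mul, Finset.sum_mul]
        exact Finset.sum_le_sum fun a _ => hDM p a
      refine h4.trans ?_
      rw [mul_comm]
      refine mul_le_mul_of_nonneg_left ?_ (Nat.cast_nonneg I)
      exact_mod_cast hfM
    exact le_of_mul_le_mul_right h3 hMp

theorem level_core {γ : Type*} [DecidableEq γ] (t k v s : ℕ) (hs : s ≤ t) (I n M : ℕ)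
    (hI : ((univ : Finset (Finset (Fin v))).filter (fun T => T.card ≤ t)).card ≤ I)
    (d : ZMod 3 → Finset (Fin v) → ℤ)
    (hsum : ∀ T : Finset (Fin v), T.card ≤ t → ∑ i, d i T = 0)
    (hz : ∀ i, ∀ T : Finset (Fin v), T.card < s → d i T = 0)
    (Q : Finset ((Fin s → Fin v) × (Fin s → Fin v)))
    (c0 c1 : (Fin s → Fin v) × (Fin s → Fin v) → ℤ)
    (hc0 : ∀ p, c0 p ≠ 0 → p ∈ Q) (hc1 : ∀ p, c1 p ≠ 0 → p ∈ Q)
    (hd0 : ∀ U : Finset (Fin v), U.card = s → d 0 U = ∑ p, c0 p * pod p U)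
    (hd1 : ∀ U : Finset (Fin v), U.card = s → d 1 U = ∑ p, c1 p * pod p U)
    (hM : 5 * (∑ p, |c0 p|) + 5 * (∑ p, |c1 p|) ≤ M)
    (Y : (Fin s → Fin v) × (Fin s → Fin v) → ZMod 3 → Finset γ)
    (e : (Fin s → Fin v) × (Fin s → Fin v) → γ → Finset (Fin v) → ℤ)
    (he0 : ∀ p ∈ Q, ∀ a, ∀ g ∈ Y p a, ∀ T, T.card < s → e p g T = 0)
    (he1 : ∀ p ∈ Q, ∀ a, ∀ g ∈ Y p a, ∀ T, T.card = s → e p g T = pod p T)
    (he2 : ∀ p ∈ Q, ∀ a, ∀ g ∈ Y p a, ∀ T, |e p g T| ≤ 1)
    (her : ∀ p ∈ Q, ∀ a, ∀ g ∈ Y p a, Rel t k (e p g))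
    (κ : ℕ → ℝ)
    (hκ : ∀ p ∈ Q, ∀ T : Finset (Fin v), T.card ≤ t →
      |κ T.card * ∑ U ∈ powersetCard s T, (pod p U : ℝ)| ≤ 1)
    (hmean : ∀ p ∈ Q, ∀ a, ∀ T : Finset (Fin v), T.card ≤ t →
      |∑ g ∈ Y p a, (e p g T : ℝ) - n * (κ T.card * ∑ U ∈ powersetCard s T, (pod p U : ℝ))| ≤
        2 * I)
    (hcard : ∀ p ∈ Q, ∀ a, |((Y p a).card : ℝ) - n| ≤ 2 * I)
    (hn : 4 * M + 2 * I ≤ n) :
    ∃ F : (Fin s → Fin v) × (Fin s → Fin v) → ZMod 3 → Finset γ,
      (∀ p a, F p a ⊆ Y p a) ∧ (∀ p a, p ∉ Q → F p a = ∅) ∧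
      (∀ T, ∑ i, chg2 e F i T = 0) ∧
      (∀ i, Rel t k (chg2 e F i)) ∧
      (∀ i, ∀ T : Finset (Fin v), T.card < s + 1 → d i T + chg2 e F i T = 0) ∧
      ∀ i, ∀ T : Finset (Fin v), T.card ≤ t →
        |(chg2 e F i T : ℝ) + κ T.card * ∑ U ∈ powersetCard s T, (d i U : ℝ)| ≤ 7 * I := by
  obtain ⟨f, hf0, hfM, hfd⟩ := levelC_weights s v t M hs d hsum Q c0 c1 hc0 hc1 hd0 hd1 hM
  have hfle : ∀ p a, f p a ≤ M := by
    intro p a
    have h1 : f p a ≤ ∑ a, f p a :=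
      Finset.single_le_sum (f := fun a => f p a) (fun _ _ => Nat.zero_le _) (mem_univ a)
    have h2 : ∑ a, f p a ≤ ∑ p, ∑ a, f p a :=
      Finset.single_le_sum (f := fun p => ∑ a, f p a) (fun _ _ => Nat.zero_le _) (mem_univ p)
    omega
  have hfY : ∀ p ∈ Q, ∀ a, f p a ≤ (Y p a).card := by
    intro p hp a
    have h1 : (4 * M + 2 * I : ℝ) ≤ n := by exact_mod_cast hn
    have h2 := (abs_le.1 (hcard p hp a)).1
    have hM0 : (0 : ℝ) ≤ M := Nat.cast_nonneg M
    have h3 : (M : ℝ) ≤ (Y p a).card := by linarith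
    have h4 : M ≤ (Y p a).card := by exact_mod_cast h3
    exact (hfle p a).trans h4
  obtain ⟨F, hFY, hFO, hFc, hFr⟩ := levelC_round t v s I hI Q f Y hf0 hfY e he2
  have hFoct : ∀ p a, ∀ g ∈ F p a, p ∈ Q := by
    intro p a g hg
    by_contra hp
    rw [hFO p a hp] at hg
    exact absurd hg (Finset.notMem_empty g)
  refine ⟨F, hFY, hFO, ?_, ?_, ?_, ?_⟩
  · intro T
    unfold chg2
    rw [Finset.sum_comm]
    refine Finset.sum_eq_zero fun p _ => ?_
    rw [Finset.sum_comm]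
    refine Finset.sum_eq_zero fun a _ => ?_
    rw [Finset.sum_comm]
    refine Finset.sum_eq_zero fun g _ => ?_
    rw [← Finset.sum_mul, levelC_sum_sg, zero_mul]
  · intro i
    unfold chg2
    refine levelC_rel_sum _ fun p _ => levelC_rel_sum _ fun a _ => levelC_rel_sum _ fun g hg => ?_
    exact levelC_rel_mul _ (her p (hFoct p a g hg) a g (hFY p a hg))
  · intro i T hT
    rcases Nat.lt_or_eq_of_le (Nat.le_of_lt_succ hT) with h1 | h1
    · have h2 : chg2 e F i T = 0 := by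
        unfold chg2
        refine Finset.sum_eq_zero fun p _ => Finset.sum_eq_zero fun a _ =>
          Finset.sum_eq_zero fun g hg => ?_
        rw [he0 p (hFoct p a g hg) a g (hFY p a hg) T h1, mul_zero]
      rw [h2, hz i T h1, add_zero]
    · have h2 : chg2 e F i T = ∑ p, (∑ a, (f p a : ℤ) * sg i a) * pod p T := by
        unfold chg2
        refine Finset.sum_congr rfl fun p _ => ?_
        rw [Finset.sum_mul]
        refine Finset.sum_congr rfl fun a _ => ?_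
        rw [Finset.sum_congr rfl fun g hg => by
          rw [he1 p (hFoct p a g hg) a g (hFY p a hg) T h1],
          Finset.sum_const, hFc, nsmul_eq_mul, mul_assoc]
      rw [h2, hfd i T h1, add_neg_cancel]
  · intro i T hT
    have h1 := hFr i T hT
    have h2 := levelC_frac t v s I n M Q f Y hf0 hfM e κ hκ hmean hcard hn i T hT
    have h3 : ∑ p, ∑ a, (sg i a : ℝ) * f p a *
        (κ T.card * ∑ U ∈ powersetCard s T, (pod p U : ℝ)) =
        - (κ T.card * ∑ U ∈ powersetCard s T, (d i U : ℝ)) := by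
      have h4 : ∀ U ∈ powersetCard s T, (d i U : ℝ) =
          - ∑ p, (∑ a, (f p a : ℝ) * (sg i a : ℝ)) * (pod p U : ℝ) := by
        intro U hU
        have h5 := hfd i U (mem_powersetCard.1 hU).2
        have h6 : (∑ p, (∑ a, (f p a : ℝ) * (sg i a : ℝ)) * (pod p U : ℝ)) =
            ((∑ p, (∑ a, (f p a : ℤ) * sg i a) * pod p U : ℤ) : ℝ) := by
          push_cast
          rfl
        rw [h6, h5]
        push_cast
        ring
      have h8 : κ T.card * ∑ U ∈ powersetCard s T, (d i U : ℝ) =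
          - ∑ p, (∑ a, (f p a : ℝ) * (sg i a : ℝ)) *
            (κ T.card * ∑ U ∈ powersetCard s T, (pod p U : ℝ)) := by
        rw [Finset.sum_congr rfl h4, Finset.sum_neg_distrib, mul_neg, Finset.sum_comm,
          Finset.mul_sum]
        congr 1
        refine Finset.sum_congr rfl fun p _ => ?_
        rw [← Finset.mul_sum]
        ring
      rw [h8, neg_neg]
      refine Finset.sum_congr rfl fun p _ => ?_
      rw [Finset.sum_mul]
      refine Finset.sum_congr rfl fun a _ => ?_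
      ring
    rw [h3] at h2
    have h5 : (chg2 e F i T : ℝ) + κ T.card * ∑ U ∈ powersetCard s T, (d i U : ℝ) =
        ((chg2 e F i T : ℝ) - ∑ p, ∑ a, ((f p a : ℝ) / (Y p a).card) *
          ((sg i a : ℝ) * ∑ g ∈ Y p a, (e p g T : ℝ))) +
        (∑ p, ∑ a, ((f p a : ℝ) / (Y p a).card) *
          ((sg i a : ℝ) * ∑ g ∈ Y p a, (e p g T : ℝ)) -
          -(κ T.card * ∑ U ∈ powersetCard s T, (d i U : ℝ))) := by ring
    rw [h5]
    refine (abs_add_le _ _).trans ?_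
    linarith

end Pool.Agent.LS3
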