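import Pool.Agent.Lib.MP_2c0b9b_co_LB.StarP
import Pool.Agent.Lib.MP_2c0b9b_co_NL.Absorb2

/-!
# Pools indexed by pairs of sides
-/

set_option autoImplicit false

open Finset

namespace Pool.Agent.LS3

/-- Successive choice of pools with disjoint blocks, with different sizes of stars. -/
theorem select_pools_w {ι σ γ : Type*} [DecidableEq ι] [DecidableEq σ] [DecidableEq γ]
    (L : Finset ι) (cand : ι → Finset σ) (bl : ι → σ → Finset γ) (b : ι → ℕ) (m : ℕ)
    (hb : ∀ i ∈ L, ∀ o ∈ cand i, (bl i o).card ≤ b i)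
    (hinj : ∀ i ∈ L, ∀ c : γ, ((cand i).filter (fun o => c ∈ bl i o)).card ≤ 1)
    (good : ι → Finset σ → Prop)
    (hgood : ∀ i ∈ L, ∀ A ⊆ cand i, (cand i \ A).card ≤ ∑ j ∈ L, m * b j →
      ∃ Y ⊆ A, Y.card ≤ m ∧ good i Y) :
    ∃ Y : ι → Finset σ, (∀ i ∈ L, Y i ⊆ cand i ∧ (Y i).card ≤ m ∧ good i (Y i)) ∧
      ∀ i ∈ L, ∀ j ∈ L, i ≠ j → ∀ o ∈ Y i, ∀ o' ∈ Y j, Disjoint (bl i o) (bl j o') := by
  have main : ∀ L' : Finset ι, L' ⊆ L → ∃ Y : ι → Finset σ,
      (∀ i ∈ L', Y i ⊆ cand i ∧ (Y i).card ≤ m ∧ good i (Y i)) ∧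
      ∀ i ∈ L', ∀ j ∈ L', i ≠ j → ∀ o ∈ Y i, ∀ o' ∈ Y j, Disjoint (bl i o) (bl j o') := by
    intro L'
    induction L' using Finset.induction_on with
    | empty =>
      intro _
      exact ⟨fun _ => ∅, fun i hi => absurd hi (notMem_empty i),
        fun i hi => absurd hi (notMem_empty i)⟩
    | insert i L' hi ih =>
      intro hL
      have hiL : i ∈ L := hL (mem_insert_self i L')
      have hL' : L' ⊆ L := fun j hj => hL (mem_insert_of_mem hj)
      obtain ⟨Y, hY1, hY2⟩ := ih hL'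
      set U : Finset γ := L'.biUnion (fun j => (Y j).biUnion (fun o => bl j o)) with hU
      have hUcard : U.card ≤ ∑ j ∈ L, m * b j := by
        calc U.card ≤ ∑ j ∈ L', m * b j := by
              refine card_biUnion_le.trans (sum_le_sum fun j hj => ?_)
              obtain ⟨h1, h2, -⟩ := hY1 j hj
              calc _ ≤ (Y j).card * b j := by
                    apply card_biUnion_le_card_mul
                    intro o ho
                    exact hb j (hL' hj) o (h1 ho)
                _ ≤ m * b j := Nat.mul_le_mul_right _ h2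
          _ ≤ ∑ j ∈ L, m * b j := sum_le_sum_of_subset hL'
      set A : Finset σ := (cand i).filter (fun o => Disjoint (bl i o) U) with hA
      have hAc : (cand i \ A).card ≤ ∑ j ∈ L, m * b j := by
        refine le_trans ?_ hUcard
        have h1 : cand i \ A ⊆ U.biUnion (fun c => (cand i).filter (fun o => c ∈ bl i o)) := by
          intro o ho
          rw [mem_sdiff, hA, mem_filter] at ho
          obtain ⟨ho1, ho2⟩ := ho
          have h2 : ¬ Disjoint (bl i o) U := fun h => ho2 ⟨ho1, h⟩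
          rw [not_disjoint_iff] at h2
          obtain ⟨c, hc1, hc2⟩ := h2
          exact mem_biUnion.2 ⟨c, hc2, mem_filter.2 ⟨ho1, hc1⟩⟩
        calc (cand i \ A).card ≤ _ := card_le_card h1
          _ ≤ U.card * 1 := card_biUnion_le_card_mul _ _ _ (fun c _ => hinj i hiL c)
          _ = U.card := mul_one _
      obtain ⟨Yi, hYi1, hYi2, hYi3⟩ := hgood i hiL A (filter_subset _ _) hAc
      have hYiU : ∀ o ∈ Yi, ∀ j ∈ L', ∀ o' ∈ Y j, Disjoint (bl i o) (bl j o') := by
        intro o ho j hj o' ho'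
        have h1 : Disjoint (bl i o) U := (mem_filter.1 (hYi1 ho)).2
        refine disjoint_of_subset_right ?_ h1
        intro c hc
        exact mem_biUnion.2 ⟨j, hj, mem_biUnion.2 ⟨o', ho', hc⟩⟩
      refine ⟨Function.update Y i Yi, ?_, ?_⟩
      · intro j hj
        rcases mem_insert.1 hj with rfl | hj'
        · rw [Function.update_self]
          exact ⟨hYi1.trans (filter_subset _ _), hYi2, hYi3⟩
        · have hne : j ≠ i := fun h => hi (h ▸ hj')
          rw [Function.update_of_ne hne]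
          exact hY1 j hj'
      · intro j hj l hl hjl o ho o' ho'
        rcases mem_insert.1 hj with rfl | hj'
        · rcases mem_insert.1 hl with rfl | hl'
          · exact absurd rfl hjl
          · have hne : l ≠ j := fun h => hjl h.symm
            rw [Function.update_self] at ho
            rw [Function.update_of_ne hne] at ho'
            exact hYiU o ho l hl' o' ho'
        · have hne : j ≠ i := fun h => hi (h ▸ hj')
          rw [Function.update_of_ne hne] at ho
          rcases mem_insert.1 hl with rfl | hl'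
          · rw [Function.update_self] at ho'
            exact (hYiU o' ho' j hj' o ho).symm
          · have hne' : l ≠ i := fun h => hi (h ▸ hl')
            rw [Function.update_of_ne hne'] at ho'
            exact hY2 j hj' l hl' hjl o ho o' ho'
  exact main L (Subset.refl L)

/-- The index type of the pools. -/
abbrev Idx3 (v : ℕ) : Type := (_ : ℕ) × ((Finset (Fin v) × Finset (Fin v)) × ZMod 3)

/-- Pairs of disjoint `s`-sets. -/
def sides (v s : ℕ) : Finset (Finset (Fin v) × Finset (Fin v)) :=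
  univ.filter (fun q => q.1.card = s ∧ q.2.card = s ∧ Disjoint q.1 q.2)

theorem mem_sides {v s : ℕ} {q : Finset (Fin v) × Finset (Fin v)} :
    q ∈ sides v s ↔ q.1.card = s ∧ q.2.card = s ∧ Disjoint q.1 q.2 := by
  simp [sides]

/-- The set of all pools. -/
def gM (t v : ℕ) : Finset (Idx3 v) :=
  (range (t + 1)).sigma (fun s => sides v s ×ˢ (univ : Finset (ZMod 3)))

theorem mem_gM {t v : ℕ} {x : Idx3 v} : x ∈ gM t v ↔ x.1 ≤ t ∧ x.2.1 ∈ sides v x.1 := by
  unfold gM
  simp only [mem_sigma, mem_range, mem_product, mem_univ, and_true]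
  rw [Nat.lt_succ_iff]

theorem sum_gM {M : Type*} [AddCommMonoid M] (t v : ℕ) (h : Idx3 v → M) :
    ∑ x ∈ gM t v, h x = ∑ s ∈ range (t + 1), ∑ q ∈ sides v s, ∑ a : ZMod 3, h ⟨s, (q, a)⟩ := by
  unfold gM
  rw [sum_sigma]
  refine sum_congr rfl fun s _ => ?_
  rw [sum_product]

theorem sides_card (v s : ℕ) : (sides v s).card ≤ v.choose s ^ 2 := by
  have h1 : sides v s ⊆ powersetCard s (univ : Finset (Fin v)) ×ˢ powersetCard s univ := by
    intro q hq
    rw [mem_sides] at hq
    rw [mem_product, mem_powersetCard, mem_powersetCard]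
    exact ⟨⟨subset_univ _, hq.1⟩, ⟨subset_univ _, hq.2.1⟩⟩
  refine (card_le_card h1).trans ?_
  rw [card_product, card_powersetCard, card_univ, Fintype.card_fin, sq]

theorem pools_cost_le (t v m : ℕ) : ∑ x ∈ gM t v, m * (2 * x.1).choose x.1 ≤
    3 * m * ∑ s ∈ range (t + 1), v.choose s ^ 2 * (2 * s).choose s := by
  rw [sum_gM, mul_sum]
  refine sum_le_sum fun s _ => ?_
  simp only
  rw [sum_const, sum_const, card_univ, ZMod.card, smul_eq_mul, smul_eq_mul]
  calc _ ≤ v.choose s ^ 2 * (3 * (m * (2 * s).choose s)) :=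
        Nat.mul_le_mul_right _ (sides_card v s)
    _ = _ := by ring

theorem lI_pos (t v : ℕ) : 1 ≤ lI t v := by
  unfold lI
  refine le_trans ?_ (single_le_sum (f := fun j => v.choose j) (fun _ _ => Nat.zero_le _)
    (mem_range.2 (show 0 < t + 1 by omega)))
  simp

theorem lM_pos (t v : ℕ) (hv : 1 ≤ v) : 1 ≤ lM t v := by
  unfold lM lC
  have h1 : v.choose 0 * (7 * (t + 1) * lI t v) + 6 * 2 ^ 0 * (v + 1).choose (0 + 1) ≤
      ∑ s ∈ range (t + 1),
        (v.choose s * (7 * (t + 1) * lI t v) + 6 * 2 ^ s * (v + 1).choose (s + 1)) :=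
    single_le_sum (f := fun s => v.choose s * (7 * (t + 1) * lI t v) +
      6 * 2 ^ s * (v + 1).choose (s + 1)) (fun _ _ => Nat.zero_le _)
      (mem_range.2 (show 0 < t + 1 by omega))
  have h2 : 1 ≤ v.choose 0 * (7 * (t + 1) * lI t v) + 6 * 2 ^ 0 * (v + 1).choose (0 + 1) := by
    simp
    omega
  omega

theorem lN_pos (t v : ℕ) (hv : 1 ≤ v) : 1 ≤ lN t v := by
  unfold lN ln
  have := lM_pos t v hv
  apply Nat.mul_pos (by omega) (by omega)

theorem six_lI_le (t v : ℕ) : 6 * lI t v ≤ lK t v := by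
  unfold lK
  have h1 : 1 ≤ ∑ s ∈ range (t + 1), v.choose s ^ 2 * (2 * s).choose s := by
    refine le_trans ?_ (single_le_sum (f := fun s => v.choose s ^ 2 * (2 * s).choose s)
      (fun _ _ => Nat.zero_le _) (mem_range.2 (show 0 < t + 1 by omega)))
    simp
  calc 6 * lI t v ≤ 3 * (lN t v + 2 * lI t v) * 1 := by omega
    _ ≤ _ := Nat.mul_le_mul_left _ h1

/-- Sets with at most `t` points. -/
theorem small_card (t v : ℕ) :
    ((univ : Finset (Finset (Fin v))).filter (fun T => T.card ≤ t)).card = lI t v := by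
  unfold lI
  have h1 : (univ : Finset (Finset (Fin v))).filter (fun T => T.card ≤ t) =
      (range (t + 1)).biUnion (fun j => powersetCard j (univ : Finset (Fin v))) := by
    ext T
    simp only [mem_filter, mem_univ, true_and, mem_biUnion, mem_range, mem_powersetCard,
      subset_univ]
    constructor
    · intro h
      exact ⟨T.card, by omega, rfl⟩
    · rintro ⟨j, h1, h2⟩
      omega
  rw [h1, card_biUnion]
  · refine sum_congr rfl fun j _ => ?_
    rw [card_powersetCard, card_univ, Fintype.card_fin]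
  · intro i _ j _ hij
    exact pairwise_disjoint_powersetCard _ hij

/-- Choice of the pools. -/
theorem choose_pools_l (t k v : ℕ) (hv : 1 ≤ v) (hk : 2 * t ≤ k)
    (hbig : ∀ s ≤ t, lN t v * lK t v ≤ lI t v * (v - 2 * s).choose (k - s)) :
    ∃ Y : ℕ → Finset (Fin v) → Finset (Fin v) → ZMod 3 → Finset (Finset (Fin v)),
      (∀ s ≤ t, ∀ A B : Finset (Fin v), A.card = s → B.card = s → Disjoint A B → ∀ a,
        ∀ S ∈ Y s A B a, S.card = k - s ∧ Disjoint S (A ∪ B)) ∧
      (∀ s ≤ t, ∀ A B : Finset (Fin v), A.card = s → B.card = s → Disjoint A B → ∀ a,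
        ∀ R : Finset (Fin v), R.card ≤ t → Disjoint R (A ∪ B) →
        |(((Y s A B a).filter (fun S => R ⊆ S)).card : ℝ) - (lN t v : ℕ) * mu k v s R.card| ≤
          2 * (lI t v : ℕ)) ∧
      (∀ x ∈ gM t v, ∀ y ∈ gM t v, x ≠ y → ∀ S ∈ Y x.1 x.2.1.1 x.2.1.2 x.2.2,
        ∀ S' ∈ Y y.1 y.2.1.1 y.2.1.2 y.2.2, ∀ U ∈ powersetCard x.1 (x.2.1.1 ∪ x.2.1.2),
        ∀ U' ∈ powersetCard y.1 (y.2.1.1 ∪ y.2.1.2), S ∪ U ≠ S' ∪ U') ∧
      ∑ x ∈ gM t v, (Y x.1 x.2.1.1 x.2.1.2 x.2.2).card * (2 * x.1).choose x.1 ≤ lK t v := by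
  have hN : 1 ≤ lN t v := lN_pos t v hv
  have hI1 : 1 ≤ lI t v := lI_pos t v
  have hIK : lI t v ≤ lK t v := le_trans (by omega) (six_lI_le t v)
  have hpos : ∀ s ≤ t, 0 < (v - 2 * s).choose (k - s) := by
    intro s hs
    have h1 : 0 < lN t v * lK t v := Nat.mul_pos hN (by omega)
    have h2 := lt_of_lt_of_le h1 (hbig s hs)
    rcases Nat.eq_zero_or_pos ((v - 2 * s).choose (k - s)) with h0 | h0
    · rw [h0, mul_zero] at h2
      exact absurd h2 (lt_irrefl 0)
    · exact h0
  have hn : ∀ s ≤ t, lN t v ≤ (v - 2 * s).choose (k - s) := by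
    intro s hs
    have h1 : lN t v * lK t v ≤ (v - 2 * s).choose (k - s) * lK t v := by
      refine (hbig s hs).trans ?_
      rw [mul_comm]
      exact Nat.mul_le_mul_left _ hIK
    exact Nat.le_of_mul_le_mul_right h1 (by omega)
  have hcost := pools_cost_le t v (lN t v + 2 * lI t v)
  have hcostK : ∑ x ∈ gM t v, (lN t v + 2 * lI t v) * (2 * x.1).choose x.1 ≤ lK t v := by
    unfold lK
    exact hcost
  have hcardZ : ∀ x ∈ gM t v, (x.2.1.1 ∪ x.2.1.2).card = 2 * x.1 := by
    intro x hx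
    have h1 := mem_sides.1 (mem_gM.1 hx).2
    rw [card_union_of_disjoint h1.2.2, h1.1, h1.2.1]
    ring
  obtain ⟨Y, hY1, hY2⟩ := select_pools_w (gM t v)
    (fun x => powersetCard (k - x.1) (univ \ (x.2.1.1 ∪ x.2.1.2)))
    (fun x S => (powersetCard x.1 (x.2.1.1 ∪ x.2.1.2)).image (fun U => S ∪ U))
    (fun x => (2 * x.1).choose x.1) (lN t v + 2 * lI t v)
    (by
      intro x hx S _
      refine card_image_le.trans ?_
      rw [card_powersetCard, hcardZ x hx])
    (by
      intro x hx c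
      rw [card_le_one]
      intro S hS S' hS'
      rw [mem_filter, mem_powersetCard, mem_image] at hS hS'
      obtain ⟨⟨h1, -⟩, q, hq0, hq⟩ := hS
      obtain ⟨⟨h1', -⟩, q', hq0', hq'⟩ := hS'
      have key : ∀ S q : Finset (Fin v), S ⊆ univ \ (x.2.1.1 ∪ x.2.1.2) →
          q ⊆ x.2.1.1 ∪ x.2.1.2 → S ∪ q = c → S = c \ (x.2.1.1 ∪ x.2.1.2) := by
        intro S q h1 h2 h3
        rw [← h3]
        ext y
        rw [mem_sdiff, mem_union]
        constructor
        · intro hy
          exact ⟨Or.inl hy, (mem_sdiff.1 (h1 hy)).2⟩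
        · rintro ⟨hy | hy, hy'⟩
          · exact hy
          · exact absurd (h2 hy) hy'
      rw [key S q h1 (mem_powersetCard.1 hq0).1 hq, key S' q' h1' (mem_powersetCard.1 hq0').1 hq'])
    (fun x Y => ∀ R : Finset (Fin v), R.card ≤ t → Disjoint R (x.2.1.1 ∪ x.2.1.2) →
      |((Y.filter (fun S => R ⊆ S)).card : ℝ) - (lN t v : ℕ) * mu k v x.1 R.card| ≤
        2 * (lI t v : ℕ))
    (by
      intro x hx A hA hcard
      have hx' := mem_gM.1 hx
      obtain ⟨Y, hYA, hY⟩ := big_pool t k v x.1 (x.2.1.1 ∪ x.2.1.2) (hcardZ x hx) hx'.1 hk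
        (lI t v) (lN t v) (lK t v) (small_card t v).le (hpos x.1 hx'.1) (hn x.1 hx'.1)
        (hbig x.1 hx'.1) A hA (hcard.trans hcostK)
      refine ⟨Y, hYA, ?_, hY⟩
      have h2 := hY ∅ (by simp) (disjoint_empty_left _)
      have h3 : Y.filter (fun S => (∅ : Finset (Fin v)) ⊆ S) = Y := by
        apply filter_true_of_mem
        intro S _
        exact empty_subset S
      rw [h3, card_empty, mu_zero k v x.1 (hpos x.1 hx'.1), mul_one] at h2
      have h4 := (abs_le.1 h2).2
      have h5 : (Y.card : ℝ) ≤ ((lN t v + 2 * lI t v : ℕ) : ℝ) := by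
        push_cast
        linarith
      exact_mod_cast h5)
  refine ⟨fun s A B a => Y ⟨s, ((A, B), a)⟩, ?_, ?_, ?_, ?_⟩
  · intro s hs A B hA hB hd a S hS
    obtain ⟨h1, -, -⟩ := hY1 ⟨s, ((A, B), a)⟩ (mem_gM.2 ⟨hs, mem_sides.2 ⟨hA, hB, hd⟩⟩)
    have h2 := mem_powersetCard.1 (h1 hS)
    exact ⟨h2.2, disjoint_of_subset_left h2.1 sdiff_disjoint⟩
  · intro s hs A B hA hB hd a
    exact (hY1 ⟨s, ((A, B), a)⟩ (mem_gM.2 ⟨hs, mem_sides.2 ⟨hA, hB, hd⟩⟩)).2.2
  · rintro x hx y hy hxy S hS S' hS' U hU U' hU' h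
    have hd := hY2 x hx y hy hxy S hS S' hS'
    rw [disjoint_left] at hd
    exact hd (mem_image.2 ⟨U, hU, rfl⟩) (mem_image.2 ⟨U', hU', h.symm⟩)
  · refine le_trans (sum_le_sum fun x hx => ?_) hcostK
    exact Nat.mul_le_mul_right _ (hY1 x hx).2.1

end Pool.Agent.LS3
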