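import Pool.Agent.Lib.MP_2c0b9b_co_LB.Defs
import Pool.Agent.Lib.MP_2c0b9b_co_NL.GadS
import Pool.Agent.Lib.MP_2c0b9b_co.Absorb
import Pool.Agent.Lib.MP_2c0b9b_co.Round

/-!
# Octahedra inside stars, large balanced pools, and splitting of pools
-/

set_option autoImplicit false

open Finset

namespace Pool.Agent.LS3

section
variable {α : Type*} [DecidableEq α] {s : ℕ} {p : (Fin s → α) × (Fin s → α)}

theorem side_card (h : Oct p) : (sideA p).card = s ∧ (sideB p).card = s ∧
    Disjoint (sideA p) (sideB p) := by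
  refine ⟨?_, ?_, ?_⟩
  · unfold sideA
    rw [card_image_of_injective _ (fun i j hij => PodAux.oct_inj1 h hij), card_univ,
      Fintype.card_fin]
  · unfold sideB
    rw [card_image_of_injective _ (fun i j hij => PodAux.oct_inj2 h hij), card_univ,
      Fintype.card_fin]
  · rw [Finset.disjoint_left]
    intro x hx hx2
    unfold sideA at hx
    unfold sideB at hx2
    rw [mem_image] at hx hx2
    obtain ⟨i, -, rfl⟩ := hx
    obtain ⟨j, -, hj⟩ := hx2
    exact PodAux.oct_ne h hj.symm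

theorem opts_eq (p : (Fin s → α) × (Fin s → α)) : opts p = sideA p ∪ sideB p := by
  ext x
  unfold opts sideA sideB
  rw [mem_union, mem_image, mem_image, mem_image]
  constructor
  · rintro ⟨i | i, -, hi⟩
    · exact Or.inl ⟨i, mem_univ _, hi⟩
    · exact Or.inr ⟨i, mem_univ _, hi⟩
  · rintro (⟨i, -, hi⟩ | ⟨i, -, hi⟩)
    · exact ⟨Sum.inl i, mem_univ _, hi⟩
    · exact ⟨Sum.inr i, mem_univ _, hi⟩

private theorem StarP_snd (h : Oct p) (J : Finset (Fin s)) (i : Fin s) :
    p.2 i ∈ tr p J ↔ i ∈ J := by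
  rw [PodAux.mem_tr]
  constructor
  · rintro ⟨j, ⟨h1, h2⟩ | ⟨_, h2⟩⟩
    · rwa [← PodAux.oct_inj2 h h2]
    · exact absurd h2 (PodAux.oct_ne h)
  · exact fun h1 => ⟨i, Or.inl ⟨h1, rfl⟩⟩

theorem parB_tr (h : Oct p) (J : Finset (Fin s)) : parB (sideB p) (tr p J) = par J := by
  have h1 : tr p J ∩ sideB p = J.image p.2 := by
    ext x
    unfold sideB
    rw [mem_inter, mem_image, mem_image]
    constructor
    · rintro ⟨h1, i, -, rfl⟩
      exact ⟨i, (StarP_snd h J i).1 h1, rfl⟩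
    · rintro ⟨i, hi, rfl⟩
      exact ⟨(StarP_snd h J i).2 hi, i, mem_univ _, rfl⟩
  unfold parB par
  rw [h1, card_image_of_injective _ (fun i j hij => PodAux.oct_inj2 h hij)]

theorem tr_injective (h : Oct p) : Function.Injective (tr p) := by
  intro J J' hJ
  ext i
  rw [← StarP_snd h J i, ← StarP_snd h J' i, hJ]

theorem tr_mem_star (h : Oct p) (J : Finset (Fin s)) :
    tr p J ∈ powersetCard s (sideA p ∪ sideB p) := by
  rw [mem_powersetCard, ← opts_eq]
  exact ⟨tr_subset_opts J, PodAux.card_tr h J⟩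

end

/-- A large balanced pool. -/
theorem big_pool (t k v s : ℕ) (Z : Finset (Fin v)) (hZ : Z.card = 2 * s) (hs : s ≤ t)
    (hk : 2 * t ≤ k) (I n K : ℕ)
    (hI : ((univ : Finset (Finset (Fin v))).filter (fun T => T.card ≤ t)).card ≤ I)
    (hpos : 0 < (v - 2 * s).choose (k - s)) (hn : n ≤ (v - 2 * s).choose (k - s))
    (hnK : n * K ≤ I * (v - 2 * s).choose (k - s)) (A : Finset (Finset (Fin v)))
    (hA : A ⊆ powersetCard (k - s) (univ \ Z))
    (hcard : (powersetCard (k - s) (univ \ Z) \ A).card ≤ K) :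
    ∃ Y ⊆ A, ∀ R : Finset (Fin v), R.card ≤ t → Disjoint R Z →
      |((Y.filter (fun S => R ⊆ S)).card : ℝ) - n * mu k v s R.card| ≤ 2 * I := by
  classical
  set C : ℕ := (v - 2 * s).choose (k - s) with hC
  have hCR : (0 : ℝ) < (C : ℝ) := by exact_mod_cast hpos
  set P : Finset (Finset (Fin v)) := powersetCard (k - s) (univ \ Z) with hP
  have hV : (univ \ Z : Finset (Fin v)).card = v - 2 * s := by
    rw [card_sdiff_of_subset (subset_univ _), card_univ, Fintype.card_fin, hZ]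
  set IT : Finset (Finset (Fin v)) := univ.filter (fun T => T.card ≤ t) with hIT
  set x : ℝ := (n : ℝ) / (C : ℝ) with hx
  have hx0 : 0 ≤ x := by positivity
  have hx1 : x ≤ 1 := by
    rw [hx, div_le_one hCR]
    exact_mod_cast hn
  obtain ⟨Y, hYA, hY⟩ := rounding A IT (fun S T => if T ⊆ S then (1 : ℝ) else 0) (by
    intro B _ T _
    split_ifs <;> simp) (fun _ => x) (fun _ _ => ⟨hx0, hx1⟩)
  refine ⟨Y, hYA, ?_⟩
  intro R hR hRd
  have h1 := hY R (mem_filter.2 ⟨mem_univ _, hR⟩)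
  rw [← mul_sum, sum_boole, sum_boole] at h1
  have hIc : ((IT.card : ℕ) : ℝ) ≤ (I : ℝ) := by
    exact_mod_cast hI
  -- the full count
  have hfull : (P.filter (fun S => R ⊆ S)).card = (v - 2 * s - R.card).choose (k - s - R.card) := by
    rw [hP, card_filter_powersetCard_subset R (univ \ Z) (k - s)
      (subset_sdiff.2 ⟨subset_univ _, hRd⟩) (by omega), hV]
  have hsplit : (P.filter (fun S => R ⊆ S)).card =
      (A.filter (fun S => R ⊆ S)).card + ((P \ A).filter (fun S => R ⊆ S)).card := by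
    rw [← card_union_of_disjoint, ← filter_union, union_sdiff_of_subset hA]
    exact disjoint_filter_filter disjoint_sdiff
  have hkill : ((P \ A).filter (fun S => R ⊆ S)).card ≤ K := (card_filter_le _ _).trans hcard
  have hmu : (n : ℝ) * mu k v s R.card = x * ((P.filter (fun S => R ⊆ S)).card : ℝ) := by
    rw [hfull, hx]
    unfold mu
    rw [← hC]
    ring
  have hxK : x * (K : ℝ) ≤ I := by
    rw [hx, div_mul_eq_mul_div, div_le_iff₀ hCR]
    exact_mod_cast hnK
  have h2 : x * (((P \ A).filter (fun S => R ⊆ S)).card : ℝ) ≤ I := by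
    refine le_trans ?_ hxK
    apply mul_le_mul_of_nonneg_left _ hx0
    exact_mod_cast hkill
  have h3 : 0 ≤ x * (((P \ A).filter (fun S => R ⊆ S)).card : ℝ) := by positivity
  rw [hmu, hsplit]
  push_cast
  rw [abs_le] at h1 ⊢
  rw [mul_add]
  constructor <;> linarith [h1.1, h1.2]

private theorem StarP_split {σ ι ρ : Type*} [DecidableEq σ] [DecidableEq ι] (Y : Finset σ)
    (C : Finset ρ) (a : σ → ρ → ℝ) (ha : ∀ S ∈ Y, ∀ R ∈ C, |a S R| ≤ 1) (m : ρ → ℝ)
    (I N n q : ℕ) (hC : C.card ≤ I)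
    (hY : ∀ R ∈ C, |∑ S ∈ Y, a S R - N * m R| ≤ 2 * I) (hn : 3 * q * n ≤ N) (hn0 : 0 < n)
    (L : Finset ι) :
    L.card ≤ q → ∃ Ys : ι → Finset σ,
      (∀ i ∈ L, Ys i ⊆ Y ∧ ∀ R ∈ C, |∑ S ∈ Ys i, a S R - n * m R| ≤ 2 * I) ∧
      ∀ i ∈ L, ∀ j ∈ L, i ≠ j → Disjoint (Ys i) (Ys j) := by
  classical
  induction L using Finset.induction_on with
  | empty =>
    intro _
    exact ⟨fun _ => ∅, fun i hi => absurd hi (notMem_empty _),
      fun i hi => absurd hi (notMem_empty _)⟩
  | insert i L' hi IH =>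
    intro hL
    rw [card_insert_of_notMem hi] at hL
    obtain ⟨Ys, h1, h2⟩ := IH (by omega)
    set j : ℕ := L'.card with hj
    -- the rest
    set Rm : Finset σ := Y \ L'.biUnion Ys with hRm
    have hsub : L'.biUnion Ys ⊆ Y := by
      intro x hx
      obtain ⟨l, hl, hx⟩ := mem_biUnion.1 hx
      exact (h1 l hl).1 hx
    have hsum : ∀ R, ∑ S ∈ Rm, a S R = ∑ S ∈ Y, a S R - ∑ l ∈ L', ∑ S ∈ Ys l, a S R := by
      intro R
      rw [← sum_sdiff hsub, ← sum_biUnion]
      · ring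
      · intro l hl l' hl' hll
        exact h2 l hl l' hl' hll
    have hD : (0 : ℝ) < (N : ℝ) - j * n := by
      have : j * n < N := by
        have h3 : j * n < 3 * q * n := by
          apply Nat.mul_lt_mul_of_pos_right _ hn0
          omega
        omega
      have h4 : ((j * n : ℕ) : ℝ) < (N : ℝ) := by exact_mod_cast this
      push_cast at h4
      linarith
    have hR : ∀ R ∈ C, |∑ S ∈ Rm, a S R - ((N : ℝ) - j * n) * m R| ≤ 2 * (j + 1) * I := by
      intro R hRC
      rw [hsum R]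
      have e1 : ∑ S ∈ Y, a S R - ∑ l ∈ L', ∑ S ∈ Ys l, a S R - ((N : ℝ) - j * n) * m R =
          (∑ S ∈ Y, a S R - N * m R) - ∑ l ∈ L', (∑ S ∈ Ys l, a S R - n * m R) := by
        rw [sum_sub_distrib, sum_const, nsmul_eq_mul]
        ring
      rw [e1]
      have e2 : |∑ l ∈ L', (∑ S ∈ Ys l, a S R - n * m R)| ≤ j * (2 * I) := by
        refine (abs_sum_le_sum_abs _ _).trans ?_
        refine (sum_le_card_nsmul L' _ (2 * (I : ℝ)) ?_).trans ?_
        · intro l hl
          exact (h1 l hl).2 R hRC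
        · rw [nsmul_eq_mul]
      have e3 := hY R hRC
      rw [abs_le] at e2 e3 ⊢
      constructor <;> linarith [e2.1, e2.2, e3.1, e3.2]
    set x : ℝ := (n : ℝ) / ((N : ℝ) - j * n) with hx
    have hx0 : 0 ≤ x := by
      rw [hx]
      exact div_nonneg (Nat.cast_nonneg _) hD.le
    have hb : 2 * ((j : ℝ) + 1) * n ≤ (N : ℝ) - j * n := by
      have h3 : (3 * j + 2) * n ≤ N := by
        refine le_trans ?_ hn
        apply Nat.mul_le_mul_right
        omega
      have h4 : (((3 * j + 2) * n : ℕ) : ℝ) ≤ (N : ℝ) := by exact_mod_cast h3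
      push_cast at h4
      linarith
    have hnn : (0 : ℝ) ≤ (n : ℝ) := Nat.cast_nonneg _
    have hjn : (0 : ℝ) ≤ (j : ℝ) := Nat.cast_nonneg _
    have hIn : (0 : ℝ) ≤ (I : ℝ) := Nat.cast_nonneg _
    have hx1 : x ≤ 1 := by
      rw [hx, div_le_one hD]
      have : (0 : ℝ) ≤ j * n := mul_nonneg hjn hnn
      linarith
    have hx2 : x * (2 * ((j : ℝ) + 1)) ≤ 1 := by
      rw [hx, div_mul_eq_mul_div, div_le_one hD]
      linarith
    obtain ⟨Z, hZ, hZ2⟩ := rounding Rm C a (fun S hS R hRC => ha S (mem_sdiff.1 hS).1 R hRC)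
      (fun _ => x) (fun _ _ => ⟨hx0, hx1⟩)
    have hZd : ∀ l ∈ L', Disjoint Z (Ys l) := by
      intro l hl
      rw [Finset.disjoint_left]
      intro y hy hyl
      exact (mem_sdiff.1 (hZ hy)).2 (mem_biUnion.2 ⟨l, hl, hyl⟩)
    have hZb : ∀ R ∈ C, |∑ S ∈ Z, a S R - n * m R| ≤ 2 * I := by
      intro R hRC
      have e1 := hZ2 R hRC
      rw [← mul_sum] at e1
      have e2 := hR R hRC
      have e3 : |x * ∑ S ∈ Rm, a S R - n * m R| ≤ I := by
        have e4 : x * ∑ S ∈ Rm, a S R - n * m R =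
            x * (∑ S ∈ Rm, a S R - ((N : ℝ) - j * n) * m R) := by
          rw [mul_sub, ← mul_assoc, hx, div_mul_cancel₀ _ hD.ne']
        rw [e4, abs_mul, abs_of_nonneg hx0]
        calc x * |∑ S ∈ Rm, a S R - ((N : ℝ) - j * n) * m R|
            ≤ x * (2 * (j + 1) * I) := mul_le_mul_of_nonneg_left e2 hx0
          _ = (x * (2 * ((j : ℝ) + 1))) * I := by ring
          _ ≤ 1 * I := mul_le_mul_of_nonneg_right hx2 hIn
          _ = I := one_mul _
      have e5 : ((C.card : ℕ) : ℝ) ≤ (I : ℝ) := by exact_mod_cast hC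
      rw [abs_le] at e1 e3 ⊢
      constructor <;> linarith [e1.1, e1.2, e3.1, e3.2]
    refine ⟨Function.update Ys i Z, ?_, ?_⟩
    · intro l hl
      by_cases hli : l = i
      · subst hli
        rw [Function.update_self]
        exact ⟨hZ.trans sdiff_subset, hZb⟩
      · rw [Function.update_of_ne hli]
        exact h1 l (mem_of_mem_insert_of_ne hl hli)
    · intro l hl l' hl' hll
      by_cases hli : l = i
      · subst hli
        rw [Function.update_self, Function.update_of_ne (Ne.symm hll)]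
        exact hZd l' (mem_of_mem_insert_of_ne hl' (Ne.symm hll))
      · rw [Function.update_of_ne hli]
        have hl2 := mem_of_mem_insert_of_ne hl hli
        by_cases hli' : l' = i
        · subst hli'
          rw [Function.update_self]
          exact (hZd l hl2).symm
        · rw [Function.update_of_ne hli']
          exact h2 l hl2 l' (mem_of_mem_insert_of_ne hl' hli') hll

/-- Splitting a balanced pool into disjoint balanced pools. -/
theorem split_pool {σ ι ρ : Type*} [DecidableEq σ] [DecidableEq ι] (Y : Finset σ)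
    (C : Finset ρ) (a : σ → ρ → ℝ) (ha : ∀ S ∈ Y, ∀ R ∈ C, |a S R| ≤ 1) (m : ρ → ℝ)
    (I N n q : ℕ) (hC : C.card ≤ I)
    (hY : ∀ R ∈ C, |∑ S ∈ Y, a S R - N * m R| ≤ 2 * I) (hn : 3 * q * n ≤ N)
    (L : Finset ι) (hL : L.card ≤ q) :
    ∃ Ys : ι → Finset σ,
      (∀ i ∈ L, Ys i ⊆ Y ∧ ∀ R ∈ C, |∑ S ∈ Ys i, a S R - n * m R| ≤ 2 * I) ∧
      ∀ i ∈ L, ∀ j ∈ L, i ≠ j → Disjoint (Ys i) (Ys j) := by
  rcases Nat.eq_zero_or_pos n with h0 | h0
  · subst h0
    refine ⟨fun _ => ∅, fun i _ => ⟨empty_subset _, fun R _ => ?_⟩, fun i _ j _ _ => ?_⟩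
    · rw [sum_empty, Nat.cast_zero, zero_mul, sub_zero, abs_zero]
      positivity
    · exact disjoint_bot_left
  · exact StarP_split Y C a ha m I N n q hC hY hn h0 L hL

end Pool.Agent.LS3
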