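import Pool.Agent.Lib.MP_2c0b9b_co_LB.Dec
import Pool.Agent.Lib.MP_2c0b9b_co_LB.StarP
import Pool.Agent.Lib.MP_2c0b9b_co_LB.LevelC
import Pool.Agent.Lib.MP_2c0b9b_co_LB.PoolsL
import Pool.Agent.Lib.MP_2c0b9b_co_NL.Absorb2

/-!
# Correction of the discrepancy, level by level, linear version
-/

set_option autoImplicit false

open Finset

namespace Pool.Agent.LS3

/-- One stage. -/
theorem stage_lin (t k v s : ℕ) (hs : s ≤ t) (hkt : 2 * t ≤ k)
    (hC : 0 < (v - 2 * s).choose (k - s))
    (d : ZMod 3 → Finset (Fin v) → ℤ)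
    (hsum : ∀ T : Finset (Fin v), T.card ≤ t → ∑ i, d i T = 0)
    (hrel : ∀ i, Rel t k (d i))
    (hz : ∀ i, ∀ T : Finset (Fin v), T.card < s → d i T = 0)
    (hL : ∀ i, ∑ U ∈ powersetCard s (univ : Finset (Fin v)), |d i U| ≤
      ((v.choose s * (7 * (t + 1) * lI t v) : ℕ) : ℤ))
    (Y : Finset (Fin v) → Finset (Fin v) → ZMod 3 → Finset (Finset (Fin v)))
    (hY1 : ∀ A B : Finset (Fin v), A.card = s → B.card = s → Disjoint A B → ∀ a,
      ∀ S ∈ Y A B a, S.card = k - s ∧ Disjoint S (A ∪ B))
    (hY2 : ∀ A B : Finset (Fin v), A.card = s → B.card = s → Disjoint A B → ∀ a,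
      ∀ R : Finset (Fin v), R.card ≤ t → Disjoint R (A ∪ B) →
        |(((Y A B a).filter (fun S => R ⊆ S)).card : ℝ) - (lN t v : ℕ) * mu k v s R.card| ≤
          2 * (lI t v : ℕ)) :
    ∃ F : (Fin s → Fin v) × (Fin s → Fin v) → ZMod 3 → Finset (Finset (Fin v)),
      (∀ p a, F p a ⊆ Y (sideA p) (sideB p) a) ∧ (∀ p a, ¬ Oct p → F p a = ∅) ∧
      (∀ p p' a, p ≠ p' → sideA p = sideA p' → sideB p = sideB p' →
        Disjoint (F p a) (F p' a)) ∧
      (∀ T, ∑ i, chg2 (fun p S T => effS p S T) F i T = 0) ∧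
      (∀ i, Rel t k (chg2 (fun p S T => effS p S T) F i)) ∧
      (∀ i, ∀ T : Finset (Fin v), T.card < s + 1 →
        d i T + chg2 (fun p S T => effS p S T) F i T = 0) ∧
      ∀ i, ∀ T : Finset (Fin v), T.card ≤ t →
        |(chg2 (fun p S T => effS p S T) F i T : ℝ) +
          mu k v s (T.card - s) * ∑ U ∈ powersetCard s T, (d i U : ℝ)| ≤ 7 * (lI t v : ℕ) := by
  classical
  have hkv : k - s ≤ v - 2 * s := by
    by_contra hcon
    rw [Nat.choose_eq_zero_of_lt (by omega)] at hC
    exact absurd hC (lt_irrefl 0)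
  have hIc : ((univ : Finset (Finset (Fin v))).filter (fun T => T.card ≤ t)).card ≤ lI t v :=
    (small_card t v).le
  have hnull : ∀ i, ∀ R : Finset (Fin v), R.card < s →
      ∑ U ∈ (powersetCard s univ).filter (fun U => R ⊆ U), d i U = 0 := by
    intro i R hR
    rw [hrel i s hs R hR.le, hz i R hR, mul_zero]
  obtain ⟨c0, h01, h02, h03⟩ := pods_lin s v (d 0) (hnull 0)
  obtain ⟨c1, h11, h12, h13⟩ := pods_lin s v (d 1) (hnull 1)
  have hterm : v.choose s * (7 * (t + 1) * lI t v) + 6 * 2 ^ s * (v + 1).choose (s + 1) ≤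
      lC t v := by
    unfold lC
    exact Finset.single_le_sum (f := fun s => v.choose s * (7 * (t + 1) * lI t v) +
      6 * 2 ^ s * (v + 1).choose (s + 1)) (fun _ _ => Nat.zero_le _)
      (mem_range.2 (by omega))
  have htermZ : ((v.choose s * (7 * (t + 1) * lI t v) : ℕ) : ℤ) +
      6 * 2 ^ s * (v + 1).choose (s + 1) ≤ (lC t v : ℤ) := by
    have : ((v.choose s * (7 * (t + 1) * lI t v) + 6 * 2 ^ s * (v + 1).choose (s + 1) : ℕ) : ℤ) ≤
        (lC t v : ℤ) := by exact_mod_cast hterm
    push_cast at this ⊢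
    exact this
  have hb0 : ∑ p, |c0 p| ≤ (lC t v : ℤ) := (h03.trans (add_le_add_left (hL 0) _)).trans htermZ
  have hb1 : ∑ p, |c1 p| ≤ (lC t v : ℤ) := (h13.trans (add_le_add_left (hL 1) _)).trans htermZ
  have hMz : (lM t v : ℤ) = 10 * lC t v := by
    unfold lM
    push_cast
    ring
  set Q : Finset ((Fin s → Fin v) × (Fin s → Fin v)) :=
    univ.filter (fun p => c0 p ≠ 0 ∨ c1 p ≠ 0) with hQ
  have hQoct : ∀ p ∈ Q, Oct p := by
    intro p hp
    rcases (mem_filter.1 hp).2 with h | h
    · exact h01 p h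
    · exact h11 p h
  have hQcard : Q.card ≤ lM t v := by
    have h1 : (Q.card : ℤ) ≤ ∑ p ∈ Q, (|c0 p| + |c1 p|) := by
      rw [← nsmul_one Q.card, ← sum_const]
      refine sum_le_sum fun p hp => ?_
      have h2 := abs_nonneg (c0 p)
      have h3 := abs_nonneg (c1 p)
      rcases (mem_filter.1 hp).2 with h | h
      · have := Int.one_le_abs h
        omega
      · have := Int.one_le_abs h
        omega
    have h2 : ∑ p ∈ Q, (|c0 p| + |c1 p|) ≤ ∑ p, (|c0 p| + |c1 p|) :=
      sum_le_sum_of_subset_of_nonneg (subset_univ _)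
        (fun p _ _ => add_nonneg (abs_nonneg _) (abs_nonneg _))
    have h2' : ∑ p, (|c0 p| + |c1 p|) = ∑ p, |c0 p| + ∑ p, |c1 p| := sum_add_distrib
    have h3 : (Q.card : ℤ) ≤ (lM t v : ℤ) := by
      rw [hMz]
      have : (0 : ℤ) ≤ lC t v := Int.natCast_nonneg _
      linarith
    exact_mod_cast h3
  -- splitting of the pools
  have hsplit : ∀ (A B : Finset (Fin v)) (a : ZMod 3), ∃ Ys : (Fin s → Fin v) × (Fin s → Fin v) →
      Finset (Finset (Fin v)), A.card = s → B.card = s → Disjoint A B →
      (∀ p ∈ Q.filter (fun p => sideA p = A ∧ sideB p = B), Ys p ⊆ Y A B a ∧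
        ∀ R : Finset (Fin v), R.card ≤ t → Disjoint R (A ∪ B) →
          |(((Ys p).filter (fun S => R ⊆ S)).card : ℝ) - (ln t v : ℕ) * mu k v s R.card| ≤
            ((2 * lI t v : ℕ) : ℝ)) ∧
      ∀ p ∈ Q.filter (fun p => sideA p = A ∧ sideB p = B),
        ∀ p' ∈ Q.filter (fun p => sideA p = A ∧ sideB p = B), p ≠ p' →
          Disjoint (Ys p) (Ys p') := by
    intro A B a
    by_cases hAB : A.card = s ∧ B.card = s ∧ Disjoint A B
    · obtain ⟨hA, hB, hd⟩ := hAB
      have hq : (Q.filter (fun p => sideA p = A ∧ sideB p = B)).card ≤ lM t v :=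
        (card_filter_le _ _).trans hQcard
      have hCc : ((univ : Finset (Finset (Fin v))).filter
          (fun R => R.card ≤ t ∧ Disjoint R (A ∪ B))).card ≤ lI t v := by
        refine le_trans (card_le_card ?_) hIc
        intro R hR
        exact mem_filter.2 ⟨mem_univ _, (mem_filter.1 hR).2.1⟩
      obtain ⟨Ys, h1, h2⟩ := split_pool (Y A B a) ((univ : Finset (Finset (Fin v))).filter
          (fun R => R.card ≤ t ∧ Disjoint R (A ∪ B)))
          (fun S R => if R ⊆ S then (1 : ℝ) else 0) (by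
            intro S _ R _
            split_ifs <;> simp) (fun R => mu k v s R.card) (lI t v) (lN t v) (ln t v) (lM t v)
          hCc (by
            intro R hR
            have h3 := hY2 A B hA hB hd a R (mem_filter.1 hR).2.1 (mem_filter.1 hR).2.2
            rw [sum_boole]
            exact h3) (by unfold lN; exact le_rfl) _ hq
      refine ⟨Ys, fun _ _ _ => ⟨?_, h2⟩⟩
      intro p hp
      refine ⟨(h1 p hp).1, ?_⟩
      intro R hR hRd
      have h3 := (h1 p hp).2 R (mem_filter.2 ⟨mem_univ _, hR, hRd⟩)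
      rw [sum_boole] at h3
      push_cast
      exact h3
    · exact ⟨fun _ => ∅, fun h1 h2 h3 => absurd ⟨h1, h2, h3⟩ hAB⟩
  choose Ys hYs using hsplit
  set Y' : (Fin s → Fin v) × (Fin s → Fin v) → ZMod 3 → Finset (Finset (Fin v)) :=
    fun p a => if p ∈ Q then Ys (sideA p) (sideB p) a p else ∅ with hY'
  have hmemF : ∀ p ∈ Q, p ∈ Q.filter (fun p' => sideA p' = sideA p ∧ sideB p' = sideB p) :=
    fun p hp => mem_filter.2 ⟨hp, rfl, rfl⟩
  have hY'eq : ∀ p ∈ Q, ∀ a, Y' p a = Ys (sideA p) (sideB p) a p := by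
    intro p hp a
    simp only [hY', hp, if_true]
  have hY'sub : ∀ p ∈ Q, ∀ a, Y' p a ⊆ Y (sideA p) (sideB p) a := by
    intro p hp a
    rw [hY'eq p hp a]
    obtain ⟨hA, hB, hd⟩ := side_card (hQoct p hp)
    exact ((hYs (sideA p) (sideB p) a hA hB hd).1 p (hmemF p hp)).1
  have hY'S : ∀ p ∈ Q, ∀ a, ∀ S ∈ Y' p a, S.card = k - s ∧ Disjoint S (opts p) := by
    intro p hp a S hS
    obtain ⟨hA, hB, hd⟩ := side_card (hQoct p hp)
    rw [opts_eq]
    exact hY1 _ _ hA hB hd a S (hY'sub p hp a hS)
  have hY'bal : ∀ p ∈ Q, ∀ a, ∀ R : Finset (Fin v), R.card ≤ t → Disjoint R (opts p) →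
      |(((Y' p a).filter (fun S => R ⊆ S)).card : ℝ) - (ln t v : ℕ) * mu k v s R.card| ≤
        ((2 * lI t v : ℕ) : ℝ) := by
    intro p hp a R hR hRd
    obtain ⟨hA, hB, hd⟩ := side_card (hQoct p hp)
    rw [hY'eq p hp a]
    rw [opts_eq] at hRd
    exact ((hYs (sideA p) (sideB p) a hA hB hd).1 p (hmemF p hp)).2 R hR hRd
  obtain ⟨F, hF1, hF2, hF3, hF4, hF5, hF6⟩ := level_core t k v s hs (lI t v) (ln t v) (lM t v) hIc
    d hsum hz Q c0 c1 (fun p hp => mem_filter.2 ⟨mem_univ _, Or.inl hp⟩)
    (fun p hp => mem_filter.2 ⟨mem_univ _, Or.inr hp⟩) h02 h12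
    (by rw [hMz]; linarith)
    Y' (fun p S T => effS p S T)
    (fun p hp a S hS T hT => effS_zero (hQoct p hp) (hY'S p hp a S hS).2 T hT)
    (fun p hp a S hS T hT => effS_pod (hQoct p hp) (hY'S p hp a S hS).2 T hT)
    (fun p hp a S hS T => effS_abs (hQoct p hp) (hY'S p hp a S hS).2 T)
    (fun p hp a S hS => effS_rel t k (hQoct p hp) (hY'S p hp a S hS).2 (by
      rw [(hY'S p hp a S hS).1]
      omega))
    (fun r => mu k v s (r - s))
    (by
      intro p hp T hT
      have h1 : |∑ U ∈ powersetCard s T, (pod p U : ℝ)| ≤ 1 := by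
        have := pod_sum_abs (hQoct p hp) T
        have h7 : ((|∑ U ∈ powersetCard s T, pod p U| : ℤ) : ℝ) ≤ 1 := by exact_mod_cast this
        rw [Int.cast_abs] at h7
        push_cast at h7
        exact h7
      rw [abs_mul]
      have h2 := mu_nonneg k v s (T.card - s)
      have h3 := mu_le_one k v s (T.card - s) (by omega) hkv
      rw [abs_of_nonneg h2]
      exact mul_le_one₀ h3 (abs_nonneg _) h1)
    (by
      intro p hp a T hT
      have h1 := mean_eff t k v s p (hQoct p hp) (Y' p a) (fun S hS => (hY'S p hp a S hS).2)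
        (ln t v) (2 * lI t v) (fun R hR hRd => hY'bal p hp a R hR hRd) T hT
      push_cast at h1
      exact h1)
    (by
      intro p hp a
      have h2 := hY'bal p hp a ∅ (by simp) (disjoint_empty_left _)
      have h3 : (Y' p a).filter (fun S => (∅ : Finset (Fin v)) ⊆ S) = Y' p a := by
        apply filter_true_of_mem
        intro S _
        exact empty_subset S
      rw [h3, card_empty, mu_zero k v s hC, mul_one] at h2
      push_cast at h2
      exact h2)
    (by unfold ln; exact le_rfl)
  refine ⟨F, ?_, ?_, ?_, hF3, hF4, hF5, hF6⟩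
  · intro p a
    by_cases hp : p ∈ Q
    · exact (hF1 p a).trans (hY'sub p hp a)
    · rw [hF2 p a hp]
      exact empty_subset _
  · intro p a hp
    exact hF2 p a (fun h => hp (hQoct p h))
  · intro p p' a hpp hA hB
    by_cases hp : p ∈ Q
    · by_cases hp' : p' ∈ Q
      · refine disjoint_of_subset_left (hF1 p a) (disjoint_of_subset_right (hF1 p' a) ?_)
        rw [hY'eq p hp a, hY'eq p' hp' a, ← hA, ← hB]
        obtain ⟨hAc, hBc, hd⟩ := side_card (hQoct p hp)
        exact (hYs (sideA p) (sideB p) a hAc hBc hd).2 p (hmemF p hp) p'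
          (mem_filter.2 ⟨hp', hA.symm, hB.symm⟩) hpp
      · rw [hF2 p' a hp']
        exact disjoint_empty_right _
    · rw [hF2 p a hp]
      exact disjoint_empty_left _

section
variable {v : ℕ}

/-- The discrepancy after the first `n` levels. -/
private def cD3 (d : ZMod 3 → Finset (Fin v) → ℤ)
    (F : (s : ℕ) → (Fin s → Fin v) × (Fin s → Fin v) → ZMod 3 → Finset (Finset (Fin v)))
    (n : ℕ) (i : ZMod 3) (T : Finset (Fin v)) : ℤ :=
  d i T + ∑ s ∈ range n, chg2 (fun p S T => effS p S T) (F s) i T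

/-- Correction of the whole discrepancy. -/
theorem correct_lin (t k v : ℕ) (hkt : 2 * t ≤ k)
    (hC : ∀ s ≤ t, 0 < (v - 2 * s).choose (k - s))
    (d : ZMod 3 → Finset (Fin v) → ℤ)
    (hsum : ∀ T : Finset (Fin v), T.card ≤ t → ∑ i, d i T = 0)
    (hrel : ∀ i, Rel t k (d i))
    (hbd : ∀ i, ∀ T : Finset (Fin v), T.card ≤ t → |(d i T : ℝ)| ≤ 7 * (lI t v : ℕ))
    (Y : ℕ → Finset (Fin v) → Finset (Fin v) → ZMod 3 → Finset (Finset (Fin v)))
    (hY1 : ∀ s ≤ t, ∀ A B : Finset (Fin v), A.card = s → B.card = s → Disjoint A B → ∀ a,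
      ∀ S ∈ Y s A B a, S.card = k - s ∧ Disjoint S (A ∪ B))
    (hY2 : ∀ s ≤ t, ∀ A B : Finset (Fin v), A.card = s → B.card = s → Disjoint A B → ∀ a,
      ∀ R : Finset (Fin v), R.card ≤ t → Disjoint R (A ∪ B) →
        |(((Y s A B a).filter (fun S => R ⊆ S)).card : ℝ) - (lN t v : ℕ) * mu k v s R.card| ≤
          2 * (lI t v : ℕ)) :
    ∃ F : (s : ℕ) → (Fin s → Fin v) × (Fin s → Fin v) → ZMod 3 → Finset (Finset (Fin v)),
      (∀ s p a, F s p a ⊆ Y s (sideA p) (sideB p) a) ∧ (∀ s p a, ¬ Oct p → F s p a = ∅) ∧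
      (∀ s p p' a, p ≠ p' → sideA p = sideA p' → sideB p = sideB p' →
        Disjoint (F s p a) (F s p' a)) ∧
      ∀ i, ∀ T : Finset (Fin v), T.card ≤ t →
        d i T + ∑ s ∈ range (t + 1), chg2 (fun p S T => effS p S T) (F s) i T = 0 := by
  have claim : ∀ n ≤ t + 1, ∃ F : (s : ℕ) → (Fin s → Fin v) × (Fin s → Fin v) → ZMod 3 →
      Finset (Finset (Fin v)),
      (∀ s p a, F s p a ⊆ Y s (sideA p) (sideB p) a) ∧ (∀ s p a, ¬ Oct p → F s p a = ∅) ∧
      (∀ s p p' a, p ≠ p' → sideA p = sideA p' → sideB p = sideB p' →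
        Disjoint (F s p a) (F s p' a)) ∧
      (∀ T : Finset (Fin v), T.card ≤ t → ∑ i, cD3 d F n i T = 0) ∧
      (∀ i, Rel t k (cD3 d F n i)) ∧
      (∀ i, ∀ T : Finset (Fin v), T.card < n → cD3 d F n i T = 0) ∧
      ∃ (A : ZMod 3 → Finset (Fin v) → ℝ) (N : ZMod 3 → ℕ → Finset (Fin v) → ℝ),
        (∀ i, ∀ T : Finset (Fin v), T.card ≤ t → (cD3 d F n i T : ℝ) =
          A i T - ∑ j ∈ range n, mu k v j (T.card - j) * ∑ U ∈ powersetCard j T, N i j U) ∧
        ∀ i, ∀ T : Finset (Fin v), T.card ≤ t → |A i T| ≤ (7 * (lI t v : ℕ)) * (n + 1) := by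
    intro n
    induction n with
    | zero =>
      intro _
      have e0 : ∀ i T, cD3 d (fun _ _ _ => ∅) 0 i T = d i T := by
        intro i T
        unfold cD3
        simp
      refine ⟨fun _ _ _ => ∅, fun _ _ _ => empty_subset _, fun _ _ _ _ => rfl,
        fun _ _ _ _ _ _ _ => disjoint_empty_left _, ?_, ?_, ?_,
        fun i T => (d i T : ℝ), fun _ _ _ => 0, ?_, ?_⟩
      · intro T hT
        simp only [e0]
        exact hsum T hT
      · intro i
        have : cD3 d (fun _ _ _ => ∅) 0 i = d i := funext fun T => e0 i T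
        rw [this]
        exact hrel i
      · intro i T hT
        exact absurd hT (Nat.not_lt_zero _)
      · intro i T hT
        rw [e0]
        simp
      · intro i T hT
        have h1 := hbd i T hT
        simpa using h1
    | succ s ih =>
      intro hs
      obtain ⟨F, hF1, hF2, hF7, hF3, hF4, hF5, A, N, hA1, hA2⟩ := ih (by omega)
      have hst : s ≤ t := by omega
      -- the norm of the discrepancy at level `s`
      have hnorm : ∀ i, ∑ U ∈ powersetCard s (univ : Finset (Fin v)), |cD3 d F s i U| ≤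
          ((v.choose s * (7 * (t + 1) * lI t v) : ℕ) : ℤ) := by
        intro i
        have h1 := orth_bound s (cD3 d F s i) (A i) (fun j U => mu k v j (s - j) * N i j U)
          ((7 * (lI t v : ℕ)) * (s + 1)) (by
            intro R hR
            rw [hF4 i s hst R hR.le, hF5 i R hR, mul_zero])
          (by
            intro T hT
            rw [hA1 i T (by omega), hT]
            congr 1
            refine sum_congr rfl fun j _ => ?_
            rw [mul_sum])
          (fun T hT => hA2 i T (by omega))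
        rw [Fintype.card_fin] at h1
        have h2 : ((v.choose s : ℕ) : ℝ) * ((7 * (lI t v : ℕ)) * (s + 1)) ≤
            ((v.choose s : ℕ) : ℝ) * (7 * (t + 1) * (lI t v : ℕ)) := by
          have h4 : (s : ℝ) ≤ (t : ℝ) := by exact_mod_cast hst
          refine mul_le_mul_of_nonneg_left ?_ (Nat.cast_nonneg _)
          have h5 : (0 : ℝ) ≤ (lI t v : ℕ) := Nat.cast_nonneg _
          nlinarith
        have h7 : ((∑ U ∈ powersetCard s (univ : Finset (Fin v)), |cD3 d F s i U| : ℤ) : ℝ) ≤
            (((v.choose s * (7 * (t + 1) * lI t v) : ℕ) : ℤ) : ℝ) := by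
          push_cast
          exact h1.trans h2
        exact_mod_cast h7
      obtain ⟨f, hf1, hf2, hf7, hf3, hf4, hf5, hf6⟩ := stage_lin t k v s hst hkt (hC s hst)
        (cD3 d F s) hF3 hF4 hF5 hnorm (Y s) (hY1 s hst) (hY2 s hst)
      have hstep : ∀ i T, cD3 d (Function.update F s f) (s + 1) i T =
          cD3 d F s i T + chg2 (fun p S T => effS p S T) f i T := by
        intro i T
        unfold cD3
        rw [Finset.sum_range_succ, Function.update_self, ← add_assoc]
        congr 2
        refine Finset.sum_congr rfl fun s' hs' => ?_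
        rw [mem_range] at hs'
        rw [Function.update_of_ne (by omega)]
      refine ⟨Function.update F s f, ?_, ?_, ?_, ?_, ?_, ?_, fun i T => A i T +
        ((chg2 (fun p S T => effS p S T) f i T : ℝ) +
          mu k v s (T.card - s) * ∑ U ∈ powersetCard s T, (cD3 d F s i U : ℝ)),
        fun i => Function.update (N i) s (fun U => (cD3 d F s i U : ℝ)), ?_, ?_⟩
      · intro s'
        by_cases h : s' = s
        · subst h
          rw [Function.update_self]
          exact hf1
        · rw [Function.update_of_ne h]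
          exact hF1 s'
      · intro s'
        by_cases h : s' = s
        · subst h
          rw [Function.update_self]
          exact hf2
        · rw [Function.update_of_ne h]
          exact hF2 s'
      · intro s'
        by_cases h : s' = s
        · subst h
          rw [Function.update_self]
          exact hf7
        · rw [Function.update_of_ne h]
          exact hF7 s'
      · intro T hT
        simp only [hstep]
        rw [Finset.sum_add_distrib, hF3 T hT, hf3, add_zero]
      · intro i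
        have : cD3 d (Function.update F s f) (s + 1) i =
            fun T => cD3 d F s i T + chg2 (fun p S T => effS p S T) f i T :=
          funext fun T => hstep i T
        rw [this]
        intro s' hs' R hR
        rw [Finset.sum_add_distrib, hF4 i s' hs' R hR, hf4 i s' hs' R hR, mul_add]
      · intro i T hT
        rw [hstep]
        exact hf5 i T hT
      · intro i T hT
        rw [hstep, Finset.sum_range_succ]
        simp only [Function.update_self]
        have h1 : ∑ j ∈ range s, mu k v j (T.card - j) * ∑ U ∈ powersetCard j T,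
            Function.update (N i) s (fun U => (cD3 d F s i U : ℝ)) j U =
            ∑ j ∈ range s, mu k v j (T.card - j) * ∑ U ∈ powersetCard j T, N i j U := by
          refine sum_congr rfl fun j hj => ?_
          rw [mem_range] at hj
          rw [Function.update_of_ne (by omega)]
        rw [h1, Int.cast_add, hA1 i T hT]
        ring
      · intro i T hT
        refine (abs_add_le _ _).trans ?_
        have h1 := hA2 i T hT
        have h2 := hf6 i T hT
        push_cast
        linarith
  obtain ⟨F, h1, h2, h3, _, _, h5, _⟩ := claim (t + 1) le_rfl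
  exact ⟨F, h1, h2, h3, fun i T hT => h5 i T (Nat.lt_succ_of_le hT)⟩

end

end Pool.Agent.LS3
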