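import Pool.Agent.Lib.MP_2c0b9b_co_LB.RepA
import Pool.Agent.Lib.MP_2c0b9b_co.Round

/-!
# Vertices, and the integral part of a real combination of octahedra
-/

set_option autoImplicit false

open Finset

namespace Pool.Agent.LS3

/-- A nontrivial relation supported on a large finite set. -/
private theorem IntPart_rel {Ω ι : Type*} [DecidableEq Ω] (R : Finset Ω) (I : Finset ι)
    (a : Ω → ι → ℝ) (hc : I.card < R.card) :
    ∃ l : Ω → ℝ, (∀ B, B ∉ R → l B = 0) ∧ (∃ B ∈ R, l B ≠ 0) ∧
      ∀ T ∈ I, ∑ B ∈ R, l B * a B T = 0 := by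
  classical
  let L : (R → ℝ) →ₗ[ℝ] (I → ℝ) :=
    { toFun := fun l T => ∑ B : R, l B * a B.1 T.1
      map_add' := by
        intro x y
        funext T
        simp [add_mul, Finset.sum_add_distrib]
      map_smul' := by
        intro c x
        funext T
        simp [Finset.mul_sum, mul_assoc] }
  have hker : LinearMap.ker L ≠ ⊥ := by
    apply LinearMap.ker_ne_bot_of_finrank_lt
    simpa using hc
  obtain ⟨l, hl, hl0⟩ := Submodule.exists_mem_ne_zero_of_ne_bot hker
  refine ⟨fun B => if h : B ∈ R then l ⟨B, h⟩ else 0, ?_, ?_, ?_⟩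
  · intro B hB
    simp [hB]
  · by_contra hcon
    push Not at hcon
    apply hl0
    funext B
    have := hcon B.1 B.2
    simpa [B.2] using this
  · intro T hT
    have h1 : L l = 0 := hl
    have h2 := congrFun h1 ⟨T, hT⟩
    have h3 : ∑ B : R, l B * a B.1 T = 0 := h2
    rw [← Finset.sum_attach]
    rw [← h3]
    refine Finset.sum_congr rfl fun B _ => ?_
    simp [B.2]

theorem vertex {Ω ι : Type*} [DecidableEq Ω] (S : Finset Ω) (I : Finset ι) (a : Ω → ι → ℝ)
    (x : Ω → ℝ) (hx : ∀ B ∈ S, 0 ≤ x B ∧ x B ≤ 1) :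
    ∃ y : Ω → ℝ, (∀ B ∈ S, 0 ≤ y B ∧ y B ≤ 1) ∧
      (∀ T ∈ I, ∑ B ∈ S, y B * a B T = ∑ B ∈ S, x B * a B T) ∧
      (S.filter (fun B => y B ≠ 0 ∧ y B ≠ 1)).card ≤ I.card := by
  classical
  let P : (Ω → ℝ) → Prop := fun y => (∀ B ∈ S, 0 ≤ y B ∧ y B ≤ 1) ∧
    ∀ T ∈ I, ∑ B ∈ S, y B * a B T = ∑ B ∈ S, x B * a B T
  let fr : (Ω → ℝ) → Finset Ω := fun y => S.filter fun B => y B ≠ 0 ∧ y B ≠ 1
  have hex : ∃ n, ∃ y, P y ∧ (fr y).card = n := ⟨_, x, ⟨hx, fun _ _ => rfl⟩, rfl⟩
  obtain ⟨y, hPy, hyc⟩ := Nat.find_spec hex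
  have hmin : ∀ z, P z → (fr y).card ≤ (fr z).card := by
    intro z hz
    rw [hyc]
    exact Nat.find_min' hex ⟨z, hz, rfl⟩
  have hcard : (fr y).card ≤ I.card := by
    by_contra hcon
    push Not at hcon
    obtain ⟨l, hl0, ⟨B₀, hB₀, hlB₀⟩, hrel⟩ := IntPart_rel (fr y) I a hcon
    have hfrS : fr y ⊆ S := Finset.filter_subset _ _
    have hint : ∀ B ∈ fr y, 0 < y B ∧ y B < 1 := by
      intro B hB
      have h1 := hPy.1 B (hfrS hB)
      have h2 := (Finset.mem_filter.mp hB).2
      exact ⟨lt_of_le_of_ne h1.1 (Ne.symm h2.1), lt_of_le_of_ne h1.2 h2.2⟩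
    let c : Ω → ℝ := fun B => if 0 < l B then (1 - y B) / l B else y B / (-l B)
    obtain ⟨B₁, hB₁, hB₁min⟩ := Finset.exists_min_image ((fr y).filter fun B => l B ≠ 0) c
      ⟨B₀, Finset.mem_filter.mpr ⟨hB₀, hlB₀⟩⟩
    rw [Finset.mem_filter] at hB₁
    have hcpos : 0 < c B₁ := by
      have h1 := hint B₁ hB₁.1
      simp only [c]
      split_ifs with h
      · exact div_pos (by linarith) h
      · have h2 : l B₁ < 0 := lt_of_le_of_ne (not_lt.mp h) hB₁.2
        exact div_pos h1.1 (by linarith)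
    let z : Ω → ℝ := fun B => y B + c B₁ * l B
    have hzsum : ∀ T ∈ I, ∑ B ∈ S, z B * a B T = ∑ B ∈ S, x B * a B T := by
      intro T hT
      rw [← hPy.2 T hT]
      have h1 : ∑ B ∈ S, l B * a B T = 0 := by
        rw [← hrel T hT]
        symm
        apply Finset.sum_subset hfrS
        intro B _ hB
        rw [hl0 B hB, zero_mul]
      have h2 : ∑ B ∈ S, z B * a B T = ∑ B ∈ S, y B * a B T + c B₁ * ∑ B ∈ S, l B * a B T := by
        rw [Finset.mul_sum, ← Finset.sum_add_distrib]
        refine Finset.sum_congr rfl fun B _ => ?_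
        simp only [z]
        ring
      rw [h2, h1, mul_zero, add_zero]
    have hzout : ∀ B, B ∉ fr y → z B = y B := by
      intro B hB
      simp only [z]
      rw [hl0 B hB, mul_zero, add_zero]
    have hzbd : ∀ B ∈ S, 0 ≤ z B ∧ z B ≤ 1 := by
      intro B hB
      by_cases hBf : B ∈ fr y
      · have h1 := hint B hBf
        by_cases hlB : l B = 0
        · simp only [z, hlB, mul_zero, add_zero]
          exact ⟨h1.1.le, h1.2.le⟩
        · have h2 := hB₁min B (Finset.mem_filter.mpr ⟨hBf, hlB⟩)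
          have h3 : c B = if 0 < l B then (1 - y B) / l B else y B / (-l B) := rfl
          rw [h3] at h2
          simp only [z]
          split_ifs at h2 with h
          · rw [le_div_iff₀ h] at h2
            have : 0 < c B₁ * l B := mul_pos hcpos h
            constructor <;> linarith
          · have h4 : l B < 0 := lt_of_le_of_ne (not_lt.mp h) hlB
            rw [le_div_iff₀ (by linarith)] at h2
            have : c B₁ * l B < 0 := mul_neg_of_pos_of_neg hcpos h4
            constructor <;> linarith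
      · rw [hzout B hBf]
        exact hPy.1 B hB
    have hzfr : fr z ⊂ fr y := by
      rw [Finset.ssubset_iff_of_subset]
      · refine ⟨B₁, hB₁.1, ?_⟩
        intro hB
        have h2 := (Finset.mem_filter.mp hB).2
        have h3 : c B₁ = if 0 < l B₁ then (1 - y B₁) / l B₁ else y B₁ / (-l B₁) := rfl
        have h4 : z B₁ = y B₁ + c B₁ * l B₁ := rfl
        by_cases h : 0 < l B₁
        · rw [if_pos h] at h3
          rw [h3, div_mul_cancel₀ _ h.ne'] at h4
          exact h2.2 (by rw [h4]; ring)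
        · rw [if_neg h] at h3
          have h5 : l B₁ ≠ 0 := hB₁.2
          apply h2.1
          rw [h4, h3]
          field_simp
          ring
      · intro B hB
        by_contra hBf
        have h1 := Finset.mem_filter.mp hB
        rw [hzout B hBf] at h1
        exact hBf (Finset.mem_filter.mpr h1)
    have h1 := hmin z ⟨hzbd, hzsum⟩
    have h2 := Finset.card_lt_card hzfr
    omega
  exact ⟨y, hPy.1, hPy.2, hcard⟩

private theorem IntPart_eps (r : ℝ) :
    (((if r < 0 then (-1 : ℤ) else 1 : ℤ) : ℝ) * |r| = r) ∧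
      |((if r < 0 then (-1 : ℤ) else 1 : ℤ) : ℝ)| = 1 := by
  split_ifs with h
  · rw [abs_of_neg h]
    constructor
    · push_cast
      ring
    · norm_num
  · rw [abs_of_nonneg (not_lt.1 h)]
    constructor
    · push_cast
      ring
    · norm_num

theorem int_part {α : Type*} [DecidableEq α] [Fintype α] (s : ℕ) (X : Finset α)
    (f : Finset α → ℤ) (M : ℝ) (h : RRep s X (fun U => (f U : ℝ)) M) :
    ∃ g : Finset α → ℤ, ZRep s X g M ∧
      RRep s X (fun U => ((f U - g U : ℤ) : ℝ)) ((X.card.choose s : ℝ) + 1) := by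
  classical
  obtain ⟨r, h1, h2, h3⟩ := h
  let Ω := (Fin s → α) × (Fin s → α)
  let S : Finset Ω := univ.filter fun p => r p ≠ 0
  let ez : Ω → ℤ := fun p => if r p < 0 then (-1 : ℤ) else 1
  have hez : ∀ p, ((ez p : ℤ) : ℝ) * |r p| = r p ∧ |((ez p : ℤ) : ℝ)| = 1 := fun p =>
    IntPart_eps (r p)
  let a : Ω → Option (Finset α) → ℝ := fun p o => match o with
    | none => 1
    | some T => (ez p : ℝ) * (pod p T : ℝ)
  obtain ⟨y, hy, hys, hyc⟩ := vertex S (Finset.insertNone (powersetCard s X)) a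
    (fun p => Int.fract |r p|) (fun p _ => ⟨Int.fract_nonneg _, (Int.fract_lt_one _).le⟩)
  have hcI : (Finset.insertNone (powersetCard s X)).card = X.card.choose s + 1 := by
    rw [Finset.card_insertNone, card_powersetCard]
  rw [hcI] at hyc
  let b : Ω → ℤ := fun p => if y p = 1 then 1 else 0
  have hb : ∀ p, ((b p : ℤ) : ℝ) = if y p = 1 then (1 : ℝ) else 0 := by
    intro p
    simp only [b]
    split_ifs <;> simp
  let c : Ω → ℤ := fun p => if p ∈ S then ez p * (⌊|r p|⌋ + b p) else 0
  have hmem : ∀ p, p ∈ S ↔ r p ≠ 0 := fun p => by simp [S]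
  have hnone : ∑ p ∈ S, y p = ∑ p ∈ S, Int.fract |r p| := by
    have h4 := hys none (Finset.none_mem_insertNone)
    simpa [a] using h4
  have hout : ∀ F : Ω → ℝ, (∀ p, p ∉ S → F p = 0) → ∑ p, F p = ∑ p ∈ S, F p := by
    intro F hF
    exact (sum_subset (subset_univ S) fun p _ hp => hF p hp).symm
  refine ⟨fun U => ∑ p, c p * pod p U, ⟨c, ?_, fun U _ => rfl, ?_⟩,
    ⟨fun p => if p ∈ S then (ez p : ℝ) * (y p - b p) else 0, ?_, ?_, ?_⟩⟩
  · intro p hp
    by_cases hS : p ∈ S
    · exact h1 p ((hmem p).1 hS)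
    · exact absurd (if_neg hS) hp
  · calc ∑ p, |(c p : ℝ)| = ∑ p ∈ S, |(c p : ℝ)| := by
          refine hout _ fun p hp => ?_
          simp only [c, if_neg hp, Int.cast_zero, abs_zero]
      _ ≤ ∑ p ∈ S, ((⌊|r p|⌋ : ℝ) + y p) := by
          refine sum_le_sum fun p hp => ?_
          simp only [c, if_pos hp]
          have h4 : (0 : ℝ) ≤ (⌊|r p|⌋ : ℝ) := by
            exact_mod_cast Int.floor_nonneg.2 (abs_nonneg _)
          rw [Int.cast_mul, abs_mul, (hez p).2, one_mul, Int.cast_add, hb]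
          split_ifs with h5
          · rw [abs_of_nonneg (by linarith), h5]
          · rw [add_zero, abs_of_nonneg h4]
            have := (hy p hp).1
            linarith
      _ = ∑ p ∈ S, |r p| := by
          rw [sum_add_distrib, hnone, ← sum_add_distrib]
          exact sum_congr rfl fun p _ => Int.floor_add_fract _
      _ = ∑ p, |r p| := by
          refine (hout _ fun p hp => ?_).symm
          have h4 : r p = 0 := by
            by_contra h5
            exact hp ((hmem p).2 h5)
          simp only [h4, abs_zero]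
      _ ≤ M := h3
  · intro p hp
    by_cases hS : p ∈ S
    · exact h1 p ((hmem p).1 hS)
    · exact absurd (if_neg hS) hp
  · intro U hU
    have hU' := hys (some U) (Finset.some_mem_insertNone.2 hU)
    have hf : (f U : ℝ) = ∑ p ∈ S, r p * (pod p U : ℝ) := by
      have h4 := h2 U hU
      simp only at h4
      rw [h4]
      refine hout _ fun p hp => ?_
      have h5 : r p = 0 := by
        by_contra h6
        exact hp ((hmem p).2 h6)
      simp only [h5, zero_mul]
    have hg : (((∑ p, c p * pod p U : ℤ)) : ℝ) =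
        ∑ p ∈ S, (ez p : ℝ) * ((⌊|r p|⌋ : ℝ) + b p) * (pod p U : ℝ) := by
      rw [Int.cast_sum]
      rw [hout _ fun p hp => by simp only [c, if_neg hp, zero_mul, Int.cast_zero]]
      refine sum_congr rfl fun p hp => ?_
      simp only [c, if_pos hp]
      push_cast
      ring
    have hr : ∑ p, (if p ∈ S then (ez p : ℝ) * (y p - b p) else 0) * (pod p U : ℝ) =
        ∑ p ∈ S, (ez p : ℝ) * (y p - b p) * (pod p U : ℝ) := by
      rw [hout _ fun p hp => by rw [if_neg hp, zero_mul]]
      exact sum_congr rfl fun p hp => by rw [if_pos hp]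
    have hfr : ∑ p ∈ S, r p * (pod p U : ℝ) = ∑ p ∈ S, (⌊|r p|⌋ : ℝ) * a p (some U) +
        ∑ p ∈ S, Int.fract |r p| * a p (some U) := by
      rw [← sum_add_distrib]
      refine sum_congr rfl fun p _ => ?_
      have h4 : a p (some U) = (ez p : ℝ) * (pod p U : ℝ) := rfl
      rw [← add_mul, Int.floor_add_fract, h4, ← mul_assoc, mul_comm |r p|, (hez p).1]
    simp only
    rw [Int.cast_sub, hg, hf, hr, hfr, ← hU', ← sum_add_distrib, ← sum_sub_distrib]
    refine sum_congr rfl fun p _ => ?_
    have h4 : a p (some U) = (ez p : ℝ) * (pod p U : ℝ) := rfl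
    rw [h4]
    ring
  · calc ∑ p, |if p ∈ S then (ez p : ℝ) * (y p - b p) else 0|
        = ∑ p ∈ S, |if p ∈ S then (ez p : ℝ) * (y p - b p) else 0| := by
          refine hout _ fun p hp => ?_
          simp only [if_neg hp, abs_zero]
      _ ≤ ∑ p ∈ S, (if y p ≠ 0 ∧ y p ≠ 1 then (1 : ℝ) else 0) := by
          refine sum_le_sum fun p hp => ?_
          rw [if_pos hp, abs_mul, (hez p).2, one_mul, hb]
          have h4 := hy p hp
          by_cases h5 : y p = 1
          · simp [h5]
          · by_cases h6 : y p = 0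
            · simp [h6]
            · rw [if_neg h5, if_pos ⟨h6, h5⟩, sub_zero, abs_of_nonneg h4.1]
              exact h4.2
      _ = ((S.filter fun p => y p ≠ 0 ∧ y p ≠ 1).card : ℝ) := by
          rw [sum_boole]
      _ ≤ (X.card.choose s : ℝ) + 1 := by exact_mod_cast hyc

end Pool.Agent.LS3
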