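import Pool.Agent.Lib.MP_2c0b9b_co_LB.RepA

/-!
# Removing a point: retraction and link
-/

set_option autoImplicit false

open Finset

namespace Pool.Agent.LS3

private theorem Retr_pod_insert {β : Type*} [DecidableEq β] {s : ℕ} {x y : β}
    {q : (Fin s → β) × (Fin s → β)} (h : Oct (ocons x y q)) {U : Finset β} (hU : x ∉ U) :
    pod (ocons x y q) (insert x U) = pod q U := by
  obtain ⟨hq, hxy, hxq, hyq⟩ := oct_ocons.1 h
  have h2 : (if y ∈ insert x U then pod q ((insert x U).erase y) else 0) = 0 := by
    split_ifs with hy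
    · by_contra hne
      exact hxq ((pod_supp hq hne).1 (mem_erase.2 ⟨hxy, mem_insert_self x U⟩))
    · rfl
  rw [pod_ocons h, if_pos (mem_insert_self x U), erase_insert hU, h2, sub_zero]

private theorem Retr_form {β : Type*} [DecidableEq β] {s : ℕ}
    (q : (Fin s → β) × (Fin s → β)) (U : Finset β) :
    ∑ z ∈ U ∩ opts q, pod q (U.erase z) =
      ∑ z ∈ opts q, if z ∈ U then pod q (U.erase z) else 0 := by
  rw [inter_comm, ← filter_mem_eq_inter, sum_filter]

private theorem Retr_sum {β : Type*} [DecidableEq β] {s : ℕ} :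
    ∀ (q : (Fin s → β) × (Fin s → β)), Oct q → ∀ U : Finset β,
      ∑ z ∈ U ∩ opts q, pod q (U.erase z) = 0 := by
  induction s with
  | zero =>
    intro q _ U
    have h : opts q = ∅ := by
      unfold opts
      rw [image_eq_empty, univ_eq_empty]
    rw [h, inter_empty, sum_empty]
  | succ s ih =>
    intro q hq U
    obtain ⟨b, c, q', rfl⟩ : ∃ (b c : β) (q' : (Fin s → β) × (Fin s → β)), q = ocons b c q' := by
      refine ⟨q.1 0, q.2 0, (Fin.tail q.1, Fin.tail q.2), ?_⟩
      unfold ocons
      rw [Fin.cons_self_tail, Fin.cons_self_tail]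
    obtain ⟨hq', hbc, hbq, hcq⟩ := oct_ocons.1 hq
    have hB : ∀ b' : β, b' ∉ opts q' →
        ∑ z ∈ opts q', (if z ∈ U then pod q' ((U.erase z).erase b') else 0) = 0 := by
      intro b' hb'
      have h1 := ih q' hq' (U.erase b')
      rw [Retr_form] at h1
      refine Eq.trans (sum_congr rfl fun z hz => ?_) h1
      have hzb : z ≠ b' := fun h => hb' (h ▸ hz)
      by_cases hzU : z ∈ U
      · rw [if_pos hzU, if_pos (mem_erase.2 ⟨hzb, hzU⟩), erase_right_comm]
      · rw [if_neg hzU, if_neg fun h => hzU (mem_of_mem_erase h)]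
    have hT : ∑ z ∈ opts q', (if z ∈ U then pod (ocons b c q') (U.erase z) else 0) = 0 := by
      have h1 : ∀ z ∈ opts q', (if z ∈ U then pod (ocons b c q') (U.erase z) else 0) =
          (if b ∈ U then (if z ∈ U then pod q' ((U.erase z).erase b) else 0) else 0) -
            (if c ∈ U then (if z ∈ U then pod q' ((U.erase z).erase c) else 0) else 0) := by
        intro z hz
        have hzb : b ≠ z := fun h => hbq (h ▸ hz)
        have hzc : c ≠ z := fun h => hcq (h ▸ hz)
        by_cases hzU : z ∈ U
        · simp only [if_pos hzU, pod_ocons hq, mem_erase, ne_eq, hzb, hzc, not_false_eq_true,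
            true_and]
        · simp only [if_neg hzU, ite_self, sub_zero]
      rw [sum_congr rfl h1, sum_sub_distrib]
      by_cases hb : b ∈ U <;> by_cases hc : c ∈ U
      · simp only [if_pos hb, if_pos hc]
        rw [hB b hbq, hB c hcq, sub_zero]
      · simp only [if_pos hb, if_neg hc, sum_const_zero]
        rw [hB b hbq, sub_zero]
      · simp only [if_neg hb, if_pos hc, sum_const_zero]
        rw [hB c hcq, sub_zero]
      · simp only [if_neg hb, if_neg hc, sum_const_zero, sub_zero]
    rw [Retr_form, opts_ocons, sum_insert, sum_insert hcq, hT, add_zero]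
    · have g1 : pod (ocons b c q') (U.erase b) =
          -(if c ∈ U then pod q' ((U.erase b).erase c) else 0) := by
        rw [pod_ocons hq, if_neg (notMem_erase b U), zero_sub]
        congr 1
        by_cases hc : c ∈ U
        · rw [if_pos hc, if_pos (mem_erase.2 ⟨hbc.symm, hc⟩)]
        · rw [if_neg hc, if_neg fun h => hc (mem_of_mem_erase h)]
      have g2 : pod (ocons b c q') (U.erase c) =
          if b ∈ U then pod q' ((U.erase b).erase c) else 0 := by
        rw [pod_ocons hq, if_neg (notMem_erase c U), sub_zero]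
        by_cases hb : b ∈ U
        · rw [if_pos hb, if_pos (mem_erase.2 ⟨hbc, hb⟩), erase_right_comm]
        · rw [if_neg hb, if_neg fun h => hb (mem_of_mem_erase h)]
      rw [g1, g2]
      by_cases hb : b ∈ U <;> by_cases hc : c ∈ U
      · simp only [if_pos hb, if_pos hc]
        ring
      · simp only [if_pos hb, if_neg hc]
        ring
      · simp only [if_neg hb, if_pos hc]
        ring
      · simp only [if_neg hb, if_neg hc]
        ring
    · rw [mem_insert, not_or]
      exact ⟨hbc, hbq⟩

private theorem Retr_link_one {β : Type*} [DecidableEq β] [Fintype β] {s : ℕ} {X : Finset β}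
    {p : (Fin (s + 1) → β) × (Fin (s + 1) → β)} (hp : OctIn X p) {x : β} :
    RRep s (X.erase x) (fun U => (pod p (insert x U) : ℝ)) 1 := by
  obtain ⟨ho, hsub⟩ := octIn_iff.1 hp
  by_cases hx : x ∈ opts p
  · obtain ⟨y, q, ε, hε, h1, h2, h3⟩ := pod_at ho hx
    obtain ⟨hq, hxy, hxq, hyq⟩ := oct_ocons.1 h1
    have hqX : OctIn (X.erase x) q := by
      rw [octIn_iff]
      refine ⟨hq, fun z hz => mem_erase.2 ⟨fun h => hxq (h ▸ hz), hsub ?_⟩⟩
      rw [← h2, opts_ocons]
      exact mem_insert_of_mem (mem_insert_of_mem hz)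
    refine ((RRep.single hqX).smul (ε : ℝ)).congr ?_ ?_
    · intro U hU
      have hxU : x ∉ U := fun h => notMem_erase x X ((mem_powersetCard.1 hU).1 h)
      rw [h3, Retr_pod_insert h1 hxU]
      push_cast
      ring
    · rcases hε with rfl | rfl
      · simp
      · simp
  · refine (RRep.zero (s := s) (X.erase x)).congr ?_ zero_le_one
    intro U hU
    have h1 : pod p (insert x U) = 0 := by
      by_contra hne
      exact hx ((pod_supp ho hne).1 (mem_insert_self x U))
    rw [h1]
    simp

private theorem Retr_core {β : Type*} [DecidableEq β] [Fintype β] {s : ℕ} {X : Finset β}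
    {p : (Fin (s + 1) → β) × (Fin (s + 1) → β)} (hp : OctIn X p) {x : β} {N : ℝ}
    (hN : N = (X.card : ℝ) - 2 * ((s : ℝ) + 1) + 1) (hX : 2 * (s + 1) ≤ X.card) :
    RRep (s + 1) (X.erase x)
      (fun U => (pod p U : ℝ) + N⁻¹ * ∑ z ∈ U, (pod p (insert x (U.erase z)) : ℝ)) 1 := by
  obtain ⟨ho, hsub⟩ := octIn_iff.1 hp
  by_cases hx : x ∈ opts p
  swap
  · have hpX : OctIn (X.erase x) p := by
      rw [octIn_iff]
      exact ⟨ho, fun z hz => mem_erase.2 ⟨fun h => hx (h ▸ hz), hsub hz⟩⟩
    refine (RRep.single hpX).congr ?_ (le_refl _)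
    intro U hU
    have h1 : ∀ z ∈ U, (pod p (insert x (U.erase z)) : ℝ) = 0 := by
      intro z _
      have h2 : pod p (insert x (U.erase z)) = 0 := by
        by_contra hne
        exact hx ((pod_supp ho hne).1 (mem_insert_self x _))
      rw [h2]
      simp
    rw [sum_congr rfl h1]
    simp
  · obtain ⟨a, q, ε, hε, h1, h2, h3⟩ := pod_at ho hx
    obtain ⟨hq, hxa, hxq, haq⟩ := oct_ocons.1 h1
    have hopt : opts p = insert x (insert a (opts q)) := by rw [← h2, opts_ocons]
    have hcard : ((X \ opts p).card : ℝ) = N - 1 := by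
      rw [card_sdiff_of_subset hsub, opts_card ho, Nat.cast_sub hX, hN]
      push_cast
      ring
    have hXc : (2 : ℝ) * ((s : ℝ) + 1) ≤ (X.card : ℝ) := by exact_mod_cast hX
    have hN1 : 1 ≤ N := by
      rw [hN]
      linarith
    have hN0 : 0 < N := by linarith
    have haX : a ∈ X.erase x := by
      refine mem_erase.2 ⟨hxa.symm, hsub ?_⟩
      rw [hopt]
      exact mem_insert_of_mem (mem_insert_self a _)
    have hqX : ∀ z ∈ opts q, z ∈ X.erase x := by
      intro z hz
      refine mem_erase.2 ⟨fun h => hxq (h ▸ hz), hsub ?_⟩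
      rw [hopt]
      exact mem_insert_of_mem (mem_insert_of_mem hz)
    have hoy : ∀ y ∈ X \ opts p, Oct (ocons y a q) := by
      intro y hy
      rw [mem_sdiff, hopt] at hy
      obtain ⟨-, hy⟩ := hy
      simp only [mem_insert, not_or] at hy
      exact oct_ocons.2 ⟨hq, hy.2.1, hy.2.2, haq⟩
    have hsum : RRep (s + 1) (X.erase x)
        (fun U => ∑ y ∈ X \ opts p, (pod (ocons y a q) U : ℝ)) (∑ _y ∈ X \ opts p, (1 : ℝ)) := by
      refine RRep.sum _ fun y hy => RRep.single ?_
      rw [octIn_iff]
      refine ⟨hoy y hy, ?_⟩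
      rw [opts_ocons]
      intro z hz
      rw [mem_insert, mem_insert] at hz
      rcases hz with rfl | rfl | hz
      · rw [mem_sdiff] at hy
        exact mem_erase.2 ⟨fun h => hy.2 (h ▸ hx), hy.1⟩
      · exact haX
      · exact hqX z hz
    refine (hsum.smul ((ε : ℝ) * N⁻¹)).congr ?_ ?_
    · intro U hU
      have hxU : x ∉ U := fun h => notMem_erase x X ((mem_powersetCard.1 hU).1 h)
      have hUX : U ⊆ X := ((mem_powersetCard.1 hU).1).trans (erase_subset x X)
      -- the value of the pod
      have e1 : pod (ocons x a q) U = -(if a ∈ U then pod q (U.erase a) else 0) := by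
        rw [pod_ocons h1, if_neg hxU, zero_sub]
      have e2 : ∀ z ∈ U, pod (ocons x a q) (insert x (U.erase z)) = pod q (U.erase z) :=
        fun z _ => Retr_pod_insert h1 fun h => hxU (mem_of_mem_erase h)
      -- the partition of U
      have e3 : ∑ z ∈ U, pod q (U.erase z) =
          (if a ∈ U then pod q (U.erase a) else 0) +
            ∑ y ∈ X \ opts p, (if y ∈ U then pod q (U.erase y) else 0) := by
        have g1 : ∑ z ∈ U, pod q (U.erase z) =
            ∑ z ∈ X, if z ∈ U then pod q (U.erase z) else 0 := by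
          rw [← sum_filter, filter_mem_eq_inter, inter_eq_right.2 hUX]
        have g2 : ∑ z ∈ X, (if z ∈ U then pod q (U.erase z) else 0) =
            ∑ z ∈ X \ opts p, (if z ∈ U then pod q (U.erase z) else 0) +
              ∑ z ∈ opts p, (if z ∈ U then pod q (U.erase z) else 0) :=
          (sum_sdiff hsub).symm
        have g3 : ∑ z ∈ opts p, (if z ∈ U then pod q (U.erase z) else 0) =
            if a ∈ U then pod q (U.erase a) else 0 := by
          rw [hopt, sum_insert, sum_insert haq, if_neg hxU, ← Retr_form, Retr_sum q hq U,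
            add_zero, zero_add]
          rw [mem_insert, not_or]
          exact ⟨hxa, hxq⟩
        rw [g1, g2, g3, add_comm]
      have e4 : ∑ y ∈ X \ opts p, pod (ocons y a q) U =
          ∑ y ∈ X \ opts p, (if y ∈ U then pod q (U.erase y) else 0) -
            ((X \ opts p).card : ℤ) * (if a ∈ U then pod q (U.erase a) else 0) := by
        rw [sum_congr rfl fun y hy => pod_ocons (hoy y hy) U, sum_sub_distrib, sum_const,
          nsmul_eq_mul]
      have e5 : ((∑ y ∈ X \ opts p, pod (ocons y a q) U : ℤ) : ℝ) =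
          ((∑ z ∈ U, pod q (U.erase z) : ℤ) : ℝ) -
            N * (((if a ∈ U then pod q (U.erase a) else 0 : ℤ)) : ℝ) := by
        rw [e4, e3]
        push_cast [hcard]
        ring
      have e6 : ∑ z ∈ U, (pod p (insert x (U.erase z)) : ℝ) =
          (ε : ℝ) * ((∑ z ∈ U, pod q (U.erase z) : ℤ) : ℝ) := by
        rw [Int.cast_sum, mul_sum]
        refine sum_congr rfl fun z hz => ?_
        rw [h3, e2 z hz]
        push_cast
        ring
      have e7 : (pod p U : ℝ) =
          -((ε : ℝ) * (((if a ∈ U then pod q (U.erase a) else 0 : ℤ)) : ℝ)) := by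
        rw [h3, e1]
        push_cast
        ring
      have e8 : ∑ y ∈ X \ opts p, (pod (ocons y a q) U : ℝ) =
          ((∑ y ∈ X \ opts p, pod (ocons y a q) U : ℤ) : ℝ) := by
        rw [Int.cast_sum]
      rw [e6, e7, e8, e5]
      field_simp
      ring
    · rw [sum_const, nsmul_eq_mul, mul_one, hcard]
      have g1 : |(ε : ℝ) * N⁻¹| = N⁻¹ := by
        have g2 : |(ε : ℝ)| = 1 := by
          rcases hε with rfl | rfl
          · simp
          · simp
        rw [abs_mul, g2, one_mul, abs_of_pos (inv_pos.2 hN0)]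
      rw [g1, inv_mul_le_iff₀ hN0]
      linarith

section
variable {α : Type*} [DecidableEq α] [Fintype α]

/-- Retraction: a function that does not use the point `x` has a representation without `x`. -/
theorem RRep.retract {s : ℕ} {X : Finset α} {f : Finset α → ℝ} {M : ℝ} (h : RRep s X f M)
    {x : α} (hx : x ∈ X) (h0 : ∀ U ∈ powersetCard s X, x ∈ U → f U = 0) :
    RRep s (X.erase x) f M := by
  obtain ⟨r, hr, hf, hM⟩ := h
  rcases s with _ | s
  · refine ⟨r, ?_, ?_, hM⟩
    · intro p hp
      exact ⟨(hr p hp).1, fun i => i.elim0⟩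
    · intro U hU
      rw [powersetCard_zero] at hU
      exact hf U (by rw [powersetCard_zero]; exact hU)
  by_cases hX : 2 * (s + 1) ≤ X.card
  swap
  · have hr0 : ∀ p, r p = 0 := by
      intro p
      by_contra hne
      obtain ⟨ho, hsub⟩ := octIn_iff.1 (hr p hne)
      have h1 := card_le_card hsub
      rw [opts_card ho] at h1
      exact hX h1
    refine (RRep.zero (s := s + 1) (X.erase x)).congr ?_ ?_
    · intro U hU
      rw [hf U (powersetCard_mono (erase_subset x X) hU)]
      refine sum_eq_zero fun p _ => ?_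
      rw [hr0, zero_mul]
    · exact le_trans (sum_nonneg fun p _ => abs_nonneg _) hM
  · set N : ℝ := (X.card : ℝ) - 2 * ((s : ℝ) + 1) + 1 with hN
    have h1 : ∀ p ∈ (univ : Finset ((Fin (s + 1) → α) × (Fin (s + 1) → α))),
        RRep (s + 1) (X.erase x) (fun U => r p * ((pod p U : ℝ) +
          N⁻¹ * ∑ z ∈ U, (pod p (insert x (U.erase z)) : ℝ))) (|r p|) := by
      intro p _
      by_cases hp : r p = 0
      · refine (RRep.zero (s := s + 1) (X.erase x)).congr ?_ (abs_nonneg _)
        intro U _
        rw [hp, zero_mul]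
      · have h2 := (Retr_core (hr p hp) (x := x) hN hX).smul (r p)
        rwa [mul_one] at h2
    refine (RRep.sum univ h1).congr ?_ hM
    intro U hU
    have h2 := hf U (powersetCard_mono (erase_subset x X) hU)
    have h3 : ∀ z ∈ U, ∑ p, r p * (pod p (insert x (U.erase z)) : ℝ) = 0 := by
      intro z hz
      obtain ⟨hUX, hUc⟩ := mem_powersetCard.1 hU
      have hxU : x ∉ U.erase z := fun h => notMem_erase x X (hUX (mem_of_mem_erase h))
      have h4 : insert x (U.erase z) ∈ powersetCard (s + 1) X := by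
        rw [mem_powersetCard]
        refine ⟨insert_subset hx ((erase_subset z U).trans (hUX.trans (erase_subset x X))), ?_⟩
        rw [card_insert_of_notMem hxU, card_erase_of_mem hz, hUc]
        omega
      rw [← hf _ h4]
      exact h0 _ h4 (mem_insert_self x _)
    rw [h2]
    have h5 : ∑ p, r p * ((pod p U : ℝ) + N⁻¹ * ∑ z ∈ U, (pod p (insert x (U.erase z)) : ℝ)) =
        ∑ p, r p * (pod p U : ℝ) +
          N⁻¹ * ∑ z ∈ U, ∑ p, r p * (pod p (insert x (U.erase z)) : ℝ) := by
      rw [sum_comm, mul_sum, ← sum_add_distrib]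
      refine sum_congr rfl fun p _ => ?_
      rw [← mul_sum]
      ring
    rw [h5, sum_eq_zero h3, mul_zero, add_zero]

/-- The link of `x`. -/
theorem RRep.link {s : ℕ} {X : Finset α} {f : Finset α → ℝ} {M : ℝ} (h : RRep (s + 1) X f M)
    {x : α} (hx : x ∈ X) : RRep s (X.erase x) (fun U => f (insert x U)) M := by
  obtain ⟨r, hr, hf, hM⟩ := h
  have h1 : ∀ p ∈ (univ : Finset ((Fin (s + 1) → α) × (Fin (s + 1) → α))),
      RRep s (X.erase x) (fun U => r p * (pod p (insert x U) : ℝ)) (|r p|) := by
    intro p _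
    by_cases hp : r p = 0
    · refine (RRep.zero (s := s) (X.erase x)).congr ?_ (abs_nonneg _)
      intro U _
      rw [hp, zero_mul]
    · have h2 := (Retr_link_one (hr p hp) (x := x)).smul (r p)
      rwa [mul_one] at h2
  refine (RRep.sum univ h1).congr ?_ hM
  intro U hU
  obtain ⟨hUX, hUc⟩ := mem_powersetCard.1 hU
  have hxU : x ∉ U := fun h => notMem_erase x X (hUX h)
  apply hf
  rw [mem_powersetCard]
  refine ⟨insert_subset hx (hUX.trans (erase_subset x X)), ?_⟩
  rw [card_insert_of_notMem hxU, hUc]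

/-- Extension of an integral combination by the point `x`. -/
theorem ZRep.cone {s : ℕ} {X : Finset α} {x : α} (hx : x ∈ X) (hX : 2 * (s + 1) ≤ X.card)
    {g : Finset α → ℤ} {M : ℝ} (h : ZRep s (X.erase x) g M) :
    ∃ f : Finset α → ℤ, ZRep (s + 1) X f M ∧
      ∀ U ∈ powersetCard s (X.erase x), f (insert x U) = g U := by
  obtain ⟨c, hc, hg, hM⟩ := h
  have hy : ∀ q : (Fin s → α) × (Fin s → α), c q ≠ 0 → ∃ y ∈ X.erase x, y ∉ opts q := by
    intro q hq
    obtain ⟨ho, hsub⟩ := octIn_iff.1 (hc q hq)
    have h1 : (opts q).card < (X.erase x).card := by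
      rw [opts_card ho, card_erase_of_mem hx]
      omega
    obtain ⟨y, hy1, hy2⟩ := exists_mem_notMem_of_card_lt_card h1
    exact ⟨y, hy1, hy2⟩
  have : Nonempty α := ⟨x⟩
  choose! y hy1 hy2 using hy
  have hoct : ∀ q, c q ≠ 0 → Oct (ocons x (y q) q) ∧ OctIn X (ocons x (y q) q) := by
    intro q hq
    obtain ⟨ho, hsub⟩ := octIn_iff.1 (hc q hq)
    have h1 := mem_erase.1 (hy1 q hq)
    have h2 : Oct (ocons x (y q) q) :=
      oct_ocons.2 ⟨ho, h1.1.symm, fun h => notMem_erase x X (hsub h), hy2 q hq⟩
    refine ⟨h2, octIn_iff.2 ⟨h2, ?_⟩⟩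
    rw [opts_ocons]
    exact insert_subset hx (insert_subset h1.2 (hsub.trans (erase_subset x X)))
  refine ⟨fun U => ∑ q, c q * pod (ocons x (y q) q) U, ?_, ?_⟩
  · have h1 : ∀ q ∈ (univ : Finset ((Fin s → α) × (Fin s → α))),
        ZRep (s + 1) X (fun U => c q * pod (ocons x (y q) q) U) (|(c q : ℝ)|) := by
      intro q _
      by_cases hq : c q = 0
      · refine (ZRep.zero (s := s + 1) X).congr ?_ (abs_nonneg _)
        intro U _
        rw [hq, zero_mul]
      · have h2 := (ZRep.single (hoct q hq).2).smul (c q)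
        rwa [mul_one] at h2
    exact (ZRep.sum univ h1).congr (fun U _ => rfl) hM
  · intro U hU
    obtain ⟨hUX, hUc⟩ := mem_powersetCard.1 hU
    have hxU : x ∉ U := fun h => notMem_erase x X (hUX h)
    rw [hg U hU]
    refine sum_congr rfl fun q _ => ?_
    by_cases hq : c q = 0
    · rw [hq, zero_mul, zero_mul]
    · rw [Retr_pod_insert (hoct q hq).1 hxU]

end

end Pool.Agent.LS3
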