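import Pool.Agent.Lib.MP_2c0b9b_co_LB.NormA
import Pool.Agent.Lib.MP_2c0b9b_co_LB.IntPart
import Pool.Agent.Lib.MP_2c0b9b_co_LB.Retr

/-!
# Integral decomposition of null functions with additive error
-/

set_option autoImplicit false

open Finset

namespace Pool.Agent.LS3

private theorem Dec_zero {α : Type*} [DecidableEq α] [Fintype α] (X : Finset α)
    (f : Finset α → ℤ) (M : ℝ) (h : RRep 0 X (fun U => (f U : ℝ)) M) : ZRep 0 X f M := by
  obtain ⟨r, -, h2, h3⟩ := h
  let p0 : (Fin 0 → α) × (Fin 0 → α) := (fun i => i.elim0, fun i => i.elim0)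
  have hpod : ∀ p : (Fin 0 → α) × (Fin 0 → α), pod p ∅ = 1 := by
    intro p
    have h1 : tr p (∅ : Finset (Fin 0)) = ∅ := by
      unfold tr
      rw [univ_eq_empty, image_empty]
    unfold pod
    rw [Fintype.sum_subsingleton _ (∅ : Finset (Fin 0)), if_pos h1, card_empty, pow_zero]
  have hmem : ∀ U ∈ powersetCard 0 X, U = ∅ := by
    intro U hU
    rw [powersetCard_zero, mem_singleton] at hU
    exact hU
  have h4 := h2 ∅ (by rw [powersetCard_zero, mem_singleton])
  rw [Fintype.sum_subsingleton _ p0, hpod, Int.cast_one, mul_one] at h4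
  rw [Fintype.sum_subsingleton _ p0, ← h4] at h3
  refine ⟨fun _ => f ∅, fun p _ => ⟨?_, fun i => i.elim0⟩, fun U hU => ?_, ?_⟩
  · rintro (i | i)
    · exact i.elim0
    · exact i.elim0
  · rw [hmem U hU, Fintype.sum_subsingleton _ p0, hpod, mul_one]
  · rw [Fintype.sum_subsingleton _ p0]
    exact h3

private theorem Dec_small {α : Type*} [DecidableEq α] [Fintype α] (s : ℕ) (X : Finset α)
    (hX : X.card < 2 * s) (f : Finset α → ℤ) (M : ℝ) (h : RRep s X (fun U => (f U : ℝ)) M) :
    ZRep s X f M := by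
  refine (ZRep.zero X).congr (fun U hU => ?_) h.nonneg
  have h1 := h.nullR.zero hX hU
  exact_mod_cast h1

private theorem Dec_step {α : Type*} [DecidableEq α] [Fintype α] (m s : ℕ)
    (ih : ∀ (s : ℕ) (X : Finset α), X.card = m → ∀ (f : Finset α → ℤ) (M : ℝ),
      RRep s X (fun U => (f U : ℝ)) M → ZRep s X f (M + Fd m s)) (X : Finset α)
    (hX : X.card = m + 1) (hs : 2 * (s + 1) ≤ m + 1) (f : Finset α → ℤ) (M : ℝ)
    (h : RRep (s + 1) X (fun U => (f U : ℝ)) M) :
    ZRep (s + 1) X f (M + ((Fd m (s + 1) + 2 * Fd m s + 3 * ((m + 1).choose (s + 1) + 1) : ℕ)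
      : ℝ)) := by
  obtain ⟨x, hx⟩ : X.Nonempty := card_pos.1 (by omega)
  have hX' : (X.erase x).card = m := by rw [card_erase_of_mem hx, hX, Nat.add_sub_cancel]
  obtain ⟨g, hg, h1⟩ := int_part (s + 1) X f M h
  rw [hX] at h1
  set C1 : ℝ := ((m + 1).choose (s + 1) : ℝ) + 1 with hC1
  have h2 := ih s (X.erase x) hX' (fun U => f (insert x U) - g (insert x U)) C1 (h1.link hx)
  obtain ⟨k, hk, hk'⟩ := h2.cone hx (by omega)
  have h3 : RRep (s + 1) X (fun U => ((f U - g U - k U : ℤ) : ℝ)) (C1 + (C1 + Fd m s)) := by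
    refine (h1.add (hk.toR.smul (-1))).congr (fun U _ => ?_) ?_
    · push_cast
      ring
    · rw [abs_neg, abs_one, one_mul]
  have h0 : ∀ U ∈ powersetCard (s + 1) X, x ∈ U → f U - g U - k U = 0 := by
    intro U hU hxU
    obtain ⟨hU1, hU2⟩ := mem_powersetCard.1 hU
    have h4 := hk' (U.erase x) (mem_powersetCard.2 ⟨erase_subset_erase x hU1, by
      rw [card_erase_of_mem hxU, hU2, Nat.add_sub_cancel]⟩)
    rw [insert_erase hxU] at h4
    rw [h4, sub_self]
  have h5 := ih (s + 1) (X.erase x) hX' (fun U => f U - g U - k U) _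
    (h3.retract hx fun U hU hxU => by rw [h0 U hU hxU, Int.cast_zero])
  have h6 := (hg.add hk).add (h5.extend (erase_subset x X))
  refine h6.congr (fun U hU => ?_) (le_of_eq ?_)
  · split_ifs with hc
    · ring
    · have hxU : x ∈ U := by
        by_contra hxU
        exact hc fun y hy => mem_erase.2 ⟨fun h => hxU (h ▸ hy), (mem_powersetCard.1 hU).1 hy⟩
      have h7 := h0 U hU hxU
      linarith
  · rw [hC1]
    push_cast
    ring

theorem dec_main {α : Type*} [DecidableEq α] [Fintype α] (n : ℕ) : ∀ (s : ℕ) (X : Finset α),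
    X.card = n → ∀ (f : Finset α → ℤ) (M : ℝ), RRep s X (fun U => (f U : ℝ)) M →
      ZRep s X f (M + Fd n s) := by
  induction n with
  | zero =>
    intro s X hX f M h
    cases s with
    | zero =>
      have h1 : Fd 0 0 = 0 := rfl
      rw [h1, Nat.cast_zero, add_zero]
      exact Dec_zero X f M h
    | succ s =>
      have h1 : Fd 0 (s + 1) = 0 := rfl
      rw [h1, Nat.cast_zero, add_zero]
      exact Dec_small (s + 1) X (by omega) f M h
  | succ m ih =>
    intro s X hX f M h
    cases s with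
    | zero =>
      have h1 : Fd (m + 1) 0 = 0 := rfl
      rw [h1, Nat.cast_zero, add_zero]
      exact Dec_zero X f M h
    | succ s =>
      have h1 : Fd (m + 1) (s + 1) = if m + 1 < 2 * (s + 1) then 0 else
        Fd m (s + 1) + 2 * Fd m s + 3 * ((m + 1).choose (s + 1) + 1) := rfl
      rw [h1]
      split_ifs with hc
      · rw [Nat.cast_zero, add_zero]
        exact Dec_small (s + 1) X (by omega) f M h
      · exact Dec_step m s ih X hX (by omega) f M h

private theorem Dec_Fd (n : ℕ) : ∀ s : ℕ,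
    Fd n s + 6 * (n + 1).choose (s + 1) ≤ 6 * 2 ^ s * (n + 1).choose (s + 1) := by
  induction n with
  | zero =>
    intro s
    have h1 : Fd 0 s = 0 := by cases s <;> rfl
    rw [h1, zero_add]
    have h2 : 1 ≤ 2 ^ s := Nat.one_le_two_pow
    exact Nat.mul_le_mul_right _ (by omega)
  | succ n ih =>
    intro s
    have h2 : ∀ s : ℕ, 6 ≤ 6 * 2 ^ s := fun s => by
      have : 1 ≤ 2 ^ s := Nat.one_le_two_pow
      omega
    cases s with
    | zero =>
      have h1 : Fd (n + 1) 0 = 0 := rfl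
      rw [h1, zero_add]
      exact Nat.mul_le_mul_right _ (h2 0)
    | succ s =>
      have h1 : Fd (n + 1) (s + 1) = if n + 1 < 2 * (s + 1) then 0 else
        Fd n (s + 1) + 2 * Fd n s + 3 * ((n + 1).choose (s + 1) + 1) := rfl
      rw [h1]
      split_ifs with hc
      · rw [zero_add]
        exact Nat.mul_le_mul_right _ (h2 _)
      · have h3 := ih (s + 1)
        have h4 := ih s
        have h5 : (n + 1 + 1).choose (s + 1 + 1) =
          (n + 1).choose (s + 1) + (n + 1).choose (s + 1 + 1) := Nat.choose_succ_succ _ _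
        have h6 : 0 < (n + 1).choose (s + 1) := Nat.choose_pos (by omega)
        rw [h5]
        have h7 : 6 * 2 ^ (s + 1) * ((n + 1).choose (s + 1) + (n + 1).choose (s + 1 + 1)) =
          2 * (6 * 2 ^ s * (n + 1).choose (s + 1)) +
            6 * 2 ^ (s + 1) * (n + 1).choose (s + 1 + 1) := by ring
        rw [h7]
        omega

theorem Fd_le (n s : ℕ) : Fd n s ≤ 6 * 2 ^ s * (n + 1).choose (s + 1) :=
  (Nat.le_add_right _ _).trans (Dec_Fd n s)

theorem pods_lin (s v : ℕ) (d : Finset (Fin v) → ℤ)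
    (hd : ∀ R : Finset (Fin v), R.card < s →
      ∑ U ∈ (powersetCard s univ).filter (fun U => R ⊆ U), d U = 0) :
    ∃ c : (Fin s → Fin v) × (Fin s → Fin v) → ℤ,
      (∀ p, c p ≠ 0 → Oct p) ∧
      (∀ U : Finset (Fin v), U.card = s → d U = ∑ p, c p * pod p U) ∧
      ∑ p, |c p| ≤ ∑ U ∈ powersetCard s univ, |d U| + 6 * 2 ^ s * (v + 1).choose (s + 1) := by
  have h1 := norm_rep s univ (fun U => (d U : ℝ)) fun R _ hR => by
    rw [← Int.cast_sum, hd R hR, Int.cast_zero]
  obtain ⟨c, h2, h3, h4⟩ := dec_main v s univ (card_fin v) d _ h1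
  refine ⟨c, fun p hp => (h2 p hp).1, fun U hU => h3 U (mem_powersetCard.2
    ⟨subset_univ U, hU⟩), ?_⟩
  have h5 : (∑ p, |c p| : ℤ) ≤ ∑ U ∈ powersetCard s univ, |d U| + (Fd v s : ℤ) := by
    exact_mod_cast h4
  have h6 : (Fd v s : ℤ) ≤ 6 * 2 ^ s * (v + 1).choose (s + 1) := by
    exact_mod_cast Fd_le v s
  linarith

end Pool.Agent.LS3
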