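import Pool.Agent.Lib.MP_2c0b9b_co_NL.Defs

/-!
# Linear block sizes: definitions

Real and integral combinations of octahedra with bounded total coefficient.
-/

set_option autoImplicit false

open Finset

namespace Pool.Agent.LS3

section
variable {α : Type*} [DecidableEq α]

/-- An octahedron with all its points in `X`. -/
def OctIn {s : ℕ} (X : Finset α) (p : (Fin s → α) × (Fin s → α)) : Prop :=
  Oct p ∧ ∀ i, p.1 i ∈ X ∧ p.2 i ∈ X

/-- The octahedron `q` with one more pair `{x, y}`. -/
def ocons {s : ℕ} (x y : α) (q : (Fin s → α) × (Fin s → α)) :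
    (Fin (s + 1) → α) × (Fin (s + 1) → α) :=
  (Fin.cons x q.1, Fin.cons y q.2)

/-- Real null functions on the `s`-subsets of `X`. -/
def NullR (s : ℕ) (X : Finset α) (f : Finset α → ℝ) : Prop :=
  ∀ R ⊆ X, R.card < s → ∑ U ∈ (powersetCard s X).filter (fun U => R ⊆ U), f U = 0

/-- Parity of `U ∩ B`, as a colour. -/
def parB (B U : Finset α) : ZMod 3 := if Even (U ∩ B).card then 0 else 1

/-- First points of the pairs. -/
def sideA {s : ℕ} (p : (Fin s → α) × (Fin s → α)) : Finset α := univ.image p.1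

/-- Second points of the pairs. -/
def sideB {s : ℕ} (p : (Fin s → α) × (Fin s → α)) : Finset α := univ.image p.2

variable [Fintype α]

/-- `f` is (on the `s`-subsets of `X`) a real combination of octahedra in `X` with total
coefficient at most `M`. -/
def RRep (s : ℕ) (X : Finset α) (f : Finset α → ℝ) (M : ℝ) : Prop :=
  ∃ r : (Fin s → α) × (Fin s → α) → ℝ, (∀ p, r p ≠ 0 → OctIn X p) ∧
    (∀ U ∈ powersetCard s X, f U = ∑ p, r p * (pod p U : ℝ)) ∧ ∑ p, |r p| ≤ M

/-- `f` is (on the `s`-subsets of `X`) an integral combination of octahedra in `X` with total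
coefficient at most `M`. -/
def ZRep (s : ℕ) (X : Finset α) (f : Finset α → ℤ) (M : ℝ) : Prop :=
  ∃ c : (Fin s → α) × (Fin s → α) → ℤ, (∀ p, c p ≠ 0 → OctIn X p) ∧
    (∀ U ∈ powersetCard s X, f U = ∑ p, c p * pod p U) ∧ ∑ p, |(c p : ℝ)| ≤ M

end

/-- Constants in the integral decomposition. -/
def Fd : ℕ → ℕ → ℕ
  | _, 0 => 0
  | 0, (_ + 1) => 0
  | (n + 1), (s + 1) => if n + 1 < 2 * (s + 1) then 0 else
      Fd n (s + 1) + 2 * Fd n s + 3 * ((n + 1).choose (s + 1) + 1)

/-! ### Constants of the absorption argument -/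

/-- Number of sets with at most `t` points. -/
def lI (t v : ℕ) : ℕ := ∑ j ∈ range (t + 1), v.choose j

/-- Bound for the total coefficient of the decompositions. -/
def lC (t v : ℕ) : ℕ := ∑ s ∈ range (t + 1),
  (v.choose s * (7 * (t + 1) * lI t v) + 6 * 2 ^ s * (v + 1).choose (s + 1))

/-- Bound for the number of moves at one level. -/
def lM (t v : ℕ) : ℕ := 10 * lC t v

/-- Size of the small pools. -/
def ln (t v : ℕ) : ℕ := 4 * lM t v + 2 * lI t v

/-- Size of the large pools. -/
def lN (t v : ℕ) : ℕ := 3 * lM t v * ln t v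

/-- Bound for the number of blocks in all pools. -/
def lK (t v : ℕ) : ℕ := 3 * (lN t v + 2 * lI t v) *
  ∑ s ∈ range (t + 1), v.choose s ^ 2 * (2 * s).choose s

end Pool.Agent.LS3
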