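import Pool.Agent.Lib.MP_2c0b9b_co_LB.Defs
import Pool.Agent.Lib.MP_2c0b9b_co_NL.NumB

/-!
# Numerical estimates for linear block sizes
-/

set_option autoImplicit false

open Finset

namespace Pool.Agent.LS3

private theorem NumL_step (v j : ℕ) (h : 2 * j ≤ v) : (v + 1) ^ j * v ≤ v ^ j * (v + 2 * j) := by
  induction j with
  | zero => simp
  | succ j ih =>
    have ih' := ih (by omega)
    calc (v + 1) ^ (j + 1) * v = (v + 1) * ((v + 1) ^ j * v) := by ring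
      _ ≤ (v + 1) * (v ^ j * (v + 2 * j)) := Nat.mul_le_mul_left _ ih'
      _ = v ^ j * ((v + 1) * (v + 2 * j)) := by ring
      _ ≤ v ^ j * (v * (v + 2 * (j + 1))) := by
        apply Nat.mul_le_mul_left
        nlinarith
      _ = v ^ (j + 1) * (v + 2 * (j + 1)) := by ring

private theorem NumL_two (v j : ℕ) (h : 2 * j ≤ v) : (v + 1) ^ j ≤ 2 * v ^ j := by
  rcases Nat.eq_zero_or_pos v with h0 | h0
  · subst h0
    have : j = 0 := by omega
    subst this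
    norm_num
  · have h1 := NumL_step v j h
    have h2 : (v + 1) ^ j * v ≤ (2 * v ^ j) * v := by
      refine h1.trans ?_
      calc v ^ j * (v + 2 * j) ≤ v ^ j * (2 * v) := by
            apply Nat.mul_le_mul_left
            omega
        _ = (2 * v ^ j) * v := by ring
    exact Nat.le_of_mul_le_mul_right h2 h0

private theorem NumL_ratio (t v j : ℕ) (hv : 128 * t ≤ v) (hj : j < t) :
    127 * v.choose j ≤ v.choose (j + 1) := by
  have h1 : (127 * v.choose j) * (j + 1) ≤ v.choose (j + 1) * (j + 1) := by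
    rw [Nat.choose_succ_right_eq]
    calc (127 * v.choose j) * (j + 1) = v.choose j * (127 * (j + 1)) := by ring
      _ ≤ v.choose j * (v - j) := Nat.mul_le_mul_left _ (by omega)
  exact Nat.le_of_mul_le_mul_right h1 (Nat.succ_pos j)

private theorem NumL_sum1 (t v : ℕ) (hv : 128 * t ≤ v) (n : ℕ) (hn : n ≤ t) :
    ∑ j ∈ range (n + 1), v.choose j ≤ 2 * v.choose n := by
  induction n with
  | zero => simp
  | succ n ih =>
    rw [sum_range_succ]
    have h1 := ih (by omega)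
    have h2 := NumL_ratio t v n hv (by omega)
    omega

private theorem NumL_sum2 (t v : ℕ) (hv : 128 * t ≤ v) (n : ℕ) (hn : n ≤ t) :
    ∑ j ∈ range (n + 1), v.choose j ^ 2 ≤ 2 * v.choose n ^ 2 := by
  induction n with
  | zero => simp
  | succ n ih =>
    rw [sum_range_succ]
    have h1 := ih (by omega)
    have h2 := NumL_ratio t v n hv (by omega)
    have h3 : 2 * v.choose n ^ 2 ≤ v.choose (n + 1) ^ 2 := by
      calc 2 * v.choose n ^ 2 ≤ 127 ^ 2 * v.choose n ^ 2 := Nat.mul_le_mul_right _ (by norm_num)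
        _ = (127 * v.choose n) ^ 2 := by ring
        _ ≤ v.choose (n + 1) ^ 2 := Nat.pow_le_pow_left h2 2
    omega

private theorem NumL_low (t v : ℕ) (hv : 128 * t ≤ v) (n : ℕ) (hn : n + 1 ≤ t) :
    127 ^ n * v ≤ v.choose (n + 1) := by
  induction n with
  | zero => simp
  | succ n ih =>
    have h1 := ih (by omega)
    have h2 := NumL_ratio t v (n + 1) hv (by omega)
    calc 127 ^ (n + 1) * v = 127 * (127 ^ n * v) := by ring
      _ ≤ 127 * v.choose (n + 1) := Nat.mul_le_mul_left _ h1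
      _ ≤ _ := h2

private theorem NumL_B (t v : ℕ) (ht : 4 ≤ t) (hv : 128 * t ≤ v) :
    12 * (v + 1) * 2 ^ t ≤ v.choose t := by
  obtain ⟨n, rfl⟩ : ∃ n, t = n + 1 := ⟨t - 1, by omega⟩
  have h1 := NumL_low (n + 1) v hv n le_rfl
  have h2 : 24 * 2 ^ (n + 1) ≤ 127 ^ n := by
    calc 24 * 2 ^ (n + 1) ≤ 2 ^ 5 * 2 ^ (n + 1) := Nat.mul_le_mul_right _ (by norm_num)
      _ = 2 ^ (5 + (n + 1)) := by rw [← pow_add]
      _ ≤ 2 ^ (6 * n) := Nat.pow_le_pow_right (by norm_num) (by omega)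
      _ = (2 ^ 6) ^ n := by rw [← pow_mul]
      _ ≤ 127 ^ n := Nat.pow_le_pow_left (by norm_num) n
  calc 12 * (v + 1) * 2 ^ (n + 1) ≤ 12 * (2 * v) * 2 ^ (n + 1) := by
        apply Nat.mul_le_mul_right
        omega
    _ = (24 * 2 ^ (n + 1)) * v := by ring
    _ ≤ 127 ^ n * v := Nat.mul_le_mul_right _ h2
    _ ≤ _ := h1

private theorem NumL_p13 (t : ℕ) (ht : 4 ≤ t) :
    1010070 * 6060444 * (t + 1) ^ 4 ≤ 2 ^ (13 * t) := by
  induction t, ht using Nat.le_induction with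
  | base => norm_num
  | succ t ht ih =>
    have h1 : (t + 1 + 1) ^ 4 ≤ 2 ^ 13 * (t + 1) ^ 4 := by
      calc (t + 1 + 1) ^ 4 ≤ (2 * (t + 1)) ^ 4 := Nat.pow_le_pow_left (by omega) 4
        _ = 16 * (t + 1) ^ 4 := by ring
        _ ≤ 2 ^ 13 * (t + 1) ^ 4 := Nat.mul_le_mul_right _ (by norm_num)
    calc 1010070 * 6060444 * (t + 1 + 1) ^ 4 ≤ 1010070 * 6060444 * (2 ^ 13 * (t + 1) ^ 4) :=
          Nat.mul_le_mul_left _ h1
      _ = 2 ^ 13 * (1010070 * 6060444 * (t + 1) ^ 4) := by ring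
      _ ≤ 2 ^ 13 * 2 ^ (13 * t) := Nat.mul_le_mul_left _ ih
      _ = 2 ^ (13 * (t + 1)) := by
        rw [← pow_add]
        congr 1
        ring

private theorem NumL_p14 (t : ℕ) (ht : 4 ≤ t) :
    6060444 * 6060444 * (t + 1) ^ 4 ≤ 2 ^ (14 * t) := by
  induction t, ht using Nat.le_induction with
  | base => norm_num
  | succ t ht ih =>
    have h1 : (t + 1 + 1) ^ 4 ≤ 2 ^ 14 * (t + 1) ^ 4 := by
      calc (t + 1 + 1) ^ 4 ≤ (2 * (t + 1)) ^ 4 := Nat.pow_le_pow_left (by omega) 4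
        _ = 16 * (t + 1) ^ 4 := by ring
        _ ≤ 2 ^ 14 * (t + 1) ^ 4 := Nat.mul_le_mul_right _ (by norm_num)
    calc 6060444 * 6060444 * (t + 1 + 1) ^ 4 ≤ 6060444 * 6060444 * (2 ^ 14 * (t + 1) ^ 4) :=
          Nat.mul_le_mul_left _ h1
      _ = 2 ^ 14 * (6060444 * 6060444 * (t + 1) ^ 4) := by ring
      _ ≤ 2 ^ 14 * 2 ^ (14 * t) := Nat.mul_le_mul_left _ ih
      _ = 2 ^ (14 * (t + 1)) := by
        rw [← pow_add]
        congr 1
        ring

/-- The costs in terms of `v.choose t`. -/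
theorem lcost_le (t v : ℕ) (ht : 4 ≤ t) (hv : 128 * t ≤ v) :
    lN t v * lK t v ≤ 2 ^ (15 * t) * v.choose t ^ 10 ∧ v.choose t ≤ lI t v ∧
      lK t v * lK t v ≤ 2 ^ (18 * t) * v.choose t ^ 12 := by
  have hS1 := NumL_sum1 t v hv t le_rfl
  have hS2 := NumL_sum2 t v hv t le_rfl
  have hB1 := NumL_B t v ht hv
  obtain ⟨B, hB⟩ : ∃ B : ℕ, B = v.choose t := ⟨_, rfl⟩
  obtain ⟨T, hT⟩ : ∃ T : ℕ, T = t + 1 := ⟨_, rfl⟩
  obtain ⟨A, hA⟩ : ∃ A : ℕ, A = 2 ^ t := ⟨_, rfl⟩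
  rw [← hB] at hS1 hS2 hB1 ⊢
  rw [← hA] at hB1
  have hA0 : 1 ≤ A := by
    rw [hA]
    exact Nat.one_le_two_pow
  have hB0 : 1 ≤ B := by nlinarith
  have hT5 : 5 ≤ T := by omega
  have hIlow : B ≤ lI t v := by
    unfold lI
    rw [hB]
    exact single_le_sum (f := fun j => v.choose j) (fun _ _ => Nat.zero_le _)
      (mem_range.2 (Nat.lt_succ_self t))
  have hI : lI t v ≤ 2 * B := hS1
  have hC : lC t v ≤ 29 * (T * B ^ 2) := by
    unfold lC
    rw [sum_add_distrib, ← sum_mul]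
    have h1 : (∑ s ∈ range (t + 1), v.choose s) * (7 * (t + 1) * lI t v) ≤
        28 * (T * B ^ 2) := by
      calc (∑ s ∈ range (t + 1), v.choose s) * (7 * (t + 1) * lI t v) ≤
            (2 * B) * (7 * (t + 1) * (2 * B)) :=
            Nat.mul_le_mul hS1 (Nat.mul_le_mul_left _ hI)
        _ = 28 * (T * B ^ 2) := by
          rw [hT]
          ring
    have h2 : ∑ s ∈ range (t + 1), 6 * 2 ^ s * (v + 1).choose (s + 1) ≤ T * B ^ 2 := by
      calc ∑ s ∈ range (t + 1), 6 * 2 ^ s * (v + 1).choose (s + 1) ≤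
            ∑ s ∈ range (t + 1), (6 * A * (v + 1)) * v.choose s := by
            refine sum_le_sum fun s hs => ?_
            have h3 : (v + 1).choose (s + 1) ≤ (v + 1) * v.choose s := by
              rw [Nat.add_one_mul_choose_eq]
              exact Nat.le_mul_of_pos_right _ (Nat.succ_pos s)
            have h4 : 2 ^ s ≤ A := by
              rw [hA]
              exact Nat.pow_le_pow_right (by norm_num) (by have := mem_range.1 hs; omega)
            calc 6 * 2 ^ s * (v + 1).choose (s + 1) ≤ 6 * A * ((v + 1) * v.choose s) :=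
                  Nat.mul_le_mul (Nat.mul_le_mul_left _ h4) h3
              _ = _ := by ring
        _ = (6 * A * (v + 1)) * ∑ s ∈ range (t + 1), v.choose s := by rw [mul_sum]
        _ ≤ (6 * A * (v + 1)) * (2 * B) := Nat.mul_le_mul_left _ hS1
        _ = (12 * (v + 1) * A) * B := by ring
        _ ≤ B * B := Nat.mul_le_mul_right _ hB1
        _ = 1 * B ^ 2 := by ring
        _ ≤ T * B ^ 2 := Nat.mul_le_mul_right _ (by omega)
    omega
  have hM : lM t v ≤ 290 * (T * B ^ 2) := by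
    unfold lM
    omega
  have hTB : 4 * B ≤ T * B ^ 2 := by
    calc 4 * B = 4 * (B * 1) := by ring
      _ ≤ T * (B * B) := Nat.mul_le_mul (by omega) (Nat.mul_le_mul_left _ hB0)
      _ = T * B ^ 2 := by ring
  have hn : ln t v ≤ 1161 * (T * B ^ 2) := by
    unfold ln
    omega
  have hN : lN t v ≤ 1010070 * (T ^ 2 * B ^ 4) := by
    unfold lN
    calc 3 * lM t v * ln t v ≤ 3 * (290 * (T * B ^ 2)) * (1161 * (T * B ^ 2)) :=
          Nat.mul_le_mul (Nat.mul_le_mul_left _ hM) hn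
      _ = 1010070 * (T ^ 2 * B ^ 4) := by ring
  have hTB4 : 4 * B ≤ 4 * (T ^ 2 * B ^ 4) := by
    apply Nat.mul_le_mul_left
    calc B = 1 * (B ^ 1 * 1) := by ring
      _ ≤ T ^ 2 * (B ^ 1 * B ^ 3) :=
          Nat.mul_le_mul (Nat.one_le_pow _ _ (by omega))
            (Nat.mul_le_mul_left _ (Nat.one_le_pow _ _ hB0))
      _ = T ^ 2 * B ^ 4 := by ring
  have hK : lK t v ≤ 6060444 * (T ^ 2 * (A ^ 2 * B ^ 6)) := by
    unfold lK
    have h1 : ∑ s ∈ range (t + 1), v.choose s ^ 2 * (2 * s).choose s ≤ (2 * B ^ 2) * A ^ 2 := by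
      calc ∑ s ∈ range (t + 1), v.choose s ^ 2 * (2 * s).choose s ≤
            ∑ s ∈ range (t + 1), v.choose s ^ 2 * A ^ 2 := by
            refine sum_le_sum fun s hs => Nat.mul_le_mul_left _ ?_
            calc (2 * s).choose s ≤ 2 ^ (2 * s) := Nat.choose_le_two_pow _ _
              _ ≤ 2 ^ (2 * t) :=
                Nat.pow_le_pow_right (by norm_num) (by have := mem_range.1 hs; omega)
              _ = A ^ 2 := by
                rw [hA, ← pow_mul]
                congr 1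
                ring
        _ = (∑ s ∈ range (t + 1), v.choose s ^ 2) * A ^ 2 := by rw [sum_mul]
        _ ≤ _ := Nat.mul_le_mul_right _ hS2
    have h2 : 3 * (lN t v + 2 * lI t v) ≤ 3030222 * (T ^ 2 * B ^ 4) := by omega
    calc 3 * (lN t v + 2 * lI t v) * ∑ s ∈ range (t + 1), v.choose s ^ 2 * (2 * s).choose s ≤
          (3030222 * (T ^ 2 * B ^ 4)) * ((2 * B ^ 2) * A ^ 2) := Nat.mul_le_mul h2 h1
      _ = 6060444 * (T ^ 2 * (A ^ 2 * B ^ 6)) := by ring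
  have h13 := NumL_p13 t ht
  have h14 := NumL_p14 t ht
  rw [← hT] at h13 h14
  refine ⟨?_, hIlow, ?_⟩
  · calc lN t v * lK t v ≤ (1010070 * (T ^ 2 * B ^ 4)) * (6060444 * (T ^ 2 * (A ^ 2 * B ^ 6))) :=
          Nat.mul_le_mul hN hK
      _ = (1010070 * 6060444 * T ^ 4) * A ^ 2 * B ^ 10 := by ring
      _ ≤ 2 ^ (13 * t) * A ^ 2 * B ^ 10 :=
          Nat.mul_le_mul_right _ (Nat.mul_le_mul_right _ h13)
      _ = 2 ^ (15 * t) * B ^ 10 := by
          rw [hA, ← pow_mul, ← pow_add]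
          congr 2
          ring
  · calc lK t v * lK t v ≤ (6060444 * (T ^ 2 * (A ^ 2 * B ^ 6))) *
          (6060444 * (T ^ 2 * (A ^ 2 * B ^ 6))) := Nat.mul_le_mul hK hK
      _ = (6060444 * 6060444 * T ^ 4) * A ^ 4 * B ^ 12 := by ring
      _ ≤ 2 ^ (14 * t) * A ^ 4 * B ^ 12 :=
          Nat.mul_le_mul_right _ (Nat.mul_le_mul_right _ h14)
      _ = 2 ^ (18 * t) * B ^ 12 := by
          rw [hA, ← pow_mul, ← pow_add]
          congr 2
          ring

private theorem NumL_fact (t : ℕ) : t ^ t ≤ 3 ^ t * t.factorial := by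
  have h1 : (t : ℝ) ^ t / (t.factorial : ℝ) ≤ Real.exp t :=
    Real.pow_div_factorial_le_exp (t : ℝ) (Nat.cast_nonneg t) t
  have h2 : Real.exp (t : ℝ) ≤ 3 ^ t := by
    have h3 : Real.exp (t : ℝ) = Real.exp 1 ^ t := by
      rw [← Real.exp_nat_mul, mul_one]
    rw [h3]
    exact pow_le_pow_left₀ (Real.exp_pos 1).le (Real.exp_one_lt_d9.le.trans (by norm_num)) t
  have h4 : (0 : ℝ) < (t.factorial : ℝ) := by exact_mod_cast Nat.factorial_pos t
  have h5 := h1.trans h2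
  rw [div_le_iff₀ h4] at h5
  exact_mod_cast h5

theorem choose_upper (t v : ℕ) : t ^ t * v.choose t ≤ 3 ^ t * v ^ t := by
  calc t ^ t * v.choose t ≤ (3 ^ t * t.factorial) * v.choose t :=
        Nat.mul_le_mul_right _ (NumL_fact t)
    _ = 3 ^ t * (t.factorial * v.choose t) := by ring
    _ = 3 ^ t * v.descFactorial t := by rw [Nat.descFactorial_eq_factorial_mul_choose]
    _ ≤ 3 ^ t * v ^ t := Nat.mul_le_mul_left _ (Nat.descFactorial_le_pow v t)

theorem choose_lower (n m : ℕ) (hm : 1 ≤ m) (h : 2 * m ≤ n) :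
    (2 * n) ^ m ≤ 2 * m * m ^ m * n.choose m := by
  have h1 : n ^ m * (2 * m).descFactorial m ≤ (2 * m) ^ m * n.descFactorial m := by
    rw [Nat.descFactorial_eq_prod_range, Nat.descFactorial_eq_prod_range]
    have e : ∀ a : ℕ, a ^ m = ∏ _i ∈ range m, a := fun a => by simp
    rw [e n, e (2 * m), ← prod_mul_distrib, ← prod_mul_distrib]
    refine prod_le_prod' fun i hi => ?_
    have hi' : i < m := mem_range.1 hi
    obtain ⟨d, rfl⟩ := Nat.exists_eq_add_of_le h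
    obtain ⟨c, rfl⟩ := Nat.exists_eq_add_of_lt hi'
    have e1 : 2 * (i + c + 1) - i = i + 2 * c + 2 := by omega
    have e2 : 2 * (i + c + 1) + d - i = i + 2 * c + 2 + d := by omega
    rw [e1, e2]
    nlinarith
  rw [Nat.descFactorial_eq_factorial_mul_choose, Nat.descFactorial_eq_factorial_mul_choose] at h1
  have h2 : n ^ m * (2 * m).choose m ≤ (2 * m) ^ m * n.choose m := by
    have h3 : (n ^ m * (2 * m).choose m) * m.factorial ≤
        ((2 * m) ^ m * n.choose m) * m.factorial := by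
      calc _ = n ^ m * (m.factorial * (2 * m).choose m) := by ring
        _ ≤ _ := h1
        _ = _ := by ring
    exact Nat.le_of_mul_le_mul_right h3 (Nat.factorial_pos m)
  have h4 : 4 ^ m ≤ 2 * m * (2 * m).choose m :=
    Nat.four_pow_le_two_mul_self_mul_centralBinom m hm
  have h5 : (2 * n) ^ m * 2 ^ m ≤ (2 * m * m ^ m * n.choose m) * 2 ^ m := by
    calc (2 * n) ^ m * 2 ^ m = 4 ^ m * n ^ m := by
          rw [← mul_pow, ← mul_pow]
          congr 1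
          ring
      _ ≤ (2 * m * (2 * m).choose m) * n ^ m := Nat.mul_le_mul_right _ h4
      _ = 2 * m * (n ^ m * (2 * m).choose m) := by ring
      _ ≤ 2 * m * ((2 * m) ^ m * n.choose m) := Nat.mul_le_mul_left _ h2
      _ = _ := by
        rw [mul_pow]
        ring
  exact Nat.le_of_mul_le_mul_right h5 (by positivity)

/-- From an inequality between powers to one for binomial coefficients. -/
private theorem NumL_conc {t n m a c X : ℕ} (ht : 1 ≤ t) (hm : 1 ≤ m) (hmn : 2 * m ≤ n)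
    (hX : t ^ (a * t) * X ≤ c * n ^ (a * t))
    (h : ∀ d : ℕ, d = 2 * m * m ^ m → d * (c * n ^ (a * t)) ≤ t ^ (a * t) * (2 * n) ^ m) :
    X ≤ n.choose m := by
  have h1 := choose_lower n m hm hmn
  have h2 := h _ rfl
  have h3 : (2 * m * m ^ m * t ^ (a * t)) * X ≤ (2 * m * m ^ m * t ^ (a * t)) * n.choose m := by
    calc (2 * m * m ^ m * t ^ (a * t)) * X = 2 * m * m ^ m * (t ^ (a * t) * X) := by ring
      _ ≤ 2 * m * m ^ m * (c * n ^ (a * t)) := Nat.mul_le_mul_left _ hX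
      _ ≤ t ^ (a * t) * (2 * n) ^ m := h2
      _ ≤ t ^ (a * t) * (2 * m * m ^ m * n.choose m) := Nat.mul_le_mul_left _ h1
      _ = _ := by ring
  exact Nat.le_of_mul_le_mul_left h3 (by positivity)

/-- The reduction to `n = 2 m`. -/
private theorem NumL_red {t n m a d : ℕ} (hmn : 2 * m ≤ n) (ham : a * t ≤ m)
    (h : 2 * m * m ^ (a * t) * (2 ^ ((d + a) * t) * 3 ^ (a * t)) ≤ t ^ (a * t) * 4 ^ m) :
    2 * m * m ^ m * (2 ^ (d * t) * 3 ^ (a * t) * n ^ (a * t)) ≤ t ^ (a * t) * (2 * n) ^ m := by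
  obtain ⟨e, rfl⟩ := Nat.exists_eq_add_of_le ham
  obtain ⟨M, hM⟩ : ∃ M, M = a * t + e := ⟨_, rfl⟩
  rw [← hM] at h hmn ⊢
  have e4 : (4 : ℕ) ^ M = 2 ^ (a * t) * 2 ^ (a * t) * 4 ^ e := by
    rw [hM, pow_add, ← mul_pow]
    norm_num
  have h1 : 2 * M * M ^ (a * t) * (2 ^ (d * t) * 3 ^ (a * t)) ≤
      t ^ (a * t) * (2 ^ (a * t) * 4 ^ e) := by
    have h2 : (2 * M * M ^ (a * t) * (2 ^ (d * t) * 3 ^ (a * t))) * 2 ^ (a * t) ≤
        (t ^ (a * t) * (2 ^ (a * t) * 4 ^ e)) * 2 ^ (a * t) := by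
      calc (2 * M * M ^ (a * t) * (2 ^ (d * t) * 3 ^ (a * t))) * 2 ^ (a * t) =
            2 * M * M ^ (a * t) * ((2 ^ (d * t) * 2 ^ (a * t)) * 3 ^ (a * t)) := by ring
        _ = 2 * M * M ^ (a * t) * (2 ^ ((d + a) * t) * 3 ^ (a * t)) := by
          rw [← pow_add, ← add_mul]
        _ ≤ t ^ (a * t) * 4 ^ M := h
        _ = _ := by
          rw [e4]
          ring
    exact Nat.le_of_mul_le_mul_right h2 (by positivity)
  have e1 : M ^ M = M ^ (a * t) * M ^ e := by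
    conv_lhs => rw [hM]
    rw [pow_add]
    rw [← hM]
  have e2 : (2 * n) ^ M = 2 ^ (a * t) * n ^ (a * t) * (2 * n) ^ e := by
    conv_lhs => rw [hM]
    rw [pow_add, mul_pow 2 n (a * t)]
  have h3 : (4 * M) ^ e ≤ (2 * n) ^ e := Nat.pow_le_pow_left (by omega) e
  calc 2 * M * M ^ M * (2 ^ (d * t) * 3 ^ (a * t) * n ^ (a * t)) =
        (2 * M * M ^ (a * t) * (2 ^ (d * t) * 3 ^ (a * t))) * (M ^ e * n ^ (a * t)) := by
        rw [e1]
        ring
    _ ≤ (t ^ (a * t) * (2 ^ (a * t) * 4 ^ e)) * (M ^ e * n ^ (a * t)) :=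
        Nat.mul_le_mul_right _ h1
    _ = t ^ (a * t) * (2 ^ (a * t) * n ^ (a * t) * (4 * M) ^ e) := by
        rw [mul_pow 4 M e]
        ring
    _ ≤ t ^ (a * t) * (2 ^ (a * t) * n ^ (a * t) * (2 * n) ^ e) :=
        Nat.mul_le_mul_left _ (Nat.mul_le_mul_left _ h3)
    _ = _ := by rw [e2]

/-- Induction on `m`. -/
private theorem NumL_ind {t a b K m₀ : ℕ} (h0 : 2 * (a * t + 1) ≤ m₀)
    (hb : 2 * m₀ * m₀ ^ (a * t) * K ≤ b * 4 ^ m₀) (m : ℕ) (hm : m₀ ≤ m) :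
    2 * m * m ^ (a * t) * K ≤ b * 4 ^ m := by
  induction m, hm using Nat.le_induction with
  | base => exact hb
  | succ m hm ih =>
    have h1 := NumL_two m (a * t + 1) (by omega)
    calc 2 * (m + 1) * (m + 1) ^ (a * t) * K = 2 * (m + 1) ^ (a * t + 1) * K := by
          rw [pow_succ]
          ring
      _ ≤ 2 * (2 * m ^ (a * t + 1)) * K := Nat.mul_le_mul_right _ (Nat.mul_le_mul_left _ h1)
      _ = 2 * (2 * m * m ^ (a * t) * K) := by
          rw [pow_succ]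
          ring
      _ ≤ 2 * (b * 4 ^ m) := Nat.mul_le_mul_left _ ih
      _ ≤ b * 4 ^ (m + 1) := by
          rw [pow_succ]
          have : 0 ≤ b * 4 ^ m := Nat.zero_le _
          nlinarith

private theorem NumL_t (t : ℕ) (ht : 4 ≤ t) : 128 * t ≤ 2 ^ (6 * t) := by
  have h1 : t < 2 ^ t := Nat.lt_two_pow_self
  calc 128 * t ≤ 2 ^ 7 * 2 ^ t := Nat.mul_le_mul (by norm_num) h1.le
    _ = 2 ^ (7 + t) := by rw [← pow_add]
    _ ≤ 2 ^ (6 * t) := Nat.pow_le_pow_right (by norm_num) (by omega)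

private theorem NumL_p2 (c t : ℕ) (n : ℕ) (h : n = 2 ^ c) : n ^ t = 2 ^ (c * t) := by
  rw [h, ← pow_mul]

private theorem NumL_three12 (t : ℕ) : 3 ^ (12 * t) ≤ 2 ^ (20 * t) := by
  rw [pow_mul, pow_mul]
  exact Nat.pow_le_pow_left (by norm_num) t

private theorem NumL_three9 (t : ℕ) : 3 ^ (9 * t) ≤ 2 ^ (18 * t) := by
  rw [pow_mul, pow_mul]
  exact Nat.pow_le_pow_left (by norm_num) t

private theorem NumL_64 (t c : ℕ) : (64 * t) ^ (c * t) = 2 ^ (6 * c * t) * t ^ (c * t) := by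
  rw [mul_pow, NumL_p2 6 (c * t) 64 (by norm_num)]
  congr 2
  ring

private theorem NumL_base12 (t : ℕ) (ht : 4 ≤ t) :
    2 * (64 * t) * (64 * t) ^ (12 * t) * (2 ^ (30 * t) * 3 ^ (12 * t)) ≤
      t ^ (12 * t) * 4 ^ (64 * t) := by
  have h1 := NumL_t t ht
  have h2 := NumL_three12 t
  have h4 : (4 : ℕ) ^ (64 * t) = 2 ^ (6 * t) * 2 ^ (72 * t) * 2 ^ (30 * t) * 2 ^ (20 * t) := by
    rw [NumL_p2 2 (64 * t) 4 (by norm_num), ← pow_add, ← pow_add, ← pow_add]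
    congr 1
    ring
  rw [NumL_64, h4]
  calc 2 * (64 * t) * (2 ^ (6 * 12 * t) * t ^ (12 * t)) * (2 ^ (30 * t) * 3 ^ (12 * t)) =
        t ^ (12 * t) * ((128 * t) * 2 ^ (72 * t) * 2 ^ (30 * t) * 3 ^ (12 * t)) := by ring
    _ ≤ t ^ (12 * t) * (2 ^ (6 * t) * 2 ^ (72 * t) * 2 ^ (30 * t) * 2 ^ (20 * t)) := by
        gcongr

private theorem NumL_base9 (t : ℕ) (ht : 4 ≤ t) :
    2 * (63 * t) * (63 * t) ^ (9 * t) * (2 ^ (25 * t) * 3 ^ (9 * t)) ≤
      t ^ (9 * t) * 4 ^ (63 * t) := by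
  have h1 := NumL_t t ht
  have h2 := NumL_three9 t
  have h4 : 2 ^ (6 * t) * 2 ^ (54 * t) * 2 ^ (25 * t) * 2 ^ (18 * t) ≤ 4 ^ (63 * t) := by
    rw [NumL_p2 2 (63 * t) 4 (by norm_num), ← pow_add, ← pow_add, ← pow_add]
    exact Nat.pow_le_pow_right (by norm_num) (by omega)
  calc 2 * (63 * t) * (63 * t) ^ (9 * t) * (2 ^ (25 * t) * 3 ^ (9 * t)) ≤
        (128 * t) * (64 * t) ^ (9 * t) * (2 ^ (25 * t) * 3 ^ (9 * t)) := by
        gcongr ?_ * ?_ * _
        · omega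
        · exact Nat.pow_le_pow_left (by omega) _
    _ = t ^ (9 * t) * ((128 * t) * 2 ^ (54 * t) * 2 ^ (25 * t) * 3 ^ (9 * t)) := by
        rw [NumL_64]
        ring
    _ ≤ t ^ (9 * t) * (2 ^ (6 * t) * 2 ^ (54 * t) * 2 ^ (25 * t) * 2 ^ (18 * t)) := by
        gcongr
    _ ≤ _ := Nat.mul_le_mul_left _ h4

private theorem NumL_X12 (t v : ℕ) :
    t ^ (12 * t) * (2 ^ (18 * t) * v.choose t ^ 12) ≤
      2 ^ (18 * t) * 3 ^ (12 * t) * v ^ (12 * t) := by
  have h1 := Nat.pow_le_pow_left (choose_upper t v) 12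
  calc t ^ (12 * t) * (2 ^ (18 * t) * v.choose t ^ 12) =
        2 ^ (18 * t) * (t ^ t * v.choose t) ^ 12 := by
        rw [mul_pow, ← pow_mul, mul_comm t 12]
        ring
    _ ≤ 2 ^ (18 * t) * (3 ^ t * v ^ t) ^ 12 := Nat.mul_le_mul_left _ h1
    _ = _ := by
        rw [mul_pow, ← pow_mul, ← pow_mul, mul_comm t 12]
        ring

private theorem NumL_X9 (t v n : ℕ) (hn : 63 * v ≤ 64 * n) :
    t ^ (9 * t) * (2 ^ (15 * t) * v.choose t ^ 9) ≤
      2 ^ (16 * t) * 3 ^ (9 * t) * n ^ (9 * t) := by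
  have h1 := Nat.pow_le_pow_left (choose_upper t v) 9
  have h2 : v ^ (9 * t) ≤ 2 ^ t * n ^ (9 * t) := by
    have h3 : v ^ 9 ≤ 2 * n ^ 9 := by
      have h4 : 63 ^ 9 * v ^ 9 ≤ 63 ^ 9 * (2 * n ^ 9) := by
        calc 63 ^ 9 * v ^ 9 = (63 * v) ^ 9 := by ring
          _ ≤ (64 * n) ^ 9 := Nat.pow_le_pow_left hn 9
          _ = 64 ^ 9 * n ^ 9 := by ring
          _ ≤ (63 ^ 9 * 2) * n ^ 9 := Nat.mul_le_mul_right _ (by norm_num)
          _ = 63 ^ 9 * (2 * n ^ 9) := by ring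
      exact Nat.le_of_mul_le_mul_left h4 (by norm_num)
    calc v ^ (9 * t) = (v ^ 9) ^ t := by rw [pow_mul]
      _ ≤ (2 * n ^ 9) ^ t := Nat.pow_le_pow_left h3 t
      _ = _ := by rw [mul_pow, ← pow_mul]
  calc t ^ (9 * t) * (2 ^ (15 * t) * v.choose t ^ 9) =
        2 ^ (15 * t) * (t ^ t * v.choose t) ^ 9 := by
        rw [mul_pow, ← pow_mul, mul_comm t 9]
        ring
    _ ≤ 2 ^ (15 * t) * (3 ^ t * v ^ t) ^ 9 := Nat.mul_le_mul_left _ h1
    _ = 2 ^ (15 * t) * 3 ^ (9 * t) * v ^ (9 * t) := by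
        rw [mul_pow, ← pow_mul, ← pow_mul, mul_comm t 9]
        ring
    _ ≤ 2 ^ (15 * t) * 3 ^ (9 * t) * (2 ^ t * n ^ (9 * t)) := Nat.mul_le_mul_left _ h2
    _ = (2 ^ (15 * t) * 2 ^ t) * 3 ^ (9 * t) * n ^ (9 * t) := by ring
    _ = _ := by
        rw [← pow_add]
        congr 3
        ring

private theorem NumL_first (t v c : ℕ) (ht : 4 ≤ t) (hv : 128 * t ≤ v)
    (h : 2 ^ (15 * t) * v.choose t ^ 9 ≤ c) : lN t v * lK t v ≤ lI t v * c := by
  obtain ⟨h1, h2, -⟩ := lcost_le t v ht hv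
  calc lN t v * lK t v ≤ 2 ^ (15 * t) * v.choose t ^ 10 := h1
    _ = v.choose t * (2 ^ (15 * t) * v.choose t ^ 9) := by ring
    _ ≤ _ := Nat.mul_le_mul h2 h

theorem num_l (t k v : ℕ) (ht : 4 ≤ t) (h1 : 64 * t ≤ k) (hkv : 2 * k ≤ v) :
    (∀ s ≤ t, lN t v * lK t v ≤ lI t v * (v - 2 * s).choose (k - s)) ∧
      lK t v * lK t v ≤ v.choose k := by
  constructor
  · intro s hs
    refine NumL_first t v _ ht (by omega) ?_
    refine NumL_conc (t := t) (a := 9) (c := 2 ^ (16 * t) * 3 ^ (9 * t)) (by omega) (by omega)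
      (by omega) (NumL_X9 t v _ (by omega)) ?_
    rintro d rfl
    refine NumL_red (by omega) (by omega) ?_
    exact NumL_ind (by omega) (NumL_base9 t ht) _ (by omega)
  · refine (lcost_le t v ht (by omega)).2.2.trans ?_
    refine NumL_conc (t := t) (a := 12) (c := 2 ^ (18 * t) * 3 ^ (12 * t)) (by omega) (by omega)
      hkv (NumL_X12 t v) ?_
    rintro d rfl
    refine NumL_red hkv (by omega) ?_
    exact NumL_ind (by omega) (NumL_base12 t ht) _ h1

private theorem NumL_mono (n a b : ℕ) (hab : a ≤ b) (hb : 2 * b ≤ n) :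
    n.choose a ≤ n.choose b := by
  induction b, hab using Nat.le_induction with
  | base => exact le_rfl
  | succ b hab ih =>
    exact (ih (by omega)).trans (Nat.choose_le_succ_of_lt_half_left (by omega))

private theorem NumL_second2 (t v : ℕ) (ht : 4 ≤ t) (hv : 1024 * t ≤ v) :
    2 * (32 * t) * (32 * t) ^ (32 * t) * (2 ^ (18 * t) * 3 ^ (12 * t) * v ^ (12 * t)) ≤
      t ^ (12 * t) * (2 * v) ^ (32 * t) := by
  have h1 := NumL_t t ht
  have h2 := NumL_three12 t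
  have h3 : (1024 * t) ^ (20 * t) ≤ v ^ (20 * t) := Nat.pow_le_pow_left hv _
  have e1 : (32 * t) ^ (32 * t) = 2 ^ (160 * t) * (t ^ (12 * t) * t ^ (20 * t)) := by
    rw [mul_pow, NumL_p2 5 (32 * t) 32 (by norm_num), ← pow_add]
    congr 2
    · ring
    · ring
  have e2 : (2 * v) ^ (32 * t) = 2 ^ (32 * t) * (v ^ (12 * t) * v ^ (20 * t)) := by
    rw [mul_pow, ← pow_add]
    congr 2
    ring
  have e3 : (1024 * t) ^ (20 * t) = 2 ^ (200 * t) * t ^ (20 * t) := by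
    rw [mul_pow, NumL_p2 10 (20 * t) 1024 (by norm_num)]
    congr 2
    ring
  rw [e3] at h3
  have h4 : 2 ^ (6 * t) * 2 ^ (160 * t) * 2 ^ (18 * t) * 2 ^ (20 * t) ≤
      2 ^ (32 * t) * 2 ^ (200 * t) := by
    rw [← pow_add, ← pow_add, ← pow_add, ← pow_add]
    exact Nat.pow_le_pow_right (by norm_num) (by omega)
  rw [e1, e2]
  calc 2 * (32 * t) * (2 ^ (160 * t) * (t ^ (12 * t) * t ^ (20 * t))) *
        (2 ^ (18 * t) * 3 ^ (12 * t) * v ^ (12 * t)) =
        (64 * t * 2 ^ (160 * t) * 2 ^ (18 * t) * 3 ^ (12 * t)) *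
          (t ^ (12 * t) * t ^ (20 * t) * v ^ (12 * t)) := by ring
    _ ≤ (2 ^ (6 * t) * 2 ^ (160 * t) * 2 ^ (18 * t) * 2 ^ (20 * t)) *
          (t ^ (12 * t) * t ^ (20 * t) * v ^ (12 * t)) := by
        have h5 : 64 * t ≤ 2 ^ (6 * t) := by omega
        gcongr
    _ ≤ (2 ^ (32 * t) * 2 ^ (200 * t)) * (t ^ (12 * t) * t ^ (20 * t) * v ^ (12 * t)) :=
        Nat.mul_le_mul_right _ h4
    _ = t ^ (12 * t) * (2 ^ (32 * t) * (v ^ (12 * t) * (2 ^ (200 * t) * t ^ (20 * t)))) := by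
        ring
    _ ≤ _ := Nat.mul_le_mul_left _ (Nat.mul_le_mul_left _ (Nat.mul_le_mul_left _ h3))

private theorem NumL_first2 (t n e : ℕ) (ht : 4 ≤ t) (hn : 512 * t ≤ n) (he : 22 * t ≤ e)
    (hm : 9 * t + e ≤ 32 * t) :
    2 * (9 * t + e) * (9 * t + e) ^ (9 * t + e) * (2 ^ (16 * t) * 3 ^ (9 * t) * n ^ (9 * t)) ≤
      t ^ (9 * t) * (2 * n) ^ (9 * t + e) := by
  have h1 := NumL_t t ht
  have h2 := NumL_three9 t
  have h3 : (512 * t) ^ e ≤ n ^ e := Nat.pow_le_pow_left hn _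
  have h5 : (9 * t + e) ^ (9 * t + e) ≤ (32 * t) ^ (9 * t + e) := Nat.pow_le_pow_left hm _
  have e1 : (32 * t) ^ (9 * t + e) = 2 ^ (45 * t + 5 * e) * (t ^ (9 * t) * t ^ e) := by
    rw [mul_pow, NumL_p2 5 (9 * t + e) 32 (by norm_num), ← pow_add]
    congr 2
    ring
  have e2 : (2 * n) ^ (9 * t + e) = 2 ^ (9 * t + e) * (n ^ (9 * t) * n ^ e) := by
    rw [mul_pow, ← pow_add]
  have e3 : (512 * t) ^ e = 2 ^ (9 * e) * t ^ e := by
    rw [mul_pow, NumL_p2 9 e 512 (by norm_num)]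
  rw [e3] at h3
  rw [e1] at h5
  have h4 : 2 ^ (6 * t) * 2 ^ (45 * t + 5 * e) * 2 ^ (16 * t) * 2 ^ (18 * t) ≤
      2 ^ (9 * t + e) * 2 ^ (9 * e) := by
    rw [← pow_add, ← pow_add, ← pow_add, ← pow_add]
    exact Nat.pow_le_pow_right (by norm_num) (by omega)
  rw [e2]
  calc 2 * (9 * t + e) * (9 * t + e) ^ (9 * t + e) * (2 ^ (16 * t) * 3 ^ (9 * t) * n ^ (9 * t)) ≤
        2 ^ (6 * t) * (2 ^ (45 * t + 5 * e) * (t ^ (9 * t) * t ^ e)) *
          (2 ^ (16 * t) * 2 ^ (18 * t) * n ^ (9 * t)) := by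
        have h6 : 2 * (9 * t + e) ≤ 2 ^ (6 * t) := by omega
        gcongr
    _ = (2 ^ (6 * t) * 2 ^ (45 * t + 5 * e) * 2 ^ (16 * t) * 2 ^ (18 * t)) *
          (t ^ (9 * t) * t ^ e * n ^ (9 * t)) := by ring
    _ ≤ (2 ^ (9 * t + e) * 2 ^ (9 * e)) * (t ^ (9 * t) * t ^ e * n ^ (9 * t)) :=
        Nat.mul_le_mul_right _ h4
    _ = t ^ (9 * t) * (2 ^ (9 * t + e) * (n ^ (9 * t) * (2 ^ (9 * e) * t ^ e))) := by ring
    _ ≤ _ := Nat.mul_le_mul_left _ (Nat.mul_le_mul_left _ (Nat.mul_le_mul_left _ h3))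

theorem num_l2 (t k v : ℕ) (ht : 4 ≤ t) (h1 : 32 * t ≤ k) (hkv : 2 * k ≤ v)
    (hv : 1024 * t ≤ v) :
    (∀ s ≤ t, lN t v * lK t v ≤ lI t v * (v - 2 * s).choose (k - s)) ∧
      lK t v * lK t v ≤ v.choose k := by
  constructor
  · intro s hs
    refine NumL_first t v _ ht (by omega) ?_
    refine le_trans ?_ (NumL_mono (v - 2 * s) (32 * t - s) (k - s) (by omega) (by omega))
    refine NumL_conc (t := t) (a := 9) (c := 2 ^ (16 * t) * 3 ^ (9 * t)) (by omega) (by omega)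
      (by omega) (NumL_X9 t v _ (by omega)) ?_
    rintro d rfl
    obtain ⟨e, he⟩ : ∃ e, 32 * t - s = 9 * t + e := ⟨23 * t - s, by omega⟩
    rw [he]
    exact NumL_first2 t _ e ht (by omega) (by omega) (by omega)
  · refine (lcost_le t v ht (by omega)).2.2.trans ?_
    refine le_trans ?_ (NumL_mono v (32 * t) k h1 hkv)
    refine NumL_conc (t := t) (a := 12) (c := 2 ^ (18 * t) * 3 ^ (12 * t)) (by omega) (by omega)
      (by omega) (NumL_X12 t v) ?_
    rintro d rfl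
    exact NumL_second2 t v ht hv

end Pool.Agent.LS3
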