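import Pool.Agent.Lib.MP_2c0b9b_co.FinalB
import Pool.Agent.Lib.MP_2c0b9b_co_LB.AbsL
import Pool.Agent.Lib.MP_2c0b9b_co_LB.NumL

/-!
# Large sets of size three: blocks of linear size
-/

set_option autoImplicit false

open Finset

namespace Pool.Agent.LS3

theorem G_lin (t k v : ℕ) (ht : 4 ≤ t)
    (h : (64 * t ≤ k ∧ k + 64 * t ≤ v) ∨ (1024 * t ≤ v ∧ 32 * t ≤ k ∧ k + 32 * t ≤ v))
    (hdiv : ∀ i ≤ t, 3 ∣ (v - i).choose (k - i)) : G (t + 1) k v := by
  have key : ∀ k' : ℕ, 2 * k' ≤ v → ((64 * t ≤ k') ∨ (1024 * t ≤ v ∧ 32 * t ≤ k')) →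
      (∀ s ≤ t, lN t v * lK t v ≤ lI t v * (v - 2 * s).choose (k' - s)) ∧
        lK t v * lK t v ≤ v.choose k' := by
    intro k' h2 h
    rcases h with h | ⟨h1, h3⟩
    · exact num_l t k' v ht h h2
    · exact num_l2 t k' v ht h3 h2 h1
  rcases Nat.le_total (2 * k) v with h3 | h3
  · obtain ⟨h4, h5⟩ := key k h3 (by omega)
    exact absorb_lin t k v (by omega) (by omega) (by omega) hdiv h4 h5
  · obtain ⟨h4, h5⟩ := key (v - k) (by omega) (by omega)
    refine absorb_lin t k v (by omega) (by omega) (by omega) hdiv (fun s hs => ?_) ?_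
    · have h6 := h4 s hs
      have h7 : v - k - s = (v - 2 * s) - (k - s) := by omega
      rw [h7, Nat.choose_symm (by omega)] at h6
      exact h6
    · rw [Nat.choose_symm (by omega)] at h5
      exact h5

theorem linear_blocks : ∀ t k v : ℕ, 4 ≤ t →
      ((64 * t ≤ k ∧ k + 64 * t ≤ v) ∨ (1024 * t ≤ v ∧ 32 * t ≤ k ∧ k + 32 * t ≤ v)) →
      ((∃ f : Finset (Fin v) → Fin 3, ∀ j : Fin 3, ∀ T : Finset (Fin v), T.card = t →
          3 * ((Finset.powersetCard k (Finset.univ : Finset (Fin v))).filter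
                (fun B => f B = j ∧ T ⊆ B)).card = (v - t).choose (k - t))
        ↔ ∀ i : ℕ, i ≤ t → 3 ∣ (v - i).choose (k - i)) := by
  intro t k v ht h
  refine ⟨fun h' => dvd_of_LS (by omega) (by omega) h', fun h' => ?_⟩
  exact LS_of_G (by omega) (by omega) (G_lin t k v ht h h')

theorem linear_reduction : ∀ t : ℕ, 4 ≤ t →
      ((∀ k v : ℕ, t ≤ k → k ≤ v →
        ((∃ f : Finset (Fin v) → Fin 3, ∀ j : Fin 3, ∀ T : Finset (Fin v), T.card = t →
          3 * ((Finset.powersetCard k (Finset.univ : Finset (Fin v))).filter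
                (fun B => f B = j ∧ T ⊆ B)).card = (v - t).choose (k - t))
        ↔ ∀ i : ℕ, i ≤ t → 3 ∣ (v - i).choose (k - i))) ↔
      (∀ m k : ℕ, 3 ^ m < 64 * t → 3 ^ m ≤ k → k ≤ 3 ^ m + t → t < k →
        k < 3 ^ (m + 1) →
        ∃ f : Finset (Fin (3 ^ (m + 1) + t)) → Fin 3, ∀ j : Fin 3,
          ∀ T : Finset (Fin (3 ^ (m + 1) + t)), T.card = t →
          3 * ((Finset.powersetCard k
            (Finset.univ : Finset (Fin (3 ^ (m + 1) + t)))).filter
                (fun B => f B = j ∧ T ⊆ B)).card = (3 ^ (m + 1) + t - t).choose (k - t))) := by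
  intro t ht
  constructor
  · intro h m k _ h1 h2 h3 h4
    have h5 : 3 ^ m ≤ 3 ^ (m + 1) := Nat.pow_le_pow_right (by norm_num) (by omega)
    exact (h k (3 ^ (m + 1) + t) (by omega) (by omega)).2 (special_dvd t m k h1 h2 h3 h4)
  · intro h k v htk hkv
    refine ⟨fun h' => dvd_of_LS htk hkv h', fun h' => ?_⟩
    obtain ⟨l, hl1, hl2⟩ := digits t k v htk hkv h'
    apply LS_of_G htk hkv
    refine reduce t (fun m k h1 h2 h3 h4 => ?_) v k l hl1 hl2
    have h5 : 3 ^ (m + 1) = 3 * 3 ^ m := by rw [pow_succ]; ring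
    rcases Nat.lt_or_ge (3 ^ m) (64 * t) with h6 | h6
    · exact G_of_LS (by omega) (by omega) (h m k h6 h1 h2 h3 h4)
    · exact G_lin t k _ ht (Or.inl ⟨by omega, by omega⟩) (special_dvd t m k h1 h2 h3 h4)

end Pool.Agent.LS3
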