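import Pool.Agent.Lib.MP_2c0b9b_co_LB.NumL

/-!
# Sharper estimates: the costs
-/

set_option autoImplicit false

open Finset

namespace Pool.Agent.LS3

private theorem NumM1_ratio (t v j : ℕ) (hv : 100 * t ≤ v) (hj : j < t) :
    99 * v.choose j ≤ v.choose (j + 1) := by
  have h1 : (99 * v.choose j) * (j + 1) ≤ v.choose (j + 1) * (j + 1) := by
    rw [Nat.choose_succ_right_eq]
    calc (99 * v.choose j) * (j + 1) = v.choose j * (99 * (j + 1)) := by ring
      _ ≤ v.choose j * (v - j) := Nat.mul_le_mul_left _ (by omega)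
  exact Nat.le_of_mul_le_mul_right h1 (Nat.succ_pos j)

private theorem NumM1_sum1 (t v : ℕ) (hv : 100 * t ≤ v) (n : ℕ) (hn : n ≤ t) :
    98 * ∑ j ∈ range (n + 1), v.choose j ≤ 99 * v.choose n := by
  induction n with
  | zero => simp
  | succ n ih =>
    rw [sum_range_succ]
    have h1 := ih (by omega)
    have h2 := NumM1_ratio t v n hv (by omega)
    omega

private theorem NumM1_sum2 (t v : ℕ) (hv : 100 * t ≤ v) (n : ℕ) (hn : n ≤ t) :
    ∑ j ∈ range (n + 1), v.choose j ^ 2 ≤ 2 * v.choose n ^ 2 := by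
  induction n with
  | zero => simp
  | succ n ih =>
    rw [sum_range_succ]
    have h1 := ih (by omega)
    have h2 := NumM1_ratio t v n hv (by omega)
    have h3 : 2 * v.choose n ^ 2 ≤ v.choose (n + 1) ^ 2 := by
      calc 2 * v.choose n ^ 2 ≤ 99 ^ 2 * v.choose n ^ 2 := Nat.mul_le_mul_right _ (by norm_num)
        _ = (99 * v.choose n) ^ 2 := by ring
        _ ≤ v.choose (n + 1) ^ 2 := Nat.pow_le_pow_left h2 2
    omega

private theorem NumM1_low (t v : ℕ) (hv : 100 * t ≤ v) (n : ℕ) (hn : n + 1 ≤ t) :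
    99 ^ n * v ≤ v.choose (n + 1) := by
  induction n with
  | zero => simp
  | succ n ih =>
    have h1 := ih (by omega)
    have h2 := NumM1_ratio t v (n + 1) hv (by omega)
    calc 99 ^ (n + 1) * v = 99 * (99 ^ n * v) := by ring
      _ ≤ 99 * v.choose (n + 1) := Nat.mul_le_mul_left _ h1
      _ ≤ _ := h2

private theorem NumM1_B (t v : ℕ) (ht : 4 ≤ t) (hv : 100 * t ≤ v) :
    12000 * (v + 1) * 2 ^ t ≤ v.choose t := by
  obtain ⟨n, rfl⟩ : ∃ n, t = n + 1 := ⟨t - 1, by omega⟩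
  have h1 := NumM1_low (n + 1) v hv n le_rfl
  have h2 : 24000 * 2 ^ (n + 1) ≤ 99 ^ n := by
    have hn : 3 ≤ n := by omega
    clear h1 ht hv
    induction n, hn using Nat.le_induction with
    | base => norm_num
    | succ n hn ih =>
      calc 24000 * 2 ^ (n + 1 + 1) = 2 * (24000 * 2 ^ (n + 1)) := by ring
        _ ≤ 99 * 99 ^ n := Nat.mul_le_mul (by norm_num) ih
        _ = 99 ^ (n + 1) := by ring
  calc 12000 * (v + 1) * 2 ^ (n + 1) ≤ 12000 * (2 * v) * 2 ^ (n + 1) := by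
        apply Nat.mul_le_mul_right
        omega
    _ = (24000 * 2 ^ (n + 1)) * v := by ring
    _ ≤ 99 ^ n * v := Nat.mul_le_mul_right _ h2
    _ ≤ _ := h1

private theorem NumM1_central (s t : ℕ) (h : s ≤ t) :
    (2 * s).choose s ≤ (2 * t).choose t := by
  induction t, h using Nat.le_induction with
  | base => exact le_rfl
  | succ t h ih =>
    refine ih.trans ?_
    calc (2 * t).choose t ≤ (2 * (t + 1)).choose t := Nat.choose_le_choose _ (by omega)
      _ ≤ (2 * (t + 1)).choose (t + 1) :=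
        Nat.choose_le_succ_of_lt_half_left (by omega)

private theorem NumM1_central_step (t : ℕ) :
    (2 * (t + 1)).choose (t + 1) ≤ 4 * (2 * t).choose t := by
  have h1 := Nat.succ_mul_centralBinom_succ t
  rw [Nat.centralBinom, Nat.centralBinom] at h1
  have h2 : (t + 1) * (2 * (t + 1)).choose (t + 1) ≤ (t + 1) * (4 * (2 * t).choose t) := by
    rw [h1]
    calc 2 * (2 * t + 1) * (2 * t).choose t ≤ (4 * (t + 1)) * (2 * t).choose t :=
          Nat.mul_le_mul_right _ (by omega)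
      _ = _ := by ring
  exact Nat.le_of_mul_le_mul_left h2 (Nat.succ_pos t)

private theorem NumM1_p13 (t : ℕ) (ht : 4 ≤ t) :
    61247 * 367488 * ((t + 1) ^ 4 * (2 * t).choose t) ≤ 2 ^ (13 * t) := by
  induction t, ht using Nat.le_induction with
  | base =>
    have e : (2 * 4).choose 4 = 70 := by decide
    rw [e]
    norm_num
  | succ t ht ih =>
    have h1 : (t + 1 + 1) ^ 4 ≤ 16 * (t + 1) ^ 4 := by
      calc (t + 1 + 1) ^ 4 ≤ (2 * (t + 1)) ^ 4 := Nat.pow_le_pow_left (by omega) 4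
        _ = 16 * (t + 1) ^ 4 := by ring
    have h2 := NumM1_central_step t
    calc 61247 * 367488 * ((t + 1 + 1) ^ 4 * (2 * (t + 1)).choose (t + 1)) ≤
          61247 * 367488 * ((16 * (t + 1) ^ 4) * (4 * (2 * t).choose t)) :=
          Nat.mul_le_mul_left _ (Nat.mul_le_mul h1 h2)
      _ = 64 * (61247 * 367488 * ((t + 1) ^ 4 * (2 * t).choose t)) := by ring
      _ ≤ 2 ^ 13 * 2 ^ (13 * t) := Nat.mul_le_mul (by norm_num) ih
      _ = 2 ^ (13 * (t + 1)) := by
        rw [← pow_add]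
        congr 1
        ring

/-- The costs in terms of `v.choose t`, sharper constant. -/
theorem lcost13 (t v : ℕ) (ht : 4 ≤ t) (hv : 100 * t ≤ v) :
    lN t v * lK t v ≤ 2 ^ (13 * t) * v.choose t ^ 10 := by
  have hS1 := NumM1_sum1 t v hv t le_rfl
  have hS2 := NumM1_sum2 t v hv t le_rfl
  have hB1 := NumM1_B t v ht hv
  obtain ⟨B, hB⟩ : ∃ B : ℕ, B = v.choose t := ⟨_, rfl⟩
  obtain ⟨T, hT⟩ : ∃ T : ℕ, T = t + 1 := ⟨_, rfl⟩
  obtain ⟨A, hA⟩ : ∃ A : ℕ, A = 2 ^ t := ⟨_, rfl⟩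
  obtain ⟨M, hM0⟩ : ∃ M : ℕ, M = (2 * t).choose t := ⟨_, rfl⟩
  rw [← hB] at hS1 hS2 hB1 ⊢
  rw [← hA] at hB1
  have hA0 : 1 ≤ A := by
    rw [hA]
    exact Nat.one_le_two_pow
  have hB0 : 12000 ≤ B := by
    calc 12000 = 12000 * 1 * 1 := by norm_num
      _ ≤ 12000 * (v + 1) * A := Nat.mul_le_mul (by omega) hA0
      _ ≤ B := hB1
  have hT5 : 5 ≤ T := by omega
  have hI : 98 * lI t v ≤ 99 * B := hS1
  have hS : ∑ s ∈ range (t + 1), v.choose s ≤ 2 * B := by omega
  have hTB5 : 5 * B ^ 2 ≤ T * B ^ 2 := Nat.mul_le_mul_right _ hT5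
  have hC : 1000 * lC t v ≤ 7144 * (T * B ^ 2) := by
    unfold lC
    rw [sum_add_distrib, ← sum_mul]
    have h1 : 9604 * ((∑ s ∈ range (t + 1), v.choose s) * (7 * (t + 1) * lI t v)) ≤
        68607 * (T * B ^ 2) := by
      calc 9604 * ((∑ s ∈ range (t + 1), v.choose s) * (7 * (t + 1) * lI t v)) =
            (98 * ∑ s ∈ range (t + 1), v.choose s) * (7 * (t + 1) * (98 * lI t v)) := by ring
        _ ≤ (99 * B) * (7 * (t + 1) * (99 * B)) :=
            Nat.mul_le_mul hS1 (Nat.mul_le_mul_left _ hI)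
        _ = 68607 * (T * B ^ 2) := by
          rw [hT]
          ring
    have h2 : 1000 * ∑ s ∈ range (t + 1), 6 * 2 ^ s * (v + 1).choose (s + 1) ≤ B ^ 2 := by
      have h20 : ∑ s ∈ range (t + 1), 6 * 2 ^ s * (v + 1).choose (s + 1) ≤
          (12 * (v + 1) * A) * B := by
        calc ∑ s ∈ range (t + 1), 6 * 2 ^ s * (v + 1).choose (s + 1) ≤
              ∑ s ∈ range (t + 1), (6 * A * (v + 1)) * v.choose s := by
              refine sum_le_sum fun s hs => ?_
              have h3 : (v + 1).choose (s + 1) ≤ (v + 1) * v.choose s := by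
                rw [Nat.add_one_mul_choose_eq]
                exact Nat.le_mul_of_pos_right _ (Nat.succ_pos s)
              have h4 : 2 ^ s ≤ A := by
                rw [hA]
                exact Nat.pow_le_pow_right (by norm_num) (by have := mem_range.1 hs; omega)
              calc 6 * 2 ^ s * (v + 1).choose (s + 1) ≤ 6 * A * ((v + 1) * v.choose s) :=
                    Nat.mul_le_mul (Nat.mul_le_mul_left _ h4) h3
                _ = _ := by ring
          _ = (6 * A * (v + 1)) * ∑ s ∈ range (t + 1), v.choose s := by rw [mul_sum]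
          _ ≤ (6 * A * (v + 1)) * (2 * B) := Nat.mul_le_mul_left _ hS
          _ = (12 * (v + 1) * A) * B := by ring
      calc 1000 * ∑ s ∈ range (t + 1), 6 * 2 ^ s * (v + 1).choose (s + 1) ≤
            1000 * ((12 * (v + 1) * A) * B) := Nat.mul_le_mul_left _ h20
        _ = (12000 * (v + 1) * A) * B := by ring
        _ ≤ B * B := Nat.mul_le_mul_right _ hB1
        _ = B ^ 2 := by ring
    omega
  have hM : 100 * lM t v ≤ 7144 * (T * B ^ 2) := by
    unfold lM
    omega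
  have hTB : 400 * B ≤ T * B ^ 2 := by
    calc 400 * B ≤ B * B := Nat.mul_le_mul_right _ (by omega)
      _ = 1 * B ^ 2 := by ring
      _ ≤ T * B ^ 2 := Nat.mul_le_mul_right _ (by omega)
  have hn : 100 * ln t v ≤ 28577 * (T * B ^ 2) := by
    unfold ln
    omega
  have hN : lN t v ≤ 61247 * (T ^ 2 * B ^ 4) := by
    have h1 : 10000 * lN t v ≤ 612462264 * (T ^ 2 * B ^ 4) := by
      unfold lN
      calc 10000 * (3 * lM t v * ln t v) = 3 * (100 * lM t v) * (100 * ln t v) := by ring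
        _ ≤ 3 * (7144 * (T * B ^ 2)) * (28577 * (T * B ^ 2)) :=
            Nat.mul_le_mul (Nat.mul_le_mul_left _ hM) hn
        _ = 612462264 * (T ^ 2 * B ^ 4) := by ring
    omega
  have hTB4 : 4 * B ≤ T ^ 2 * B ^ 4 := by
    have hB2 : 1 ≤ B ^ 2 := Nat.one_le_pow _ _ (by omega)
    calc 4 * B ≤ 400 * B := Nat.mul_le_mul_right _ (by norm_num)
      _ ≤ T * B ^ 2 := hTB
      _ = (T * 1) * (B ^ 2 * 1) := by ring
      _ ≤ (T * T) * (B ^ 2 * B ^ 2) :=
          Nat.mul_le_mul (Nat.mul_le_mul_left _ (by omega)) (Nat.mul_le_mul_left _ hB2)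
      _ = T ^ 2 * B ^ 4 := by ring
  have hK : lK t v ≤ 367488 * (T ^ 2 * (M * B ^ 6)) := by
    unfold lK
    have h1 : ∑ s ∈ range (t + 1), v.choose s ^ 2 * (2 * s).choose s ≤ (2 * B ^ 2) * M := by
      calc ∑ s ∈ range (t + 1), v.choose s ^ 2 * (2 * s).choose s ≤
            ∑ s ∈ range (t + 1), v.choose s ^ 2 * M := by
            refine sum_le_sum fun s hs => Nat.mul_le_mul_left _ ?_
            rw [hM0]
            exact NumM1_central s t (by have := mem_range.1 hs; omega)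
        _ = (∑ s ∈ range (t + 1), v.choose s ^ 2) * M := by rw [sum_mul]
        _ ≤ _ := Nat.mul_le_mul_right _ hS2
    have h2 : 3 * (lN t v + 2 * lI t v) ≤ 183744 * (T ^ 2 * B ^ 4) := by omega
    calc 3 * (lN t v + 2 * lI t v) * ∑ s ∈ range (t + 1), v.choose s ^ 2 * (2 * s).choose s ≤
          (183744 * (T ^ 2 * B ^ 4)) * ((2 * B ^ 2) * M) := Nat.mul_le_mul h2 h1
      _ = 367488 * (T ^ 2 * (M * B ^ 6)) := by ring
  have h13 := NumM1_p13 t ht
  rw [← hT, ← hM0] at h13
  calc lN t v * lK t v ≤ (61247 * (T ^ 2 * B ^ 4)) * (367488 * (T ^ 2 * (M * B ^ 6))) :=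
        Nat.mul_le_mul hN hK
    _ = (61247 * 367488 * (T ^ 4 * M)) * B ^ 10 := by ring
    _ ≤ 2 ^ (13 * t) * B ^ 10 := Nat.mul_le_mul_right _ h13

end Pool.Agent.LS3
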