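import Pool.Agent.Lib.MP_2c0b9b_co_LB.NumL

/-!
# Sharper estimates: binomial coefficients
-/

set_option autoImplicit false

open Finset

namespace Pool.Agent.LS3

private theorem NumM2_step {n m j : ℕ} (hj : j < n) :
    m ^ (j + 1) * (n - m) ^ (n - (j + 1)) * n.choose (j + 1) * ((j + 1) * (n - m)) =
      m * (n - j) * (m ^ j * (n - m) ^ (n - j) * n.choose j) := by
  have h1 := Nat.choose_succ_right_eq n j
  have h2 : n - j = n - (j + 1) + 1 := by omega
  have h3 : (n - m) ^ (n - j) = (n - m) ^ (n - (j + 1)) * (n - m) := by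
    rw [h2, pow_succ]
  rw [h3]
  calc m ^ (j + 1) * (n - m) ^ (n - (j + 1)) * n.choose (j + 1) * ((j + 1) * (n - m))
      = m * m ^ j * (n - m) ^ (n - (j + 1)) * (n - m) * (n.choose (j + 1) * (j + 1)) := by ring
    _ = m * m ^ j * (n - m) ^ (n - (j + 1)) * (n - m) * (n.choose j * (n - j)) := by rw [h1]
    _ = _ := by ring

private theorem NumM2_up {n m j : ℕ} (h : m ≤ n) (hj : j < m) :
    m ^ j * (n - m) ^ (n - j) * n.choose j ≤
      m ^ (j + 1) * (n - m) ^ (n - (j + 1)) * n.choose (j + 1) := by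
  rcases Nat.eq_zero_or_pos (n - m) with h0 | h0
  · rw [h0, zero_pow (by omega : n - j ≠ 0), mul_zero, zero_mul]
    exact Nat.zero_le _
  · have h1 := NumM2_step (n := n) (m := m) (j := j) (by omega)
    have h2 : (j + 1) * (n - m) ≤ m * (n - j) := Nat.mul_le_mul (by omega) (by omega)
    have h3 : 0 < (j + 1) * (n - m) := Nat.mul_pos (Nat.succ_pos j) h0
    refine Nat.le_of_mul_le_mul_right ?_ h3
    rw [h1, mul_comm]
    exact Nat.mul_le_mul_right _ h2

private theorem NumM2_down {n m j : ℕ} (h : m ≤ j) (hj : j < n) :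
    m ^ (j + 1) * (n - m) ^ (n - (j + 1)) * n.choose (j + 1) ≤
      m ^ j * (n - m) ^ (n - j) * n.choose j := by
  have h0 : 0 < n - m := by omega
  have h1 := NumM2_step (n := n) (m := m) (j := j) hj
  have h2 : m * (n - j) ≤ (j + 1) * (n - m) := Nat.mul_le_mul (by omega) (by omega)
  have h3 : 0 < (j + 1) * (n - m) := Nat.mul_pos (Nat.succ_pos j) h0
  refine Nat.le_of_mul_le_mul_right ?_ h3
  rw [h1]
  calc m * (n - j) * (m ^ j * (n - m) ^ (n - j) * n.choose j)
      ≤ (j + 1) * (n - m) * (m ^ j * (n - m) ^ (n - j) * n.choose j) :=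
        Nat.mul_le_mul_right _ h2
    _ = _ := mul_comm _ _

private theorem NumM2_max {n m : ℕ} (h : m ≤ n) (j : ℕ) (hj : j ≤ n) :
    m ^ j * (n - m) ^ (n - j) * n.choose j ≤ m ^ m * (n - m) ^ (n - m) * n.choose m := by
  rcases Nat.le_total j m with h1 | h1
  · obtain ⟨i, hi⟩ : ∃ i, i = m - j := ⟨_, rfl⟩
    induction i generalizing j with
    | zero =>
      obtain rfl : j = m := by omega
      exact le_rfl
    | succ i ih =>
      exact (NumM2_up h (by omega)).trans (ih (j + 1) (by omega) (by omega) (by omega))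
  · obtain ⟨i, hi⟩ : ∃ i, i = j - m := ⟨_, rfl⟩
    induction i generalizing j with
    | zero =>
      obtain rfl : j = m := by omega
      exact le_rfl
    | succ i ih =>
      obtain ⟨l, rfl⟩ : ∃ l, j = l + 1 := ⟨j - 1, by omega⟩
      exact (NumM2_down (by omega) (by omega)).trans (ih l (by omega) (by omega) (by omega))

private theorem NumM2_sum {n m : ℕ} (h : m ≤ n) :
    n ^ n = ∑ j ∈ range (n + 1), m ^ j * (n - m) ^ (n - j) * n.choose j := by
  have h1 := add_pow m (n - m) n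
  rw [Nat.add_sub_cancel' h] at h1
  exact h1

/-- The largest term of the binomial expansion of `(m + (n - m)) ^ n`. -/
theorem ent_lower (n m : ℕ) (h : m ≤ n) :
    n ^ n ≤ (n + 1) * (m ^ m * (n - m) ^ (n - m) * n.choose m) := by
  rw [NumM2_sum h]
  have h1 := Finset.sum_le_card_nsmul (range (n + 1))
    (fun j => m ^ j * (n - m) ^ (n - j) * n.choose j)
    (m ^ m * (n - m) ^ (n - m) * n.choose m)
    (fun j hj => NumM2_max h j (by rw [Finset.mem_range] at hj; omega))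
  rwa [Finset.card_range, smul_eq_mul] at h1

/-- One term of the binomial expansion. -/
theorem ent_upper (n m : ℕ) (h : m ≤ n) :
    m ^ m * (n - m) ^ (n - m) * n.choose m ≤ n ^ n := by
  rw [NumM2_sum h]
  exact Finset.single_le_sum (f := fun j => m ^ j * (n - m) ^ (n - j) * n.choose j)
    (fun _ _ => Nat.zero_le _) (by rw [Finset.mem_range]; omega)

private theorem NumM2_pw (a t : ℕ) : (a * t) ^ (a * t) = (a ^ a) ^ t * (t ^ t) ^ a := by
  rw [mul_pow]
  congr 1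
  · rw [pow_mul]
  · rw [mul_comm a t, pow_mul]

/-- the lower bound for the binomial coefficient -/
private theorem NumM2_D (a b t : ℕ) (ht : 0 < t) :
    ((a + b) ^ (a + b)) ^ t ≤
      ((a + b) * t + 1) * ((a ^ a) ^ t * (b ^ b) ^ t * ((a + b) * t).choose (a * t)) := by
  have hT : 0 < (t ^ t) ^ (a + b) := pow_pos (pow_pos ht t) _
  have h1 := ent_lower ((a + b) * t) (a * t) (Nat.mul_le_mul_right t (Nat.le_add_right a b))
  have h2 : (a + b) * t - a * t = b * t := by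
    rw [add_mul, Nat.add_sub_cancel_left]
  rw [h2, NumM2_pw (a + b), NumM2_pw a, NumM2_pw b] at h1
  refine Nat.le_of_mul_le_mul_right (h1.trans (le_of_eq ?_)) hT
  generalize a ^ a = A
  generalize b ^ b = B
  generalize t ^ t = T
  generalize ((a + b) * t).choose (a * t) = D
  rw [pow_add]
  ring

/-- the upper bound for the binomial coefficient -/
private theorem NumM2_C (a t : ℕ) (ht : 0 < t) :
    (a ^ a) ^ t * ((a + 1) * t).choose t ≤ ((a + 1) ^ (a + 1)) ^ t := by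
  have hT : 0 < (t ^ t) ^ (a + 1) := pow_pos (pow_pos ht t) _
  have h1 := ent_upper ((a + 1) * t) t (Nat.le_mul_of_pos_left t (Nat.succ_pos a))
  have h2 : (a + 1) * t - t = a * t := by
    rw [add_mul, one_mul, Nat.add_sub_cancel]
  rw [h2, NumM2_pw (a + 1), NumM2_pw a] at h1
  refine Nat.le_of_mul_le_mul_right (le_trans (le_of_eq ?_) h1) hT
  generalize a ^ a = A
  generalize t ^ t = T
  generalize ((a + 1) * t).choose t = D
  rw [pow_succ]
  ring

/-- the comparison -/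
private theorem NumM2_core {t N P Q U W C D α β : ℕ} (hβ : 0 < β) (hN : 0 < N) (hQ : 0 < Q)
    (hU : 0 < U) (h1 : P ^ t ≤ N * (Q ^ t * D)) (h2 : U ^ t * C ≤ W ^ t)
    (h3 : N * β ^ t ≤ α ^ t) (h4 : α * (Q * 2 ^ 13 * W ^ 9) ≤ β * (P * U ^ 9)) :
    2 ^ (13 * t) * C ^ 9 ≤ D := by
  have e1 : (2 : ℕ) ^ (13 * t) = (2 ^ 13) ^ t := pow_mul 2 13 t
  rw [e1]
  generalize (2 : ℕ) ^ 13 = V at h4
  have hK : 0 < N * β ^ t * Q ^ t * (U ^ t) ^ 9 := by positivity
  refine Nat.le_of_mul_le_mul_right ?_ hK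
  have h5 : (U ^ t * C) ^ 9 ≤ (W ^ t) ^ 9 := Nat.pow_le_pow_left h2 9
  have h6 : (α * (Q * V * W ^ 9)) ^ t ≤ (β * (P * U ^ 9)) ^ t := Nat.pow_le_pow_left h4 t
  calc V ^ t * C ^ 9 * (N * β ^ t * Q ^ t * (U ^ t) ^ 9)
      = N * β ^ t * (V ^ t * Q ^ t) * (U ^ t * C) ^ 9 := by ring
    _ ≤ N * β ^ t * (V ^ t * Q ^ t) * (W ^ t) ^ 9 := Nat.mul_le_mul_left _ h5
    _ = (N * β ^ t) * (V ^ t * Q ^ t * (W ^ t) ^ 9) := by ring
    _ ≤ α ^ t * (V ^ t * Q ^ t * (W ^ t) ^ 9) := Nat.mul_le_mul_right _ h3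
    _ = (α * (Q * V * W ^ 9)) ^ t := by
        rw [mul_pow, mul_pow, mul_pow, ← pow_mul, ← pow_mul, mul_comm t 9]
        ring
    _ ≤ (β * (P * U ^ 9)) ^ t := h6
    _ = β ^ t * (U ^ t) ^ 9 * P ^ t := by
        rw [mul_pow, mul_pow, ← pow_mul, ← pow_mul, mul_comm t 9]
        ring
    _ ≤ β ^ t * (U ^ t) ^ 9 * (N * (Q ^ t * D)) := Nat.mul_le_mul_left _ h1
    _ = D * (N * β ^ t * Q ^ t * (U ^ t) ^ 9) := by ring

private theorem NumM2_pos {a b : ℕ} (ha : 0 < a) (hb : 0 < b) : 0 < a ^ a * b ^ b :=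
  Nat.mul_pos (pow_pos ha _) (pow_pos hb _)

private theorem NumM2_pos' {a : ℕ} (ha : 0 < a) : 0 < a ^ a := pow_pos ha _

private theorem NumM2_a1 (t : ℕ) (ht : 4 ≤ t) : (98 * t + 1) * 2 ^ t ≤ 9 ^ t := by
  induction t, ht using Nat.le_induction with
  | base => norm_num
  | succ t ht ih =>
    rw [pow_succ, pow_succ]
    calc (98 * (t + 1) + 1) * (2 ^ t * 2) ≤ ((98 * t + 1) * 4) * (2 ^ t * 2) :=
          Nat.mul_le_mul_right _ (by omega)
      _ = ((98 * t + 1) * 2 ^ t) * 8 := by ring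
      _ ≤ 9 ^ t * 8 := Nat.mul_le_mul_right _ ih
      _ ≤ 9 ^ t * 9 := Nat.mul_le_mul_left _ (by norm_num)

private theorem NumM2_b1 (t : ℕ) (ht : 4 ≤ t) : (998 * t + 1) * 1 ^ t ≤ 8 ^ t := by
  rw [one_pow, mul_one]
  induction t, ht using Nat.le_induction with
  | base => norm_num
  | succ t ht ih =>
    rw [pow_succ]
    omega

private theorem NumM2_a2 : 9 * (31 ^ 31 * 67 ^ 67 * 2 ^ 13 * (100 ^ 100) ^ 9) ≤
    2 * (98 ^ 98 * (99 ^ 99) ^ 9) := by
  decide +kernel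

private theorem NumM2_b2 : 8 * (17 ^ 17 * 981 ^ 981 * 2 ^ 13 * (1000 ^ 1000) ^ 9) ≤
    1 * (998 ^ 998 * (999 ^ 999) ^ 9) := by
  decide +kernel

theorem base_a (t : ℕ) (ht : 4 ≤ t) :
    2 ^ (13 * t) * (100 * t).choose t ^ 9 ≤ (98 * t).choose (31 * t) := by
  have h1 := NumM2_D 31 67 t (by omega)
  have h2 := NumM2_C 99 t (by omega)
  rw [← mul_pow, show 31 + 67 = 98 from rfl] at h1
  rw [show 99 + 1 = 100 from rfl] at h2
  exact NumM2_core (N := 98 * t + 1) (P := 98 ^ 98) (Q := 31 ^ 31 * 67 ^ 67) (U := 99 ^ 99)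
    (W := 100 ^ 100) (C := (100 * t).choose t) (D := (98 * t).choose (31 * t)) (α := 9) (β := 2)
    two_pos (Nat.succ_pos _) (NumM2_pos (a := 31) (b := 67) (by omega) (by omega))
    (NumM2_pos' (a := 99) (by omega)) h1 h2 (NumM2_a1 t ht) NumM2_a2

theorem base_b (t : ℕ) (ht : 4 ≤ t) :
    2 ^ (13 * t) * (1000 * t).choose t ^ 9 ≤ (998 * t).choose (17 * t) := by
  have h1 := NumM2_D 17 981 t (by omega)
  have h2 := NumM2_C 999 t (by omega)
  rw [← mul_pow, show 17 + 981 = 998 from rfl] at h1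
  rw [show 999 + 1 = 1000 from rfl] at h2
  exact NumM2_core (N := 998 * t + 1) (P := 998 ^ 998) (Q := 17 ^ 17 * 981 ^ 981)
    (U := 999 ^ 999) (W := 1000 ^ 1000) (C := (1000 * t).choose t)
    (D := (998 * t).choose (17 * t)) (α := 8) (β := 1)
    one_pos (Nat.succ_pos _) (NumM2_pos (a := 17) (b := 981) (by omega) (by omega))
    (NumM2_pos' (a := 999) (by omega)) h1 h2 (NumM2_b1 t ht) NumM2_b2

end Pool.Agent.LS3
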