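import Pool.Agent.Lib.MP_2c0b9b_co_LB.NumL

/-!
# Sharper estimates: the step, very large `v`
-/

set_option autoImplicit false

open Finset

namespace Pool.Agent.LS3

private theorem NumM3_poly (t c : ℕ) :
    (12 * t + c) ^ 9 * c ≤ (10 * t + c) * (11 * t + c) ^ 9 := by
  have h : (10 * t + c) * (11 * t + c) ^ 9 = (12 * t + c) ^ 9 * c +
      (1 * t ^ 1 * c ^ 9 +
        162 * t ^ 2 * c ^ 8 +
        10212 * t ^ 3 * c ^ 7 +
        350070 * t ^ 4 * c ^ 6 +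
        7387254 * t ^ 5 * c ^ 5 +
        100912728 * t ^ 6 * c ^ 4 +
        899704308 * t ^ 7 * c ^ 3 +
        5074776225 * t ^ 8 * c ^ 2 +
        16490466629 * t ^ 9 * c ^ 1 +
        23579476910 * t ^ 10 * c ^ 0) := by
    ring
  rw [h]
  exact Nat.le_add_right _ _

private theorem NumM3_four (t : ℕ) (ht : 4 ≤ t) : 22 * t ≤ 4 ^ t := by
  induction t, ht using Nat.le_induction with
  | base => norm_num
  | succ t ht ih =>
    rw [pow_succ]
    omega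

private theorem NumM3_big :
    4 * 11 ^ 11 * 2 ^ 13 * (3 * 2 ^ 30) ^ 9 ≤ (2 * (2 ^ 30 - 2)) ^ 11 := by
  norm_num

theorem base_c (t : ℕ) (ht : 4 ≤ t) :
    2 ^ (13 * t) * (2 ^ 30 * t).choose t ^ 9 ≤ ((2 ^ 30 - 2) * t).choose (11 * t) := by
  obtain ⟨X, hX⟩ : ∃ X : ℕ, X = 2 ^ 30 := ⟨_, rfl⟩
  obtain ⟨Y, hY⟩ : ∃ Y : ℕ, Y = X - 2 := ⟨_, rfl⟩
  have hbig := NumM3_big
  rw [← hX, ← hY] at hbig ⊢
  have hY22 : 22 ≤ Y := by
    rw [hY, hX]
    norm_num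
  obtain ⟨C, hC⟩ : ∃ C, C = (X * t).choose t := ⟨_, rfl⟩
  obtain ⟨D, hD⟩ : ∃ D, D = (Y * t).choose (11 * t) := ⟨_, rfl⟩
  rw [← hC, ← hD]
  have hCu : C ≤ (3 * X) ^ t := by
    have h1 := choose_upper t (X * t)
    rw [← hC] at h1
    have h2 : t ^ t * C ≤ t ^ t * (3 * X) ^ t := by
      calc t ^ t * C ≤ 3 ^ t * (X * t) ^ t := h1
        _ = t ^ t * (3 * X) ^ t := by
          rw [mul_pow, mul_pow]
          ring
    exact Nat.le_of_mul_le_mul_left h2 (by positivity)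
  have hDl : (2 * Y) ^ (11 * t) ≤ 22 * t * 11 ^ (11 * t) * D := by
    have h1 := choose_lower (Y * t) (11 * t) (by omega) (by nlinarith)
    rw [← hD] at h1
    have h2 : (2 * Y) ^ (11 * t) * t ^ (11 * t) ≤
        (22 * t * 11 ^ (11 * t) * D) * t ^ (11 * t) := by
      calc (2 * Y) ^ (11 * t) * t ^ (11 * t) = (2 * (Y * t)) ^ (11 * t) := by
            rw [← mul_pow]
            congr 1
            ring
        _ ≤ 2 * (11 * t) * (11 * t) ^ (11 * t) * D := h1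
        _ = _ := by
          rw [mul_pow 11 t]
          ring
    exact Nat.le_of_mul_le_mul_right h2 (by positivity)
  have h4 := NumM3_four t ht
  have h5 : 22 * t * 11 ^ (11 * t) * (2 ^ (13 * t) * C ^ 9) ≤ 22 * t * 11 ^ (11 * t) * D := by
    calc 22 * t * 11 ^ (11 * t) * (2 ^ (13 * t) * C ^ 9) ≤
          4 ^ t * 11 ^ (11 * t) * (2 ^ (13 * t) * ((3 * X) ^ t) ^ 9) :=
          Nat.mul_le_mul (Nat.mul_le_mul_right _ h4)
            (Nat.mul_le_mul_left _ (Nat.pow_le_pow_left hCu 9))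
      _ = (4 * 11 ^ 11 * 2 ^ 13 * (3 * X) ^ 9) ^ t := by
          rw [mul_pow (4 * 11 ^ 11 * 2 ^ 13) _ t, mul_pow (4 * 11 ^ 11) _ t, mul_pow 4 _ t,
            ← pow_mul 11, ← pow_mul 2, ← pow_mul (3 * X) 9 t, ← pow_mul (3 * X) t 9,
            mul_comm t 9, mul_assoc, mul_assoc, mul_assoc]
      _ ≤ ((2 * Y) ^ 11) ^ t := Nat.pow_le_pow_left hbig t
      _ = (2 * Y) ^ (11 * t) := by rw [← pow_mul]
      _ ≤ _ := hDl
  exact Nat.le_of_mul_le_mul_left h5 (by positivity)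

theorem step_v (t m v : ℕ) (hm : 10 * t ≤ m) (hmv : 2 * t + m ≤ v)
    (h : 2 ^ (13 * t) * v.choose t ^ 9 ≤ (v - 2 * t).choose m) :
    2 ^ (13 * t) * (v + 1).choose t ^ 9 ≤ (v + 1 - 2 * t).choose m := by
  obtain ⟨b, rfl⟩ := Nat.exists_eq_add_of_le hm
  obtain ⟨a, rfl⟩ := Nat.exists_eq_add_of_le hmv
  have e1 : 2 * t + (10 * t + b) + a - 2 * t = 10 * t + b + a := by omega
  have e2 : 2 * t + (10 * t + b) + a + 1 - 2 * t = 10 * t + b + a + 1 := by omega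
  rw [e1] at h
  rw [e2]
  have h1 := Nat.choose_mul_succ_eq (2 * t + (10 * t + b) + a) t
  have h2 := Nat.choose_mul_succ_eq (10 * t + b + a) (10 * t + b)
  have e3 : 2 * t + (10 * t + b) + a + 1 - t = 11 * t + (b + a + 1) := by omega
  have e4 : 10 * t + b + a + 1 - (10 * t + b) = a + 1 := by omega
  rw [e3] at h1
  rw [e4] at h2
  obtain ⟨C, hC⟩ : ∃ C, C = (2 * t + (10 * t + b) + a).choose t := ⟨_, rfl⟩
  obtain ⟨C', hC'⟩ : ∃ C', C' = (2 * t + (10 * t + b) + a + 1).choose t := ⟨_, rfl⟩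
  obtain ⟨D, hD⟩ : ∃ D, D = (10 * t + b + a).choose (10 * t + b) := ⟨_, rfl⟩
  obtain ⟨D', hD'⟩ : ∃ D', D' = (10 * t + b + a + 1).choose (10 * t + b) := ⟨_, rfl⟩
  rw [← hC, ← hC'] at h1
  rw [← hD, ← hD'] at h2
  rw [← hC, ← hD] at h
  rw [← hC', ← hD']
  have hpoly := NumM3_poly t (b + a + 1)
  have h3 : (2 ^ (13 * t) * C' ^ 9) * ((11 * t + (b + a + 1)) ^ 9 * (a + 1)) ≤
      D' * ((11 * t + (b + a + 1)) ^ 9 * (a + 1)) := by
    calc (2 ^ (13 * t) * C' ^ 9) * ((11 * t + (b + a + 1)) ^ 9 * (a + 1)) =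
          2 ^ (13 * t) * (C' * (11 * t + (b + a + 1))) ^ 9 * (a + 1) := by
          rw [mul_pow]
          ring
      _ = 2 ^ (13 * t) * (C * (2 * t + (10 * t + b) + a + 1)) ^ 9 * (a + 1) := by rw [h1]
      _ = (2 ^ (13 * t) * C ^ 9) * ((12 * t + (b + a + 1)) ^ 9 * (a + 1)) := by
          rw [mul_pow]
          ring
      _ ≤ D * ((12 * t + (b + a + 1)) ^ 9 * (b + a + 1)) :=
          Nat.mul_le_mul h (Nat.mul_le_mul_left _ (by omega))
      _ ≤ D * ((10 * t + (b + a + 1)) * (11 * t + (b + a + 1)) ^ 9) :=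
          Nat.mul_le_mul_left _ hpoly
      _ = (D * (10 * t + b + a + 1)) * (11 * t + (b + a + 1)) ^ 9 := by ring
      _ = (D' * (a + 1)) * (11 * t + (b + a + 1)) ^ 9 := by rw [h2]
      _ = _ := by ring
  exact Nat.le_of_mul_le_mul_right h3 (by positivity)

end Pool.Agent.LS3
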