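import Pool.Agent.Lib.MP_2c0b9b_co.FinalB
import Pool.Agent.Lib.MP_2c0b9b_co_LB.AbsM
import Pool.Agent.Lib.MP_2c0b9b_co_LB.NumM1
import Pool.Agent.Lib.MP_2c0b9b_co_LB.NumM2
import Pool.Agent.Lib.MP_2c0b9b_co_LB.NumM3

/-!
# Large sets of size three: blocks of linear size, sharper constants
-/

set_option autoImplicit false

open Finset

namespace Pool.Agent.LS3

/-- Choose is monotone below the middle. -/
theorem choose_mono_half (n a b : ℕ) (hab : a ≤ b) (hb : 2 * b ≤ n) :
    n.choose a ≤ n.choose b := by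
  induction b, hab using Nat.le_induction with
  | base => exact le_rfl
  | succ b hab ih =>
    refine (ih (by omega)).trans ?_
    exact Nat.choose_le_succ_of_lt_half_left (by omega)

/-- From the base to all larger `v`. -/
theorem num_up (t m v0 : ℕ) (hm : 10 * t ≤ m) (hmv : 2 * t + m ≤ v0)
    (h : 2 ^ (13 * t) * v0.choose t ^ 9 ≤ (v0 - 2 * t).choose m) (v : ℕ) (hv : v0 ≤ v) :
    2 ^ (13 * t) * v.choose t ^ 9 ≤ (v - 2 * t).choose m := by
  induction v, hv using Nat.le_induction with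
  | base => exact h
  | succ v hv ih => exact step_v t m v hm (by omega) ih

theorem num_m (t k v : ℕ) (ht : 4 ≤ t) (hkv : 2 * k ≤ v)
    (h : (100 * t ≤ v ∧ 32 * t ≤ k) ∨ (1000 * t ≤ v ∧ 18 * t ≤ k) ∨
      (2 ^ 30 * t ≤ v ∧ 12 * t ≤ k)) :
    ∀ s ≤ t, lN t v * lK t v ≤ lI t v * (v - 2 * s).choose (k - s) := by
  intro s hs
  have h100 : 100 * t ≤ v := by
    rcases h with h | h | h <;> omega
  have h12 : 12 * t ≤ k := by
    rcases h with h | h | h <;> omega
  -- the core inequality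
  have core : 2 ^ (13 * t) * v.choose t ^ 9 ≤ (v - 2 * t).choose (k - t) := by
    rcases h with ⟨h1, h2⟩ | ⟨h1, h2⟩ | ⟨h1, h2⟩
    · have e1 : 100 * t - 2 * t = 98 * t := by omega
      have h3 := num_up t (31 * t) (100 * t) (by omega) (by omega)
        (by rw [e1]; exact base_a t ht) v h1
      exact h3.trans (choose_mono_half _ _ _ (by omega) (by omega))
    · have e1 : 1000 * t - 2 * t = 998 * t := by omega
      have h3 := num_up t (17 * t) (1000 * t) (by omega) (by omega)
        (by rw [e1]; exact base_b t ht) v h1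
      exact h3.trans (choose_mono_half _ _ _ (by omega) (by omega))
    · have e1 : 2 ^ 30 * t - 2 * t = (2 ^ 30 - 2) * t := by omega
      have h3 := num_up t (11 * t) (2 ^ 30 * t) (by omega) (by omega)
        (by rw [e1]; exact base_c t ht) v h1
      exact h3.trans (choose_mono_half _ _ _ (by omega) (by omega))
  have h4 : (v - 2 * t).choose (k - t) ≤ (v - 2 * s).choose (k - s) := by
    have e1 : v - 2 * t = (v - s - t) - (t - s) := by omega
    have e2 : k - t = (k - s) - (t - s) := by omega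
    have h5 : (v - 2 * t).choose (k - t) ≤ (v - s - t).choose (k - s) := by
      rw [e1, e2]
      exact choose_sub_le _ _ _ (by omega) (by omega)
    exact h5.trans (Nat.choose_le_choose _ (by omega))
  have h6 : v.choose t ≤ lI t v := by
    unfold lI
    exact single_le_sum (f := fun j => v.choose j) (fun _ _ => Nat.zero_le _)
      (mem_range.2 (Nat.lt_succ_self t))
  calc lN t v * lK t v ≤ 2 ^ (13 * t) * v.choose t ^ 10 := lcost13 t v ht h100
    _ = v.choose t * (2 ^ (13 * t) * v.choose t ^ 9) := by ring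
    _ ≤ lI t v * (v - 2 * s).choose (k - s) := Nat.mul_le_mul h6 (core.trans h4)

theorem G_lin2 (t k v : ℕ) (ht : 4 ≤ t)
    (h : (100 * t ≤ v ∧ 32 * t ≤ k ∧ k + 32 * t ≤ v) ∨
      (1000 * t ≤ v ∧ 18 * t ≤ k ∧ k + 18 * t ≤ v) ∨
      (2 ^ 30 * t ≤ v ∧ 12 * t ≤ k ∧ k + 12 * t ≤ v))
    (hdiv : ∀ i ≤ t, 3 ∣ (v - i).choose (k - i)) : G (t + 1) k v := by
  rcases Nat.le_total (2 * k) v with h3 | h3
  · exact absorb_lin2 t k v (by omega) (by omega) (by omega) hdiv
      (num_m t k v ht h3 (by omega))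
  · refine absorb_lin2 t k v (by omega) (by omega) (by omega) hdiv (fun s hs => ?_)
    have h6 := num_m t (v - k) v ht (by omega) (by omega) s hs
    have h7 : v - k - s = (v - 2 * s) - (k - s) := by omega
    rw [h7, Nat.choose_symm (by omega)] at h6
    exact h6

theorem linear_blocks2 : ∀ t k v : ℕ, 4 ≤ t →
      ((100 * t ≤ v ∧ 32 * t ≤ k ∧ k + 32 * t ≤ v) ∨
        (1000 * t ≤ v ∧ 18 * t ≤ k ∧ k + 18 * t ≤ v) ∨
        (2 ^ 30 * t ≤ v ∧ 12 * t ≤ k ∧ k + 12 * t ≤ v)) →
      ((∃ f : Finset (Fin v) → Fin 3, ∀ j : Fin 3, ∀ T : Finset (Fin v), T.card = t →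
          3 * ((Finset.powersetCard k (Finset.univ : Finset (Fin v))).filter
                (fun B => f B = j ∧ T ⊆ B)).card = (v - t).choose (k - t))
        ↔ ∀ i : ℕ, i ≤ t → 3 ∣ (v - i).choose (k - i)) := by
  intro t k v ht h
  refine ⟨fun h' => dvd_of_LS (by omega) (by omega) h', fun h' => ?_⟩
  exact LS_of_G (by omega) (by omega) (G_lin2 t k v ht h h')

theorem linear_reduction2 : ∀ t : ℕ, 4 ≤ t →
      ((∀ k v : ℕ, t ≤ k → k ≤ v →
        ((∃ f : Finset (Fin v) → Fin 3, ∀ j : Fin 3, ∀ T : Finset (Fin v), T.card = t →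
          3 * ((Finset.powersetCard k (Finset.univ : Finset (Fin v))).filter
                (fun B => f B = j ∧ T ⊆ B)).card = (v - t).choose (k - t))
        ↔ ∀ i : ℕ, i ≤ t → 3 ∣ (v - i).choose (k - i))) ↔
      (∀ m k : ℕ, 3 ^ m < 33 * t → 3 ^ m ≤ k → k ≤ 3 ^ m + t → t < k →
        k < 3 ^ (m + 1) →
        ∃ f : Finset (Fin (3 ^ (m + 1) + t)) → Fin 3, ∀ j : Fin 3,
          ∀ T : Finset (Fin (3 ^ (m + 1) + t)), T.card = t →
          3 * ((Finset.powersetCard k
            (Finset.univ : Finset (Fin (3 ^ (m + 1) + t)))).filter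
                (fun B => f B = j ∧ T ⊆ B)).card = (3 ^ (m + 1) + t - t).choose (k - t))) := by
  intro t ht
  constructor
  · intro h m k _ h1 h2 h3 h4
    have h5 : 3 ^ m ≤ 3 ^ (m + 1) := Nat.pow_le_pow_right (by norm_num) (by omega)
    exact (h k (3 ^ (m + 1) + t) (by omega) (by omega)).2 (special_dvd t m k h1 h2 h3 h4)
  · intro h k v htk hkv
    refine ⟨fun h' => dvd_of_LS htk hkv h', fun h' => ?_⟩
    obtain ⟨l, hl1, hl2⟩ := digits t k v htk hkv h'
    apply LS_of_G htk hkv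
    refine reduce t (fun m k h1 h2 h3 h4 => ?_) v k l hl1 hl2
    have h5 : 3 ^ (m + 1) = 3 * 3 ^ m := by rw [pow_succ]; ring
    rcases Nat.lt_or_ge (3 ^ m) (33 * t) with h6 | h6
    · exact G_of_LS (by omega) (by omega) (h m k h6 h1 h2 h3 h4)
    · exact G_lin2 t k _ ht (Or.inl ⟨by omega, by omega, by omega⟩)
        (special_dvd t m k h1 h2 h3 h4)

end Pool.Agent.LS3
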