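import Pool.Agent.Lib.MP_2c0b9b_co_LB.RepA

/-!
# Real null functions are combinations of octahedra with total coefficient at most the norm
-/

set_option autoImplicit false

open Finset

namespace Pool.Agent.LS3

theorem NullR.zero {α : Type*} [DecidableEq α] {s : ℕ} {X : Finset α} {f : Finset α → ℝ}
    (h : NullR s X f) (hX : X.card < 2 * s) {T : Finset α} (hT : T ∈ powersetCard s X) :
    f T = 0 := by
  obtain ⟨hTX, hTs⟩ := mem_powersetCard.1 hT
  have h1 : ∑ U ∈ powersetCard s X,
      f U * ((∑ R ∈ (T ∩ U).powerset, (-1 : ℤ) ^ R.card : ℤ) : ℝ) = 0 := by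
    refine sum_eq_zero fun U hU => ?_
    obtain ⟨hUX, hUs⟩ := mem_powersetCard.1 hU
    rw [sum_powerset_neg_one_pow_card, if_neg, Int.cast_zero, mul_zero]
    intro h0
    have h2 : (T ∪ U).card = T.card + U.card := by
      rw [card_union_of_disjoint (disjoint_iff_inter_eq_empty.2 h0)]
    have h3 := card_le_card (union_subset hTX hUX)
    omega
  have h2 : ∑ U ∈ powersetCard s X,
      f U * ((∑ R ∈ (T ∩ U).powerset, (-1 : ℤ) ^ R.card : ℤ) : ℝ) =
      ∑ R ∈ T.powerset, (-1 : ℝ) ^ R.card *
        ∑ U ∈ (powersetCard s X).filter (fun U => R ⊆ U), f U := by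
    push_cast
    simp_rw [mul_sum, sum_filter]
    rw [sum_comm' (s := powersetCard s X) (t := fun U => (T ∩ U).powerset)
      (t' := T.powerset) (s' := fun R => (powersetCard s X).filter (fun U => R ⊆ U))]
    · refine sum_congr rfl fun R _ => ?_
      rw [sum_filter]
      refine sum_congr rfl fun U _ => ?_
      split_ifs
      · ring
      · simp
    · intro U R
      simp only [mem_powerset, mem_filter, subset_inter_iff]
      tauto
  rw [h1] at h2
  rw [sum_eq_single T] at h2
  · have h3 : (powersetCard s X).filter (fun U => T ⊆ U) = {T} := by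
      ext U
      simp only [mem_filter, mem_singleton]
      constructor
      · rintro ⟨hU, hTU⟩
        exact (eq_of_subset_of_card_le hTU (by rw [(mem_powersetCard.1 hU).2, hTs])).symm
      · rintro rfl
        exact ⟨hT, Subset.rfl⟩
    rw [h3, sum_singleton] at h2
    have h4 : ((-1 : ℝ) ^ T.card) ≠ 0 := pow_ne_zero _ (by norm_num)
    exact (mul_eq_zero.1 h2.symm).resolve_left h4
  · intro R hR hRT
    rw [mem_powerset] at hR
    rw [h R (hR.trans hTX) ?_, mul_zero]
    rw [← hTs]
    exact card_lt_card (hR.ssubset_of_ne hRT)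
  · intro hc
    exact absurd (mem_powerset.2 Subset.rfl) hc

section
variable {α : Type*} [DecidableEq α] {s : ℕ} {X : Finset α}

private theorem NormA_bij {x y : α} (hx : x ∈ X) (hxy : x ≠ y) (F : Finset α → ℝ) :
    ∑ U ∈ powersetCard s ((X.erase x).erase y), F (insert x U) =
      ∑ W ∈ powersetCard (s + 1) X, if x ∈ W ∧ y ∉ W then F W else 0 := by
  rw [← sum_filter]
  refine sum_nbij' (fun U => insert x U) (fun W => W.erase x) ?_ ?_ ?_ ?_ ?_
  · intro U hU
    obtain ⟨hUX, hUs⟩ := mem_powersetCard.1 hU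
    have hxU : x ∉ U := fun h => (mem_erase.1 (mem_of_mem_erase (hUX h))).1 rfl
    have hyU : y ∉ U := fun h => (mem_erase.1 (hUX h)).1 rfl
    refine mem_filter.2 ⟨mem_powersetCard.2 ⟨insert_subset hx (hUX.trans
      ((erase_subset _ _).trans (erase_subset _ _))), ?_⟩, mem_insert_self _ _, ?_⟩
    · rw [card_insert_of_notMem hxU, hUs]
    · intro h
      rcases mem_insert.1 h with h | h
      · exact hxy h.symm
      · exact hyU h
  · intro W hW
    obtain ⟨hW1, hxW, hyW⟩ := mem_filter.1 hW
    obtain ⟨hWX, hWs⟩ := mem_powersetCard.1 hW1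
    refine mem_powersetCard.2 ⟨fun z hz => ?_, ?_⟩
    · rw [mem_erase] at hz
      exact mem_erase.2 ⟨fun h => hyW (h ▸ hz.2), mem_erase.2 ⟨hz.1, hWX hz.2⟩⟩
    · rw [card_erase_of_mem hxW, hWs, Nat.add_sub_cancel]
  · intro U hU
    obtain ⟨hUX, -⟩ := mem_powersetCard.1 hU
    exact erase_insert fun h => (mem_erase.1 (mem_of_mem_erase (hUX h))).1 rfl
  · intro W hW
    exact insert_erase (mem_filter.1 hW).2.1
  · intro U _
    rfl

private theorem NormA_half {f : Finset α → ℝ} (hf : NullR (s + 1) X f) {x y : α} (hx : x ∈ X)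
    (hxy : x ≠ y) {R : Finset α} (hR : R ⊆ (X.erase x).erase y) (hRs : R.card < s) :
    ∑ U ∈ (powersetCard s ((X.erase x).erase y)).filter (fun U => R ⊆ U), f (insert x U) =
      -∑ W ∈ powersetCard (s + 1) X, if x ∈ W ∧ y ∈ W ∧ R ⊆ W then f W else 0 := by
  have hxR : x ∉ R := fun h => (mem_erase.1 (mem_of_mem_erase (hR h))).1 rfl
  have h1 : ∑ U ∈ (powersetCard s ((X.erase x).erase y)).filter (fun U => R ⊆ U),
      f (insert x U) = ∑ W ∈ powersetCard (s + 1) X,
        if x ∈ W ∧ y ∉ W then (if R ⊆ W then f W else 0) else 0 := by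
    rw [sum_filter]
    refine Eq.trans ?_ (NormA_bij hx hxy (fun W => if R ⊆ W then f W else 0))
    refine sum_congr rfl fun U _ => ?_
    have h2 : R ⊆ insert x U ↔ R ⊆ U := by
      constructor
      · intro h z hz
        rcases mem_insert.1 (h hz) with h3 | h3
        · exact absurd (h3 ▸ hz) hxR
        · exact h3
      · exact fun h => h.trans (subset_insert _ _)
    simp only [h2]
  rw [h1, eq_neg_iff_add_eq_zero, ← sum_add_distrib]
  have h3 := hf (insert x R) (insert_subset hx (hR.trans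
    ((erase_subset _ _).trans (erase_subset _ _)))) (by
      rw [card_insert_of_notMem hxR]
      omega)
  rw [sum_filter] at h3
  refine Eq.trans ?_ h3
  refine sum_congr rfl fun W _ => ?_
  by_cases hxW : x ∈ W
  · by_cases hyW : y ∈ W
    · by_cases hRW : R ⊆ W
      · have h4 : insert x R ⊆ W := insert_subset hxW hRW
        simp [hxW, hyW, hRW, h4]
      · have h4 : ¬ insert x R ⊆ W := fun h => hRW ((subset_insert _ _).trans h)
        simp [hxW, hyW, hRW, h4]
    · by_cases hRW : R ⊆ W
      · have h4 : insert x R ⊆ W := insert_subset hxW hRW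
        simp [hxW, hyW, hRW, h4]
      · have h4 : ¬ insert x R ⊆ W := fun h => hRW ((subset_insert _ _).trans h)
        simp [hxW, hyW, hRW, h4]
  · have h4 : ¬ insert x R ⊆ W := fun h => hxW (h (mem_insert_self _ _))
    simp [hxW, h4]

private theorem NormA_null {f : Finset α → ℝ} (hf : NullR (s + 1) X f) {x y : α} (hx : x ∈ X)
    (hy : y ∈ X) (hxy : x ≠ y) :
    NullR s ((X.erase x).erase y) (fun U => f (insert x U) - f (insert y U)) := by
  intro R hR hRs
  rw [sum_sub_distrib, NormA_half hf hx hxy hR hRs]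
  rw [erase_right_comm] at hR ⊢
  rw [NormA_half hf hy hxy.symm hR hRs, sub_eq_zero]
  congr 1
  refine sum_congr rfl fun W _ => ?_
  have h1 : (x ∈ W ∧ y ∈ W ∧ R ⊆ W) ↔ (y ∈ W ∧ x ∈ W ∧ R ⊆ W) := by tauto
  simp only [h1]

private theorem NormA_swap {f : Finset α → ℝ} (hf : NullR (s + 1) X f) {T : Finset α}
    (hT : T ∈ powersetCard (s + 1) X) {x : α} (hx : x ∈ T) :
    ∑ y ∈ X \ T, f (insert y (T.erase x)) = -f T := by
  obtain ⟨hTX, hTs⟩ := mem_powersetCard.1 hT
  have h1 := hf (T.erase x) ((erase_subset _ _).trans hTX) (by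
    rw [card_erase_of_mem hx]
    omega)
  have h2 : (powersetCard (s + 1) X).filter (fun W => T.erase x ⊆ W) =
      (insert x (X \ T)).image (fun y => insert y (T.erase x)) := by
    ext W
    rw [mem_filter, mem_image]
    constructor
    · rintro ⟨hW, hTW⟩
      obtain ⟨hWX, hWs⟩ := mem_powersetCard.1 hW
      have h3 : (W \ T.erase x).card = 1 := by
        rw [card_sdiff_of_subset hTW, card_erase_of_mem hx, hWs, hTs]
        omega
      obtain ⟨y, hy⟩ := card_eq_one.1 h3
      have hyW : y ∈ W \ T.erase x := by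
        rw [hy]
        exact mem_singleton_self y
      rw [mem_sdiff] at hyW
      refine ⟨y, ?_, ?_⟩
      · rw [mem_insert, mem_sdiff]
        by_cases hyx : y = x
        · exact Or.inl hyx
        · exact Or.inr ⟨hWX hyW.1, fun h => hyW.2 (mem_erase.2 ⟨hyx, h⟩)⟩
      · ext z
        rw [mem_insert]
        constructor
        · rintro (h | h)
          · rw [h]
            exact hyW.1
          · exact hTW h
        · intro h
          by_cases hz : z ∈ T.erase x
          · exact Or.inr hz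
          · left
            have h4 : z ∈ W \ T.erase x := mem_sdiff.2 ⟨h, hz⟩
            rw [hy] at h4
            exact mem_singleton.1 h4
    · rintro ⟨y, hy, rfl⟩
      have hyn : y ∉ T.erase x := by
        rcases mem_insert.1 hy with h | h
        · rw [h]
          exact notMem_erase x T
        · exact fun h' => (mem_sdiff.1 h).2 (mem_of_mem_erase h')
      have hyX : y ∈ X := by
        rcases mem_insert.1 hy with h | h
        · rw [h]
          exact hTX hx
        · exact (mem_sdiff.1 h).1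
      refine ⟨mem_powersetCard.2 ⟨insert_subset hyX ((erase_subset _ _).trans hTX), ?_⟩,
        subset_insert _ _⟩
      rw [card_insert_of_notMem hyn, card_erase_of_mem hx, hTs, Nat.add_sub_cancel]
  rw [h2, sum_image, sum_insert, insert_erase hx] at h1
  · linarith
  · exact fun h => (mem_sdiff.1 h).2 hx
  · intro y hy z hz hyz
    have hyn : ∀ w ∈ insert x (X \ T), w ∉ T.erase x := by
      intro w hw
      rcases mem_insert.1 hw with h | h
      · rw [h]
        exact notMem_erase x T
      · exact fun h' => (mem_sdiff.1 h).2 (mem_of_mem_erase h')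
    have h3 : y ∈ insert z (T.erase x) := by
      simp only at hyz
      rw [← hyz]
      exact mem_insert_self _ _
    rcases mem_insert.1 h3 with h | h
    · exact h
    · exact absurd h (hyn y hy)

private theorem NormA_off {T : Finset α} (hT : T ⊆ X) (H : α × α → ℝ) :
    ∑ p ∈ X.offDiag, (if p.1 ∈ T ∧ p.2 ∉ T then H p else 0) =
      ∑ x ∈ T, ∑ y ∈ X \ T, H (x, y) := by
  rw [← sum_filter, ← sum_product']
  congr 1
  ext p
  simp only [mem_filter, mem_offDiag, mem_product, mem_sdiff]
  constructor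
  · rintro ⟨⟨h1, h2, -⟩, h4, h5⟩
    exact ⟨h4, h2, h5⟩
  · rintro ⟨h1, h2, h3⟩
    exact ⟨⟨hT h1, h2, fun h => h3 (h ▸ h1)⟩, h1, h3⟩

omit [DecidableEq α] in
private theorem NormA_sw (H : α × α → ℝ) :
    ∑ p ∈ X.offDiag, H p.swap = ∑ p ∈ X.offDiag, H p := by
  refine sum_nbij' Prod.swap Prod.swap ?_ ?_ ?_ ?_ ?_
  · intro p hp
    rw [mem_offDiag] at hp ⊢
    exact ⟨hp.2.1, hp.1, hp.2.2.symm⟩
  · intro p hp
    rw [mem_offDiag] at hp ⊢
    exact ⟨hp.2.1, hp.1, hp.2.2.symm⟩
  · intro p _
    rfl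
  · intro p _
    rfl
  · intro p _
    rfl

private theorem NormA_main {f : Finset α → ℝ} (hf : NullR (s + 1) X f) {T : Finset α}
    (hT : T ∈ powersetCard (s + 1) X) :
    ∑ p ∈ X.offDiag, ((if p.1 ∈ T ∧ p.2 ∉ T then
      f (insert p.1 (T.erase p.1)) - f (insert p.2 (T.erase p.1)) else 0) -
      (if p.2 ∈ T ∧ p.1 ∉ T then
        f (insert p.1 (T.erase p.2)) - f (insert p.2 (T.erase p.2)) else 0)) =
      2 * ((s : ℝ) + 1) * ((X.card : ℝ) - s) * f T := by
  obtain ⟨hTX, hTs⟩ := mem_powersetCard.1 hT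
  let H : α × α → ℝ := fun p =>
    if p.1 ∈ T ∧ p.2 ∉ T then f T - f (insert p.2 (T.erase p.1)) else 0
  have h1 : ∀ p ∈ X.offDiag, ((if p.1 ∈ T ∧ p.2 ∉ T then
      f (insert p.1 (T.erase p.1)) - f (insert p.2 (T.erase p.1)) else 0) -
      (if p.2 ∈ T ∧ p.1 ∉ T then
        f (insert p.1 (T.erase p.2)) - f (insert p.2 (T.erase p.2)) else 0)) =
      H p + H p.swap := by
    intro p _
    simp only [H, Prod.fst_swap, Prod.snd_swap]
    by_cases h2 : p.1 ∈ T
    · by_cases h3 : p.2 ∈ T
      · simp [h2, h3]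
      · simp [h2, h3, insert_erase h2]
    · by_cases h3 : p.2 ∈ T
      · simp [h2, h3, insert_erase h3]
      · simp [h2, h3]
  have h0 : ∑ p ∈ X.offDiag, H p = ∑ x ∈ T, ∑ y ∈ X \ T, (f T - f (insert y (T.erase x))) :=
    NormA_off hTX (fun p => f T - f (insert p.2 (T.erase p.1)))
  rw [sum_congr rfl h1, sum_add_distrib, NormA_sw, h0]
  have h2 : ∀ x ∈ T, ∑ y ∈ X \ T, (f T - f (insert y (T.erase x))) =
      ((X.card : ℝ) - s) * f T := by
    intro x hx
    rw [sum_sub_distrib, NormA_swap hf hT hx, sum_const, card_sdiff_of_subset hTX, hTs,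
      nsmul_eq_mul, Nat.cast_sub (by rw [← hTs]; exact card_le_card hTX)]
    push_cast
    ring
  rw [sum_congr rfl h2, sum_const, hTs, nsmul_eq_mul]
  push_cast
  ring

private theorem NormA_count (g : Finset α → ℝ) (hX : s + 1 ≤ X.card) :
    ∑ p ∈ X.offDiag, ∑ U ∈ powersetCard s ((X.erase p.1).erase p.2), g (insert p.1 U) =
      ((s : ℝ) + 1) * ((X.card : ℝ) - s - 1) * ∑ T ∈ powersetCard (s + 1) X, g T := by
  have h1 : ∀ p ∈ X.offDiag, ∑ U ∈ powersetCard s ((X.erase p.1).erase p.2),
      g (insert p.1 U) =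
      ∑ W ∈ powersetCard (s + 1) X, if p.1 ∈ W ∧ p.2 ∉ W then g W else 0 := by
    intro p hp
    rw [mem_offDiag] at hp
    exact NormA_bij hp.1 hp.2.2 g
  rw [sum_congr rfl h1, sum_comm, mul_sum]
  refine sum_congr rfl fun T hT => ?_
  obtain ⟨hTX, hTs⟩ := mem_powersetCard.1 hT
  rw [NormA_off hTX (fun _ => g T)]
  simp only [sum_const, card_sdiff_of_subset hTX, hTs, nsmul_eq_mul]
  rw [Nat.cast_sub hX]
  push_cast
  ring

private theorem NormA_count2 (g : Finset α → ℝ) (hX : s + 1 ≤ X.card) :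
    ∑ p ∈ X.offDiag, ∑ U ∈ powersetCard s ((X.erase p.1).erase p.2), g (insert p.2 U) =
      ((s : ℝ) + 1) * ((X.card : ℝ) - s - 1) * ∑ T ∈ powersetCard (s + 1) X, g T := by
  rw [← NormA_count g hX, ← NormA_sw]
  refine sum_congr rfl fun p _ => ?_
  rw [Prod.fst_swap, Prod.snd_swap, erase_right_comm]

private theorem NormA_tot (f : Finset α → ℝ) (hX : s + 1 ≤ X.card) :
    ∑ p ∈ X.offDiag, ∑ U ∈ powersetCard s ((X.erase p.1).erase p.2),
      |f (insert p.1 U) - f (insert p.2 U)| ≤
      2 * ((s : ℝ) + 1) * ((X.card : ℝ) - s) * ∑ T ∈ powersetCard (s + 1) X, |f T| := by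
  have h1 : ∑ p ∈ X.offDiag, ∑ U ∈ powersetCard s ((X.erase p.1).erase p.2),
      |f (insert p.1 U) - f (insert p.2 U)| ≤
      ∑ p ∈ X.offDiag, ∑ U ∈ powersetCard s ((X.erase p.1).erase p.2), |f (insert p.1 U)| +
      ∑ p ∈ X.offDiag, ∑ U ∈ powersetCard s ((X.erase p.1).erase p.2), |f (insert p.2 U)| := by
    rw [← sum_add_distrib]
    refine sum_le_sum fun p _ => ?_
    rw [← sum_add_distrib]
    exact sum_le_sum fun U _ => abs_sub _ _
  rw [NormA_count (fun T => |f T|) hX, NormA_count2 (fun T => |f T|) hX] at h1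
  have h2 : 0 ≤ ∑ T ∈ powersetCard (s + 1) X, |f T| := sum_nonneg fun _ _ => abs_nonneg _
  have h3 : 0 ≤ ((s : ℝ) + 1) * ∑ T ∈ powersetCard (s + 1) X, |f T| := by positivity
  nlinarith

end

theorem norm_rep {α : Type*} [DecidableEq α] [Fintype α] (s : ℕ) (X : Finset α)
    (f : Finset α → ℝ) (hf : NullR s X f) : RRep s X f (∑ U ∈ powersetCard s X, |f U|) := by
  induction s generalizing X f with
  | zero =>
    let p : (Fin 0 → α) × (Fin 0 → α) := (Fin.elim0, Fin.elim0)
    have hp : OctIn X p := by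
      refine ⟨?_, fun i => i.elim0⟩
      intro u
      rcases u with u | u <;> exact u.elim0
    have hpod : pod p ∅ = 1 := by
      unfold pod
      rw [Fintype.sum_unique]
      have h1 : tr p (default : Finset (Fin 0)) = ∅ := by
        unfold tr
        rfl
      rw [if_pos h1]
      rfl
    refine ((RRep.single hp).smul (f ∅)).congr (fun U hU => ?_) ?_
    · rw [powersetCard_zero, mem_singleton] at hU
      subst hU
      rw [hpod, Int.cast_one, mul_one]
    · rw [powersetCard_zero, sum_singleton, mul_one]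
  | succ s ih =>
    by_cases hX : X.card < 2 * (s + 1)
    · refine (RRep.zero (s := s + 1) X).congr (fun T hT => hf.zero hX hT) ?_
      exact sum_nonneg fun _ _ => abs_nonneg _
    · have hD : ∀ p ∈ X.offDiag, RRep (s + 1) X (fun T => (if p.1 ∈ T ∧ p.2 ∉ T then
          f (insert p.1 (T.erase p.1)) - f (insert p.2 (T.erase p.1)) else 0) -
          (if p.2 ∈ T ∧ p.1 ∉ T then
            f (insert p.1 (T.erase p.2)) - f (insert p.2 (T.erase p.2)) else 0))
          (∑ U ∈ powersetCard s ((X.erase p.1).erase p.2),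
            |f (insert p.1 U) - f (insert p.2 U)|) := by
        intro p hp
        rw [mem_offDiag] at hp
        exact (ih ((X.erase p.1).erase p.2) (fun U => f (insert p.1 U) - f (insert p.2 U))
          (NormA_null hf hp.1 hp.2.1 hp.2.2)).ocons hp.1 hp.2.1 hp.2.2
      have hE := (RRep.sum X.offDiag hD).smul (2 * ((s : ℝ) + 1) * ((X.card : ℝ) - s))⁻¹
      have hXs : (0 : ℝ) < (X.card : ℝ) - s := by
        have h1 : s + 1 ≤ X.card := by omega
        have h2 : ((s + 1 : ℕ) : ℝ) ≤ (X.card : ℝ) := by exact_mod_cast h1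
        push_cast at h2
        linarith
      have hc : 0 < 2 * ((s : ℝ) + 1) * ((X.card : ℝ) - s) := by positivity
      refine hE.congr (fun T hT => ?_) ?_
      · rw [NormA_main hf hT, ← mul_assoc, inv_mul_cancel₀ hc.ne', one_mul]
      · rw [abs_of_nonneg (inv_nonneg.2 hc.le)]
        have h1 := mul_le_mul_of_nonneg_left (NormA_tot (s := s) (X := X) f (by omega))
          (inv_nonneg.2 hc.le)
        rwa [← mul_assoc, inv_mul_cancel₀ hc.ne', one_mul] at h1

end Pool.Agent.LS3
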