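import Pool.Agent.Lib.MP_2c0b9b_co_LB.Defs
import Pool.Agent.Lib.MP_2c0b9b_co_NL.GadS

/-!
# Octahedra: adding a pair, normal form at a point
-/

set_option autoImplicit false

open Finset

namespace Pool.Agent.LS3

private theorem PodN_bij (s : ℕ) : Function.Bijective
    (Sum.elim (fun J : Finset (Fin s) => J.map (Fin.succEmb s))
      (fun J : Finset (Fin s) => insert (0 : Fin (s + 1)) (J.map (Fin.succEmb s)))) := by
  have h0 : ∀ J : Finset (Fin s), (0 : Fin (s + 1)) ∉ J.map (Fin.succEmb s) := by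
    intro J h
    rw [mem_map] at h
    obtain ⟨i, -, hi⟩ := h
    exact Fin.succ_ne_zero i hi
  rw [Fintype.bijective_iff_injective_and_card]
  constructor
  · rintro (J | J) (J' | J') h
    · simp only [Sum.elim_inl] at h
      rw [map_injective _ h]
    · simp only [Sum.elim_inl, Sum.elim_inr] at h
      exfalso
      apply h0 J
      rw [h]
      exact mem_insert_self _ _
    · simp only [Sum.elim_inl, Sum.elim_inr] at h
      exfalso
      apply h0 J'
      rw [← h]
      exact mem_insert_self _ _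
    · simp only [Sum.elim_inr] at h
      have h1 := congrArg (fun W => erase W (0 : Fin (s + 1))) h
      simp only [erase_insert (h0 _)] at h1
      rw [map_injective _ h1]
  · rw [Fintype.card_sum, Fintype.card_finset, Fintype.card_finset, Fintype.card_fin,
      Fintype.card_fin, pow_succ]
    ring

private theorem PodN_sum (s : ℕ) (f : Finset (Fin (s + 1)) → ℤ) :
    ∑ J, f J = ∑ J : Finset (Fin s), f (J.map (Fin.succEmb s)) +
      ∑ J : Finset (Fin s), f (insert 0 (J.map (Fin.succEmb s))) := by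
  rw [← (PodN_bij s).sum_comp f, Fintype.sum_sum_type]
  rfl

private theorem PodN_mem {s : ℕ} {J : Finset (Fin s)} {i : Fin s} :
    i.succ ∈ J.map (Fin.succEmb s) ↔ i ∈ J := by
  rw [mem_map]
  constructor
  · rintro ⟨j, hj, h⟩
    have : j = i := Fin.succ_injective s h
    rw [← this]
    exact hj
  · intro h
    exact ⟨i, h, rfl⟩

private theorem PodN_zero {s : ℕ} (J : Finset (Fin s)) :
    (0 : Fin (s + 1)) ∉ J.map (Fin.succEmb s) := by
  intro h
  rw [mem_map] at h
  obtain ⟨i, -, hi⟩ := h
  exact Fin.succ_ne_zero i hi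

section
variable {α : Type*} [DecidableEq α] {s : ℕ}

private theorem PodN_tr1 (q : (Fin s → α) × (Fin s → α)) (x y : α) (J : Finset (Fin s)) :
    tr (ocons x y q) (J.map (Fin.succEmb s)) = insert x (tr q J) := by
  ext z
  rw [PodAux.mem_tr, mem_insert, PodAux.mem_tr, Fin.exists_fin_succ]
  simp only [ocons, Fin.cons_zero, Fin.cons_succ, PodN_mem, PodN_zero, false_and,
    not_false_eq_true, true_and, false_or]
  rw [eq_comm]

private theorem PodN_tr2 (q : (Fin s → α) × (Fin s → α)) (x y : α) (J : Finset (Fin s)) :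
    tr (ocons x y q) (insert 0 (J.map (Fin.succEmb s))) = insert y (tr q J) := by
  ext z
  rw [PodAux.mem_tr, mem_insert, PodAux.mem_tr, Fin.exists_fin_succ]
  simp only [ocons, Fin.cons_zero, Fin.cons_succ, mem_insert, PodN_mem, true_or,
    not_true_eq_false, false_and, true_and, or_false, Fin.succ_ne_zero, false_or]
  rw [eq_comm]

private theorem PodN_opts {p : (Fin s → α) × (Fin s → α)} (a : α) :
    a ∈ opts p ↔ ∃ i, p.1 i = a ∨ p.2 i = a := by
  unfold opts
  rw [mem_image]
  constructor
  · rintro ⟨x, -, hx⟩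
    rcases x with i | i
    · exact ⟨i, Or.inl hx⟩
    · exact ⟨i, Or.inr hx⟩
  · rintro ⟨i, hx | hx⟩
    · exact ⟨Sum.inl i, mem_univ _, hx⟩
    · exact ⟨Sum.inr i, mem_univ _, hx⟩

private theorem PodN_xm (q : (Fin s → α) × (Fin s → α)) {x : α} (hx : x ∉ opts q)
    (U : Finset α) :
    (if x ∈ U then pod q (U.erase x) else 0) =
      ∑ J : Finset (Fin s), if insert x (tr q J) = U then (-1 : ℤ) ^ J.card else 0 := by
  have hJ : ∀ J : Finset (Fin s), x ∉ tr q J := fun J h => hx (tr_subset_opts J h)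
  by_cases hU : x ∈ U
  · rw [if_pos hU]
    unfold pod
    refine sum_congr rfl fun J _ => ?_
    have h1 : tr q J = U.erase x ↔ insert x (tr q J) = U := by
      constructor
      · intro h
        rw [h, insert_erase hU]
      · intro h
        rw [← h, erase_insert (hJ J)]
    simp only [h1]
  · rw [if_neg hU]
    symm
    refine sum_eq_zero fun J _ => ?_
    rw [if_neg]
    intro h
    exact hU (h ▸ mem_insert_self _ _)

private theorem PodN_oct {p : (Fin s → α) × (Fin s → α)}
    (h1 : ∀ i j, p.1 i = p.1 j → i = j) (h2 : ∀ i j, p.2 i = p.2 j → i = j)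
    (h3 : ∀ i j, p.1 i ≠ p.2 j) : Oct p := by
  rintro (i | i) (j | j) h
  · exact congrArg Sum.inl (h1 i j h)
  · exact absurd h (h3 i j)
  · exact absurd h.symm (h3 j i)
  · exact congrArg Sum.inr (h2 i j h)

private theorem PodN_perm (p : (Fin s → α) × (Fin s → α)) (σ : Equiv.Perm (Fin s))
    (U : Finset α) : pod (p.1 ∘ σ, p.2 ∘ σ) U = pod p U := by
  unfold pod
  rw [← (Equiv.finsetCongr σ).sum_comp (fun J => if tr p J = U then (-1 : ℤ) ^ J.card else 0)]
  refine sum_congr rfl fun J _ => ?_
  have h1 : tr (p.1 ∘ σ, p.2 ∘ σ) J = tr p (Equiv.finsetCongr σ J) := by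
    ext z
    rw [PodAux.mem_tr, PodAux.mem_tr]
    have h2 : ∀ i, σ i ∈ Equiv.finsetCongr σ J ↔ i ∈ J := by
      intro i
      rw [Equiv.finsetCongr_apply]
      exact mem_map' _
    constructor
    · rintro ⟨i, h⟩
      refine ⟨σ i, ?_⟩
      rw [h2]
      exact h
    · rintro ⟨i, h⟩
      refine ⟨σ.symm i, ?_⟩
      rw [← h2]
      simp only [Function.comp_apply, Equiv.apply_symm_apply]
      exact h
  rw [h1, Equiv.finsetCongr_apply, card_map]

theorem OctIn.mono {X X' : Finset α} (h : X ⊆ X') {p : (Fin s → α) × (Fin s → α)}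
    (hp : OctIn X p) : OctIn X' p := by
  exact ⟨hp.1, fun i => ⟨h (hp.2 i).1, h (hp.2 i).2⟩⟩

theorem octIn_iff {X : Finset α} {p : (Fin s → α) × (Fin s → α)} :
    OctIn X p ↔ Oct p ∧ opts p ⊆ X := by
  constructor
  · rintro ⟨h1, h2⟩
    refine ⟨h1, fun a ha => ?_⟩
    obtain ⟨i, rfl | rfl⟩ := (PodN_opts a).1 ha
    · exact (h2 i).1
    · exact (h2 i).2
  · rintro ⟨h1, h2⟩
    exact ⟨h1, fun i => ⟨h2 ((PodN_opts _).2 ⟨i, Or.inl rfl⟩),
      h2 ((PodN_opts _).2 ⟨i, Or.inr rfl⟩)⟩⟩

/-- The pod of an octahedron lives on `s`-subsets of its points. -/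
theorem pod_supp {p : (Fin s → α) × (Fin s → α)} (h : Oct p) {U : Finset α}
    (hU : pod p U ≠ 0) : U ⊆ opts p ∧ U.card = s := by
  obtain ⟨J, rfl⟩ := PodAux.pod_ne hU
  exact ⟨tr_subset_opts J, PodAux.card_tr h J⟩

theorem oct_ocons {x y : α} {q : (Fin s → α) × (Fin s → α)} :
    Oct (ocons x y q) ↔ Oct q ∧ x ≠ y ∧ x ∉ opts q ∧ y ∉ opts q := by
  constructor
  · intro h
    refine ⟨PodN_oct ?_ ?_ ?_, ?_, ?_, ?_⟩
    · intro i j hij
      have := PodAux.oct_inj1 h (i := i.succ) (j := j.succ) (by
        simp only [ocons, Fin.cons_succ]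
        exact hij)
      exact Fin.succ_injective s this
    · intro i j hij
      have := PodAux.oct_inj2 h (i := i.succ) (j := j.succ) (by
        simp only [ocons, Fin.cons_succ]
        exact hij)
      exact Fin.succ_injective s this
    · intro i j hij
      refine PodAux.oct_ne h (i := i.succ) (j := j.succ) ?_
      simp only [ocons, Fin.cons_succ]
      exact hij
    · intro hxy
      refine PodAux.oct_ne h (i := 0) (j := 0) ?_
      simp only [ocons, Fin.cons_zero]
      exact hxy
    · intro hx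
      obtain ⟨i, hi | hi⟩ := (PodN_opts x).1 hx
      · have := PodAux.oct_inj1 h (i := i.succ) (j := 0) (by
          simp only [ocons, Fin.cons_succ, Fin.cons_zero]
          exact hi)
        exact Fin.succ_ne_zero i this
      · refine PodAux.oct_ne h (i := 0) (j := i.succ) ?_
        simp only [ocons, Fin.cons_succ, Fin.cons_zero]
        exact hi.symm
    · intro hy
      obtain ⟨i, hi | hi⟩ := (PodN_opts y).1 hy
      · refine PodAux.oct_ne h (i := i.succ) (j := 0) ?_
        simp only [ocons, Fin.cons_succ, Fin.cons_zero]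
        exact hi
      · have := PodAux.oct_inj2 h (i := i.succ) (j := 0) (by
          simp only [ocons, Fin.cons_succ, Fin.cons_zero]
          exact hi)
        exact Fin.succ_ne_zero i this
  · rintro ⟨hq, hxy, hx, hy⟩
    rw [PodN_opts] at hx hy
    refine PodN_oct ?_ ?_ ?_
    · intro i j
      refine Fin.cases ?_ (fun i => ?_) i <;> refine Fin.cases ?_ (fun j => ?_) j
      · intro _
        rfl
      · simp only [ocons, Fin.cons_succ, Fin.cons_zero]
        intro h
        exact absurd ⟨j, Or.inl h.symm⟩ hx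
      · simp only [ocons, Fin.cons_succ, Fin.cons_zero]
        intro h
        exact absurd ⟨i, Or.inl h⟩ hx
      · simp only [ocons, Fin.cons_succ]
        intro h
        rw [PodAux.oct_inj1 hq h]
    · intro i j
      refine Fin.cases ?_ (fun i => ?_) i <;> refine Fin.cases ?_ (fun j => ?_) j
      · intro _
        rfl
      · simp only [ocons, Fin.cons_succ, Fin.cons_zero]
        intro h
        exact absurd ⟨j, Or.inr h.symm⟩ hy
      · simp only [ocons, Fin.cons_succ, Fin.cons_zero]
        intro h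
        exact absurd ⟨i, Or.inr h⟩ hy
      · simp only [ocons, Fin.cons_succ]
        intro h
        rw [PodAux.oct_inj2 hq h]
    · intro i j
      refine Fin.cases ?_ (fun i => ?_) i <;> refine Fin.cases ?_ (fun j => ?_) j
      · simp only [ocons, Fin.cons_zero]
        exact hxy
      · simp only [ocons, Fin.cons_succ, Fin.cons_zero]
        intro h
        exact hx ⟨j, Or.inr h.symm⟩
      · simp only [ocons, Fin.cons_succ, Fin.cons_zero]
        intro h
        exact hy ⟨i, Or.inl h⟩
      · simp only [ocons, Fin.cons_succ]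
        exact PodAux.oct_ne hq

theorem opts_ocons (x y : α) (q : (Fin s → α) × (Fin s → α)) :
    opts (ocons x y q) = insert x (insert y (opts q)) := by
  ext a
  rw [mem_insert, mem_insert, PodN_opts, PodN_opts, Fin.exists_fin_succ]
  simp only [ocons, Fin.cons_succ, Fin.cons_zero]
  rw [eq_comm (a := x), eq_comm (a := y), or_assoc]

theorem pod_ocons {x y : α} {q : (Fin s → α) × (Fin s → α)} (h : Oct (ocons x y q))
    (U : Finset α) :
    pod (ocons x y q) U =
      (if x ∈ U then pod q (U.erase x) else 0) - (if y ∈ U then pod q (U.erase y) else 0) := by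
  obtain ⟨-, -, hx, hy⟩ := oct_ocons.1 h
  rw [PodN_xm q hx U, PodN_xm q hy U]
  unfold pod
  rw [PodN_sum, sub_eq_add_neg, ← sum_neg_distrib]
  refine congrArg₂ _ (sum_congr rfl fun J _ => ?_) (sum_congr rfl fun J _ => ?_)
  · rw [PodN_tr1, card_map]
  · rw [PodN_tr2, card_insert_of_notMem (PodN_zero J), card_map]
    split_ifs
    · rw [pow_succ]
      ring
    · ring

/-- Normal form of an octahedron at one of its points. -/
theorem pod_at {p : (Fin (s + 1) → α) × (Fin (s + 1) → α)} (h : Oct p) {x : α}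
    (hx : x ∈ opts p) :
    ∃ (y : α) (q : (Fin s → α) × (Fin s → α)) (ε : ℤ), (ε = 1 ∨ ε = -1) ∧
      Oct (ocons x y q) ∧ opts (ocons x y q) = opts p ∧
      ∀ U, pod p U = ε * pod (ocons x y q) U := by
  obtain ⟨i, hi⟩ := (PodN_opts x).1 hx
  set σ : Equiv.Perm (Fin (s + 1)) := Equiv.swap 0 i with hσ
  have hσ0 : σ 0 = i := Equiv.swap_apply_left 0 i
  set q : (Fin s → α) × (Fin s → α) := (Fin.tail (p.1 ∘ σ), Fin.tail (p.2 ∘ σ)) with hq
  have hp : ocons (p.1 i) (p.2 i) q = (p.1 ∘ σ, p.2 ∘ σ) := by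
    unfold ocons
    rw [hq]
    refine Prod.ext ?_ ?_
    · change Fin.cons (p.1 i) (Fin.tail (p.1 ∘ σ)) = p.1 ∘ σ
      have : p.1 i = (p.1 ∘ σ) 0 := by rw [Function.comp_apply, hσ0]
      rw [this]
      exact Fin.cons_self_tail _
    · change Fin.cons (p.2 i) (Fin.tail (p.2 ∘ σ)) = p.2 ∘ σ
      have : p.2 i = (p.2 ∘ σ) 0 := by rw [Function.comp_apply, hσ0]
      rw [this]
      exact Fin.cons_self_tail _
  have hoct : Oct (ocons (p.1 i) (p.2 i) q) := by
    rw [hp]
    refine PodN_oct ?_ ?_ ?_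
    · intro a b hab
      exact σ.injective (PodAux.oct_inj1 h hab)
    · intro a b hab
      exact σ.injective (PodAux.oct_inj2 h hab)
    · intro a b
      exact PodAux.oct_ne h
  have hopts : opts (ocons (p.1 i) (p.2 i) q) = opts p := by
    rw [hp]
    ext a
    rw [PodN_opts, PodN_opts]
    constructor
    · rintro ⟨j, hj⟩
      exact ⟨σ j, hj⟩
    · rintro ⟨j, hj⟩
      refine ⟨σ.symm j, ?_⟩
      simp only [Function.comp_apply, Equiv.apply_symm_apply]
      exact hj
  have hpod : ∀ U, pod p U = pod (ocons (p.1 i) (p.2 i) q) U := by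
    intro U
    rw [hp, PodN_perm]
  rcases hi with rfl | rfl
  · exact ⟨p.2 i, q, 1, Or.inl rfl, hoct, hopts, fun U => by rw [one_mul, hpod]⟩
  · have hoct' : Oct (ocons (p.2 i) (p.1 i) q) := by
      rw [oct_ocons] at hoct ⊢
      exact ⟨hoct.1, hoct.2.1.symm, hoct.2.2.2, hoct.2.2.1⟩
    refine ⟨p.1 i, q, -1, Or.inr rfl, hoct', ?_, fun U => ?_⟩
    · rw [← hopts, opts_ocons, opts_ocons, insert_comm]
    · rw [hpod, pod_ocons hoct, pod_ocons hoct']
      ring

end

end Pool.Agent.LS3
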