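import Pool.Agent.Lib.MP_2c0b9b_co_LB.PodN

/-!
# Combinations of octahedra: elementary facts
-/

set_option autoImplicit false

open Finset

namespace Pool.Agent.LS3

section
variable {α : Type*} [DecidableEq α] [Fintype α] {s : ℕ}

theorem RRep.congr {X : Finset α} {f g : Finset α → ℝ} {M M' : ℝ} (h : RRep s X f M)
    (hfg : ∀ U ∈ powersetCard s X, g U = f U) (hM : M ≤ M') : RRep s X g M' := by
  obtain ⟨c, h1, h2, h3⟩ := h
  exact ⟨c, h1, fun U hU => (hfg U hU).trans (h2 U hU), h3.trans hM⟩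

theorem RRep.zero (X : Finset α) : RRep s X (fun _ => 0) 0 := by
  refine ⟨fun _ => 0, fun p h => absurd rfl h, fun U _ => ?_, ?_⟩
  · simp
  · simp

theorem RRep.add {X : Finset α} {f g : Finset α → ℝ} {M M' : ℝ} (h : RRep s X f M)
    (h' : RRep s X g M') : RRep s X (fun U => f U + g U) (M + M') := by
  obtain ⟨c, h1, h2, h3⟩ := h
  obtain ⟨c', h1', h2', h3'⟩ := h'
  refine ⟨fun p => c p + c' p, fun p hp => ?_, fun U hU => ?_, ?_⟩
  · by_cases hc : c p = 0
    · refine h1' p fun hc' => hp ?_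
      simp only [hc, hc', add_zero]
    · exact h1 p hc
  · simp only
    rw [h2 U hU, h2' U hU, ← sum_add_distrib]
    exact sum_congr rfl fun p _ => by ring
  · refine le_trans ?_ (add_le_add h3 h3')
    rw [← sum_add_distrib]
    exact sum_le_sum fun p _ => abs_add_le _ _

theorem RRep.smul {X : Finset α} {f : Finset α → ℝ} {M : ℝ} (h : RRep s X f M) (c : ℝ) :
    RRep s X (fun U => c * f U) (|c| * M) := by
  obtain ⟨r, h1, h2, h3⟩ := h
  refine ⟨fun p => c * r p, fun p hp => ?_, fun U hU => ?_, ?_⟩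
  · exact h1 p (right_ne_zero_of_mul hp)
  · simp only
    rw [h2 U hU, mul_sum]
    exact sum_congr rfl fun p _ => by ring
  · calc ∑ p, |c * r p| = |c| * ∑ p, |r p| := by
          rw [mul_sum]
          exact sum_congr rfl fun p _ => abs_mul _ _
      _ ≤ |c| * M := mul_le_mul_of_nonneg_left h3 (abs_nonneg _)

theorem RRep.sum {ι : Type*} {X : Finset α} (I : Finset ι) {f : ι → Finset α → ℝ} {M : ι → ℝ}
    (h : ∀ i ∈ I, RRep s X (f i) (M i)) :
    RRep s X (fun U => ∑ i ∈ I, f i U) (∑ i ∈ I, M i) := by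
  classical
  induction I using Finset.induction_on with
  | empty => simpa using RRep.zero (s := s) X
  | insert i I hi ih =>
    have h1 := (h i (mem_insert_self i I)).add (ih fun k hk => h k (mem_insert_of_mem hk))
    refine h1.congr (fun U _ => ?_) (le_of_eq ?_)
    · rw [sum_insert hi]
    · rw [sum_insert hi]

theorem RRep.single {X : Finset α} {p : (Fin s → α) × (Fin s → α)} (hp : OctIn X p) :
    RRep s X (fun U => (pod p U : ℝ)) 1 := by
  refine ⟨fun q => if q = p then 1 else 0, fun q hq => ?_, fun U _ => ?_, ?_⟩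
  · by_cases h : q = p
    · rw [h]
      exact hp
    · simp only [if_neg h] at hq
      exact absurd rfl hq
  · simp
  · simp only
    rw [sum_eq_single p]
    · rw [if_pos rfl, abs_one]
    · intro q _ hq
      rw [if_neg hq, abs_zero]
    · intro h
      exact absurd (mem_univ _) h

theorem RRep.nonneg {X : Finset α} {f : Finset α → ℝ} {M : ℝ} (h : RRep s X f M) : 0 ≤ M := by
  obtain ⟨r, -, -, h3⟩ := h
  exact (sum_nonneg fun _ _ => abs_nonneg _).trans h3

/-- On a larger set. -/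
theorem RRep.extend {X X' : Finset α} (hX : X ⊆ X') {f : Finset α → ℝ} {M : ℝ}
    (h : RRep s X f M) : RRep s X' (fun U => if U ⊆ X then f U else 0) M := by
  obtain ⟨r, h1, h2, h3⟩ := h
  refine ⟨r, fun p hp => (h1 p hp).mono hX, fun U hU => ?_, h3⟩
  simp only
  split_ifs with hUX
  · exact h2 U (mem_powersetCard.2 ⟨hUX, (mem_powersetCard.1 hU).2⟩)
  · refine (sum_eq_zero fun p _ => ?_).symm
    by_cases hr : r p = 0
    · rw [hr, zero_mul]
    · have hp := octIn_iff.1 (h1 p hr)
      have h4 : pod p U = 0 := by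
        by_contra hne
        exact hUX ((pod_supp hp.1 hne).1.trans hp.2)
      rw [h4, Int.cast_zero, mul_zero]

theorem RRep.nullR {X : Finset α} {f : Finset α → ℝ} {M : ℝ} (h : RRep s X f M) :
    NullR s X f := by
  obtain ⟨r, h1, h2, -⟩ := h
  intro R hR hRs
  have h3 : ∑ U ∈ (powersetCard s X).filter (fun U => R ⊆ U), f U =
      ∑ U ∈ (powersetCard s X).filter (fun U => R ⊆ U), ∑ p, r p * (pod p U : ℝ) :=
    sum_congr rfl fun U hU => h2 U (mem_filter.1 hU).1
  rw [h3, sum_comm]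
  refine sum_eq_zero fun p _ => ?_
  rw [← mul_sum]
  by_cases hc : r p = 0
  · rw [hc, zero_mul]
  · have h4 := PodAux.pod_null (h1 p hc).1 (h1 p hc).2 R hR hRs
    rw [← Int.cast_sum, h4, Int.cast_zero, mul_zero]

/-- Add a pair. -/
theorem RRep.ocons {X : Finset α} {x y : α} (hx : x ∈ X) (hy : y ∈ X) (hxy : x ≠ y)
    {f : Finset α → ℝ} {M : ℝ} (h : RRep s ((X.erase x).erase y) f M) :
    RRep (s + 1) X (fun U =>
      (if x ∈ U ∧ y ∉ U then f (U.erase x) else 0) -
        (if y ∈ U ∧ x ∉ U then f (U.erase y) else 0)) M := by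
  obtain ⟨r, h1, h2, h3⟩ := h
  have hoct : ∀ p, r p ≠ 0 → OctIn X (Pool.Agent.LS3.ocons x y p) ∧
      Oct (Pool.Agent.LS3.ocons x y p) ∧ Oct p ∧ opts p ⊆ (X.erase x).erase y := by
    intro p hp
    have hp' := octIn_iff.1 (h1 p hp)
    have hx' : x ∉ opts p := fun h4 =>
      (mem_erase.1 (mem_of_mem_erase (hp'.2 h4))).1 rfl
    have hy' : y ∉ opts p := fun h4 => (mem_erase.1 (hp'.2 h4)).1 rfl
    have h5 : Oct (Pool.Agent.LS3.ocons x y p) := oct_ocons.2 ⟨hp'.1, hxy, hx', hy'⟩
    refine ⟨octIn_iff.2 ⟨h5, ?_⟩, h5, hp'⟩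
    rw [opts_ocons]
    refine insert_subset hx (insert_subset hy (hp'.2.trans ?_))
    exact (erase_subset _ _).trans (erase_subset _ _)
  have h4 : RRep (s + 1) X (fun U => ∑ p ∈ (univ : Finset ((Fin s → α) × (Fin s → α))),
      r p * (pod (Pool.Agent.LS3.ocons x y p) U : ℝ))
      (∑ p ∈ (univ : Finset ((Fin s → α) × (Fin s → α))), |r p|) := by
    refine RRep.sum univ fun p _ => ?_
    by_cases hp : r p = 0
    · refine (RRep.zero (s := s + 1) X).congr (fun U _ => ?_) (abs_nonneg _)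
      rw [hp, zero_mul]
    · refine ((RRep.single (hoct p hp).1).smul (r p)).congr (fun U _ => rfl) ?_
      rw [mul_one]
  refine h4.congr (fun U hU => ?_) h3
  obtain ⟨hUX, hUc⟩ := mem_powersetCard.1 hU
  have key : ∀ p, r p * (pod (Pool.Agent.LS3.ocons x y p) U : ℝ) =
      (if x ∈ U ∧ y ∉ U then r p * (pod p (U.erase x) : ℝ) else 0) -
        (if y ∈ U ∧ x ∉ U then r p * (pod p (U.erase y) : ℝ) else 0) := by
    intro p
    by_cases hp : r p = 0
    · simp [hp]
    · obtain ⟨-, h5, h6, h7⟩ := hoct p hp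
      have hz1 : x ∈ U → y ∈ U → pod p (U.erase x) = 0 := by
        intro _ hyU
        by_contra hne
        have h8 := (pod_supp h6 hne).1 (mem_erase.2 ⟨hxy.symm, hyU⟩)
        exact (mem_erase.1 (h7 h8)).1 rfl
      have hz2 : x ∈ U → y ∈ U → pod p (U.erase y) = 0 := by
        intro hxU _
        by_contra hne
        have h8 := (pod_supp h6 hne).1 (mem_erase.2 ⟨hxy, hxU⟩)
        exact (mem_erase.1 (mem_of_mem_erase (h7 h8))).1 rfl
      rw [pod_ocons h5 U]
      by_cases hxU : x ∈ U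
      · by_cases hyU : y ∈ U
        · simp [hxU, hyU, hz1 hxU hyU, hz2 hxU hyU]
        · simp [hxU, hyU]
      · by_cases hyU : y ∈ U
        · simp [hxU, hyU]
        · simp [hxU, hyU]
  rw [sum_congr rfl fun p _ => key p, sum_sub_distrib]
  congr 1
  · split_ifs with hc
    · refine h2 _ (mem_powersetCard.2 ⟨?_, ?_⟩)
      · intro z hz
        rw [mem_erase] at hz
        exact mem_erase.2 ⟨fun h => hc.2 (h ▸ hz.2), mem_erase.2 ⟨hz.1, hUX hz.2⟩⟩
      · rw [card_erase_of_mem hc.1, hUc, Nat.add_sub_cancel]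
    · simp
  · split_ifs with hc
    · refine h2 _ (mem_powersetCard.2 ⟨?_, ?_⟩)
      · intro z hz
        rw [mem_erase] at hz
        exact mem_erase.2 ⟨hz.1, mem_erase.2 ⟨fun h => hc.2 (h ▸ hz.2), hUX hz.2⟩⟩
      · rw [card_erase_of_mem hc.1, hUc, Nat.add_sub_cancel]
    · simp

theorem ZRep.congr {X : Finset α} {f g : Finset α → ℤ} {M M' : ℝ} (h : ZRep s X f M)
    (hfg : ∀ U ∈ powersetCard s X, g U = f U) (hM : M ≤ M') : ZRep s X g M' := by
  obtain ⟨c, h1, h2, h3⟩ := h
  exact ⟨c, h1, fun U hU => (hfg U hU).trans (h2 U hU), h3.trans hM⟩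

theorem ZRep.zero (X : Finset α) : ZRep s X (fun _ => 0) 0 := by
  refine ⟨fun _ => 0, fun p h => absurd rfl h, fun U _ => ?_, ?_⟩
  · simp
  · simp

theorem ZRep.add {X : Finset α} {f g : Finset α → ℤ} {M M' : ℝ} (h : ZRep s X f M)
    (h' : ZRep s X g M') : ZRep s X (fun U => f U + g U) (M + M') := by
  obtain ⟨c, h1, h2, h3⟩ := h
  obtain ⟨c', h1', h2', h3'⟩ := h'
  refine ⟨fun p => c p + c' p, fun p hp => ?_, fun U hU => ?_, ?_⟩
  · by_cases hc : c p = 0
    · refine h1' p fun hc' => hp ?_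
      simp only [hc, hc', add_zero]
    · exact h1 p hc
  · simp only
    rw [h2 U hU, h2' U hU, ← sum_add_distrib]
    exact sum_congr rfl fun p _ => by ring
  · refine le_trans ?_ (add_le_add h3 h3')
    rw [← sum_add_distrib]
    exact sum_le_sum fun p _ => by
      rw [Int.cast_add]
      exact abs_add_le _ _

theorem ZRep.smul {X : Finset α} {f : Finset α → ℤ} {M : ℝ} (h : ZRep s X f M) (c : ℤ) :
    ZRep s X (fun U => c * f U) (|(c : ℝ)| * M) := by
  obtain ⟨r, h1, h2, h3⟩ := h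
  refine ⟨fun p => c * r p, fun p hp => ?_, fun U hU => ?_, ?_⟩
  · exact h1 p (right_ne_zero_of_mul hp)
  · simp only
    rw [h2 U hU, mul_sum]
    exact sum_congr rfl fun p _ => by ring
  · calc ∑ p, |((c * r p : ℤ) : ℝ)| = |(c : ℝ)| * ∑ p, |(r p : ℝ)| := by
          rw [mul_sum]
          exact sum_congr rfl fun p _ => by rw [Int.cast_mul, abs_mul]
      _ ≤ |(c : ℝ)| * M := mul_le_mul_of_nonneg_left h3 (abs_nonneg _)

theorem ZRep.sum {ι : Type*} {X : Finset α} (I : Finset ι) {f : ι → Finset α → ℤ} {M : ι → ℝ}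
    (h : ∀ i ∈ I, ZRep s X (f i) (M i)) :
    ZRep s X (fun U => ∑ i ∈ I, f i U) (∑ i ∈ I, M i) := by
  classical
  induction I using Finset.induction_on with
  | empty => simpa using ZRep.zero (s := s) X
  | insert i I hi ih =>
    have h1 := (h i (mem_insert_self i I)).add (ih fun k hk => h k (mem_insert_of_mem hk))
    refine h1.congr (fun U _ => ?_) (le_of_eq ?_)
    · rw [sum_insert hi]
    · rw [sum_insert hi]

theorem ZRep.single {X : Finset α} {p : (Fin s → α) × (Fin s → α)} (hp : OctIn X p) :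
    ZRep s X (fun U => pod p U) 1 := by
  refine ⟨fun q => if q = p then 1 else 0, fun q hq => ?_, fun U _ => ?_, ?_⟩
  · by_cases h : q = p
    · rw [h]
      exact hp
    · simp only [if_neg h] at hq
      exact absurd rfl hq
  · simp
  · simp only
    rw [sum_eq_single p]
    · rw [if_pos rfl, Int.cast_one, abs_one]
    · intro q _ hq
      rw [if_neg hq, Int.cast_zero, abs_zero]
    · intro h
      exact absurd (mem_univ _) h

/-- On a larger set. -/
theorem ZRep.extend {X X' : Finset α} (hX : X ⊆ X') {f : Finset α → ℤ} {M : ℝ}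
    (h : ZRep s X f M) : ZRep s X' (fun U => if U ⊆ X then f U else 0) M := by
  obtain ⟨r, h1, h2, h3⟩ := h
  refine ⟨r, fun p hp => (h1 p hp).mono hX, fun U hU => ?_, h3⟩
  simp only
  split_ifs with hUX
  · exact h2 U (mem_powersetCard.2 ⟨hUX, (mem_powersetCard.1 hU).2⟩)
  · refine (sum_eq_zero fun p _ => ?_).symm
    by_cases hr : r p = 0
    · rw [hr, zero_mul]
    · have hp := octIn_iff.1 (h1 p hr)
      have h4 : pod p U = 0 := by
        by_contra hne
        exact hUX ((pod_supp hp.1 hne).1.trans hp.2)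
      rw [h4, mul_zero]

theorem ZRep.toR {X : Finset α} {f : Finset α → ℤ} {M : ℝ} (h : ZRep s X f M) :
    RRep s X (fun U => (f U : ℝ)) M := by
  obtain ⟨c, h1, h2, h3⟩ := h
  refine ⟨fun p => (c p : ℝ), fun p hp => h1 p fun h => hp ?_, fun U hU => ?_, h3⟩
  · simp only [h, Int.cast_zero]
  · simp only
    rw [h2 U hU]
    push_cast
    rfl

end

end Pool.Agent.LS3
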